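import Pool.Agent.Run7.h931.RS.Avg2
import Pool.Agent.H373R2.T7.LamMaj
import Pool.Agent.Y949.DK.SV

/-!
# Random shifts, part 4: primes and prime pairs in windows
-/

set_option autoImplicit false

namespace Pool.Agent.Run7.h931.RS

open Finset Filter

/-- the number of the primes in `(x, x + q]` -/
def Dc (x q : ℕ) : ℕ := ((Ioc x (x + q)).filter Nat.Prime).card

/-- the number of the primes `t ∈ (x, x + q]` for which `t + h` is a prime -/
def Cc (x q h : ℕ) : ℕ := ((Ioc x (x + q)).filter fun t => t.Prime ∧ (t + h).Prime).card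

noncomputable def th (x q : ℕ) : ℝ := ∑ p ∈ (Ioc x (x + q)).filter Nat.Prime, Real.log p

lemma th_eq (x q : ℕ) : th x q = Chebyshev.theta ((x + q : ℕ) : ℝ) - Chebyshev.theta (x : ℝ) := by
  unfold th Chebyshev.theta
  rw [Nat.floor_natCast, Nat.floor_natCast, eq_sub_iff_add_eq]
  have h : (Ioc 0 (x + q)).filter Nat.Prime = (Ioc x (x + q)).filter Nat.Prime ∪ (Ioc 0 x).filter Nat.Prime := by
    ext p
    simp only [mem_filter, mem_Ioc, mem_union]
    constructor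
    · rintro ⟨⟨a, b⟩, c⟩
      by_cases hh : x < p
      · exact Or.inl ⟨⟨hh, b⟩, c⟩
      · exact Or.inr ⟨⟨a, not_lt.1 hh⟩, c⟩
    · rintro (⟨⟨a, b⟩, c⟩ | ⟨⟨a, b⟩, c⟩)
      · exact ⟨⟨c.pos, b⟩, c⟩
      · exact ⟨⟨a, by omega⟩, c⟩
  rw [h, sum_union]
  rw [disjoint_left]
  intro p h1 h2
  rw [mem_filter, mem_Ioc] at h1 h2
  omega

open Pool.Agent.H373R2.T7 (lam_ap ev_L' ev_log') in
/-- the prime number theorem in windows -/
theorem th_win (T U : ℕ) : ∀ᶠ N : ℕ in atTop, ∀ x q : ℕ, x ≤ (T + 1) * N → q ≤ N →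
    |th x q - q| ≤ N / Real.log N ^ U := by
  obtain ⟨n1, h1⟩ := lam_ap 0 (U + 1)
  obtain ⟨n2, h2⟩ := ev_log' (U + 1) (16 * (T + 2))
  obtain ⟨n3, h3⟩ := ev_L' (8 * (T + 2))
  filter_upwards [eventually_ge_atTop n1, eventually_ge_atTop n2, eventually_ge_atTop n3, eventually_ge_atTop 3] with
    N g1 g2 g3 g4 x q hx hq
  obtain ⟨M, hM⟩ : ∃ M : ℕ, M = (T + 2) * N := ⟨_, rfl⟩
  have hNM : N ≤ M := by rw [hM]; exact Nat.le_mul_of_pos_left _ (by omega)
  have hNr : (3 : ℝ) ≤ N := by exact_mod_cast g4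
  have a2 := h2 N g2
  have a3 := h3 N g3
  obtain ⟨L, hL⟩ : ∃ L, L = Real.log (N : ℝ) := ⟨_, rfl⟩
  rw [← hL] at a2 a3 ⊢
  have hT : (0 : ℝ) ≤ T := Nat.cast_nonneg T
  have hL1 : 16 ≤ L := by linarith
  have hMr : (M : ℝ) = (T + 2) * N := by rw [hM]; push_cast; ring
  have hM0 : (0 : ℝ) < M := by rw [hMr]; positivity
  have hLM : L ≤ Real.log M := by
    rw [hL]
    exact Real.log_le_log (by linarith) (by exact_mod_cast hNM)
  have hLM2 : Real.log M ≤ 2 * L := by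
    rw [hMr, Real.log_mul (by positivity) (by positivity), ← hL]
    have : Real.log ((T : ℝ) + 2) ≤ T + 2 := (Real.log_le_sub_one_of_pos (by linarith)).trans (by linarith)
    linarith
  have key : ∀ y : ℕ, y ≤ M → |Chebyshev.theta (y : ℝ) - y| ≤ N / (2 * L ^ U) := by
    intro y hy
    have b1 := h1 M (g1.trans hNM) 1 le_rfl (by simp) 0 y hy
    have b2 : ∑ n ∈ (Icc 1 y).filter (fun n => n ≡ 0 [MOD 1]), ArithmeticFunction.vonMangoldt n = Chebyshev.psi (y : ℝ) := by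
      unfold Chebyshev.psi
      rw [Nat.floor_natCast, filter_true_of_mem (fun n _ => Nat.modEq_one)]
      rfl
    rw [b2, if_pos (Nat.coprime_one_right 0), Nat.totient_one, Nat.cast_one, div_one] at b1
    rcases Nat.eq_zero_or_pos y with hy0 | hy0
    · subst hy0
      rw [Nat.cast_zero, Chebyshev.theta_zero, sub_zero, abs_zero]
      positivity
    have hyr : (1 : ℝ) ≤ y := by exact_mod_cast hy0
    have b3 := Chebyshev.psi_sub_theta_le hyr
    have b4 := Chebyshev.theta_le_psi (y : ℝ)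
    have b5 : √(y : ℝ) ≤ (T + 2) * √(N : ℝ) := by
      rw [Real.sqrt_le_left (by positivity), mul_pow, Real.sq_sqrt (Nat.cast_nonneg N)]
      have : (y : ℝ) ≤ M := by exact_mod_cast hy
      rw [hMr] at this
      nlinarith
    have b6 : Real.log y ≤ 2 * L := (Real.log_le_log (by linarith) (by exact_mod_cast hy)).trans hLM2
    have b7 : 2 * √(y : ℝ) * Real.log y ≤ 2 * ((T + 2) * √(N : ℝ)) * (2 * L) := by
      apply mul_le_mul _ b6 (Real.log_nonneg hyr) (by positivity)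
      linarith
    have b8 : 2 * ((T + 2) * √(N : ℝ)) * (2 * L) ≤ N / (4 * L ^ U) := by
      rw [le_div_iff₀ (by positivity)]
      have c1 : √(N : ℝ) * √(N : ℝ) = N := Real.mul_self_sqrt (Nat.cast_nonneg N)
      have c2 : 0 ≤ √(N : ℝ) := Real.sqrt_nonneg _
      calc 2 * ((T + 2) * √(N : ℝ)) * (2 * L) * (4 * L ^ U) = √(N : ℝ) * (16 * (T + 2) * L ^ (U + 1)) := by rw [pow_succ]; ring
        _ ≤ √(N : ℝ) * √(N : ℝ) := mul_le_mul_of_nonneg_left a2 c2
        _ = N := c1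
    have b9 : (M : ℝ) / Real.log M ^ (U + 1) ≤ N / (4 * L ^ U) := by
      calc (M : ℝ) / Real.log M ^ (U + 1) ≤ M / L ^ (U + 1) := by
            apply div_le_div_of_nonneg_left hM0.le (by positivity)
            exact pow_le_pow_left₀ (by linarith) hLM _
        _ ≤ _ := by
            rw [div_le_div_iff₀ (by positivity) (by positivity), hMr]
            have : (0 : ℝ) ≤ N * L ^ U := by positivity
            calc ((T : ℝ) + 2) * N * (4 * L ^ U) = (N * L ^ U) * (4 * (T + 2)) := by ring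
              _ ≤ (N * L ^ U) * L := mul_le_mul_of_nonneg_left (by linarith) this
              _ = _ := by rw [pow_succ]; ring
    have b10 : (N : ℝ) / (4 * L ^ U) + N / (4 * L ^ U) = N / (2 * L ^ U) := by
      field_simp
      ring
    rw [abs_le] at b1 ⊢
    constructor <;> linarith [b1.1, b1.2]
  have c1 := key (x + q) (by rw [hM]; nlinarith)
  have c2 := key x (by rw [hM]; nlinarith)
  rw [th_eq]
  have e : (N : ℝ) / L ^ U = N / (2 * L ^ U) + N / (2 * L ^ U) := by field_simp; ring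
  rw [e]
  rw [abs_le] at c1 c2 ⊢
  push_cast at c1 c2 ⊢
  constructor <;> linarith [c1.1, c1.2, c2.1, c2.2]

lemma Dc_le_th (x q : ℕ) (Y : ℝ) (hY : ((x + q : ℕ) : ℝ) ≤ Y) : th x q ≤ Dc x q * Real.log Y := by
  unfold th Dc
  rw [← nsmul_eq_mul, ← sum_const]
  apply sum_le_sum
  intro p hp
  rw [mem_filter, mem_Ioc] at hp
  apply Real.log_le_log (by exact_mod_cast hp.2.pos)
  exact le_trans (by exact_mod_cast hp.1.2) hY

lemma th_le_Dc (x q : ℕ) (Y : ℝ) (hY0 : 0 < Y) (hY : Y ≤ x) : Dc x q * Real.log Y ≤ th x q := by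
  unfold th Dc
  rw [← nsmul_eq_mul, ← sum_const]
  apply sum_le_sum
  intro p hp
  rw [mem_filter, mem_Ioc] at hp
  apply Real.log_le_log hY0
  exact hY.trans (by exact_mod_cast hp.1.1.le)

open Pool.Agent.H373R2.T7 (ev_L') in
/-- lower bound -/
theorem pnt_lo (T a : ℕ) : ∃ K : ℝ, 0 ≤ K ∧ ∀ᶠ N : ℕ in atTop, ∀ x q : ℕ, x ≤ (T + 1) * N →
    (N : ℝ) ≤ q * Real.log N ^ a → q ≤ N → q / Real.log N - K * (q / Real.log N ^ 2) ≤ Dc x q := by
  have hlT : 0 ≤ Real.log ((T : ℝ) + 2) := Real.log_nonneg (by linarith [Nat.cast_nonneg (α := ℝ) T])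
  refine ⟨1 + Real.log (T + 2), by linarith, ?_⟩
  obtain ⟨n3, h3⟩ := ev_L' 4
  filter_upwards [th_win T (a + 1), eventually_ge_atTop n3, eventually_ge_atTop 3] with N h1 g3 g4 x q hx hqa hq
  have hNr : (3 : ℝ) ≤ N := by exact_mod_cast g4
  have a3 := h3 N g3
  have b1 := h1 x q hx hq
  obtain ⟨L, hL⟩ : ∃ L, L = Real.log (N : ℝ) := ⟨_, rfl⟩
  rw [← hL] at a3 b1 hqa ⊢
  have hL0 : 0 < L := by linarith
  have hT : (0 : ℝ) ≤ T := Nat.cast_nonneg T
  have b2 := Dc_le_th x q ((T + 2) * N) (by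
    have : x + q ≤ (T + 2) * N := by nlinarith
    exact_mod_cast this)
  rw [Real.log_mul (by positivity) (by positivity), ← hL] at b2
  obtain ⟨c, hc⟩ : ∃ c, c = Real.log ((T : ℝ) + 2) := ⟨_, rfl⟩
  rw [← hc] at b2 hlT ⊢
  have hq0 : (0 : ℝ) ≤ q := Nat.cast_nonneg q
  have b3 : (N : ℝ) / L ^ (a + 1) ≤ q / L := by
    rw [div_le_div_iff₀ (by positivity) hL0, pow_succ]
    calc (N : ℝ) * L ≤ (q * L ^ a) * L := mul_le_mul_of_nonneg_right hqa hL0.le
      _ = _ := by ring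
  have b4 : (q : ℝ) - q / L ≤ Dc x q * (c + L) := by linarith [(abs_le.1 b1).1]
  have b5 : (q / L - (1 + c) * (q / L ^ 2)) * (c + L) ≤ (q : ℝ) - q / L := by
    have e : (q / L - (1 + c) * (q / L ^ 2)) * (c + L) = q - q / L - (q / L ^ 2) * ((1 + c) * c) := by
      field_simp
      ring
    rw [e]
    have : 0 ≤ (q / L ^ 2) * ((1 + c) * c) := by positivity
    linarith
  have b6 : (q / L - (1 + c) * (q / L ^ 2)) * (c + L) ≤ Dc x q * (c + L) := b5.trans b4
  exact le_of_mul_le_mul_right b6 (by linarith)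

open Pool.Agent.H373R2.T7 (ev_L') in
/-- upper bound -/
theorem pnt_hi (T a : ℕ) (η : ℝ) (hη : 0 < η) (hη1 : η ≤ 1) : ∃ K : ℝ, 0 ≤ K ∧ ∀ᶠ N : ℕ in atTop, ∀ x q : ℕ,
    x ≤ (T + 1) * N → η * N ≤ x → (N : ℝ) ≤ q * Real.log N ^ a → q ≤ N →
    (Dc x q : ℝ) ≤ q / Real.log N + K * (q / Real.log N ^ 2) := by
  have hlη : Real.log η ≤ 0 := Real.log_nonpos hη.le hη1
  refine ⟨1 + 4 * (-Real.log η), by linarith, ?_⟩
  obtain ⟨n3, h3⟩ := ev_L' (4 + 4 * (-Real.log η))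
  filter_upwards [th_win T (a + 1), eventually_ge_atTop n3, eventually_ge_atTop 3] with N h1 g3 g4 x q hx hxη hqa hq
  have hNr : (3 : ℝ) ≤ N := by exact_mod_cast g4
  have a3 := h3 N g3
  have b1 := h1 x q hx hq
  obtain ⟨L, hL⟩ : ∃ L, L = Real.log (N : ℝ) := ⟨_, rfl⟩
  rw [← hL] at a3 b1 hqa ⊢
  have b2 := th_le_Dc x q (η * N) (by positivity) hxη
  rw [Real.log_mul (by positivity) (by positivity), ← hL] at b2
  obtain ⟨c, hc⟩ : ∃ c, c = -Real.log η := ⟨_, rfl⟩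
  rw [← hc] at a3 ⊢
  have hc' : Real.log η = -c := by linarith
  rw [hc'] at b2 hlη
  have hc0 : 0 ≤ c := by linarith
  have hL0 : 0 < L := by linarith
  have hq0 : (0 : ℝ) ≤ q := Nat.cast_nonneg q
  have b3 : (N : ℝ) / L ^ (a + 1) ≤ q / L := by
    rw [div_le_div_iff₀ (by positivity) hL0, pow_succ]
    calc (N : ℝ) * L ≤ (q * L ^ a) * L := mul_le_mul_of_nonneg_right hqa hL0.le
      _ = _ := by ring
  have b4 : Dc x q * (-c + L) ≤ (q : ℝ) + q / L := by linarith [(abs_le.1 b1).2]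
  have b5 : (q : ℝ) + q / L ≤ (q / L + (1 + 4 * c) * (q / L ^ 2)) * (-c + L) := by
    have e : (q / L + (1 + 4 * c) * (q / L ^ 2)) * (-c + L) = q + q / L + (q / L ^ 2) * (c * (3 * L - 1 - 4 * c)) := by
      field_simp
      ring
    rw [e]
    have : 0 ≤ (q / L ^ 2) * (c * (3 * L - 1 - 4 * c)) := by
      apply mul_nonneg (by positivity)
      apply mul_nonneg hc0
      linarith
    linarith
  exact le_of_mul_le_mul_right (b4.trans b5) (by linarith)

lemma sg_le_Fw (h : ℕ) : Real.exp (Pool.Agent.Y851.DK.sg h) ≤ Fw 0 h := by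
  unfold Pool.Agent.Y851.DK.sg Fw
  have e : h.primeFactors.filter (fun p => 0 < p) = h.primeFactors := by
    apply filter_true_of_mem
    intro p hp
    exact (Nat.prime_of_mem_primeFactors hp).pos
  rw [e, Real.exp_sum]
  apply Finset.prod_le_prod (fun _ _ => (Real.exp_pos _).le)
  intro p hp
  have h2 : (2 : ℝ) ≤ p := by exact_mod_cast (Nat.prime_of_mem_primeFactors hp).two_le
  have h3 : 0 < (p : ℝ) - 1 := by linarith
  have h4 := Real.add_one_le_exp (-(1 / (p : ℝ)))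
  have h5 : Real.exp (1 / (p : ℝ)) * Real.exp (-(1 / (p : ℝ))) = 1 := by rw [← Real.exp_add]; simp
  have h6 : 0 < Real.exp (1 / (p : ℝ)) := Real.exp_pos _
  have h7 : ((p : ℝ) - 1) / p ≤ Real.exp (-(1 / (p : ℝ))) := by
    refine le_trans (le_of_eq ?_) h4
    field_simp
    ring
  rw [le_div_iff₀ h3]
  have h8 : Real.exp (1 / (p : ℝ)) * (((p : ℝ) - 1) / p) ≤ 1 :=
    (mul_le_mul_of_nonneg_left h7 h6.le).trans (le_of_eq h5)
  have h9 : Real.exp (1 / (p : ℝ)) * (((p : ℝ) - 1) / p) = Real.exp (1 / (p : ℝ)) * ((p : ℝ) - 1) / p := by ring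
  rw [h9, div_le_one (by linarith)] at h8
  exact h8

open Pool.Agent.H373R2.T7 (ev_L' ev_log') in
/-- the sieve -/
theorem sieve (a : ℕ) : ∃ C₀ : ℕ, 1 ≤ C₀ ∧ ∀ᶠ N : ℕ in atTop, ∀ x q h : ℕ, (N : ℝ) ≤ q * Real.log N ^ a → q ≤ N →
    1 ≤ h → (Cc x q h : ℝ) ≤ C₀ * Fw 0 h ^ C₀ * (q / Real.log N ^ 2) := by
  classical
  obtain ⟨C, hC1, hC⟩ := Pool.Agent.Y949.DK.t_SV 2
  obtain ⟨Y₀, hY₀⟩ := eventually_atTop.1 hC
  obtain ⟨C₀, hC₀⟩ : ∃ C₀ : ℕ, 4 * C ≤ C₀ := exists_nat_ge _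
  refine ⟨C₀, ?_, ?_⟩
  · have : (1 : ℝ) ≤ C₀ := by linarith
    exact_mod_cast this
  obtain ⟨n2, h2⟩ := ev_log' a (|Y₀| + 1)
  obtain ⟨n3, h3⟩ := ev_L' 4
  filter_upwards [eventually_ge_atTop n2, eventually_ge_atTop n3, eventually_ge_atTop 3] with N g2 g3 g4 x q h hqa hq hh
  have hNr : (3 : ℝ) ≤ N := by exact_mod_cast g4
  have a2 := h2 N g2
  have a3 := h3 N g3
  obtain ⟨L, hL⟩ : ∃ L, L = Real.log (N : ℝ) := ⟨_, rfl⟩
  rw [← hL] at a2 a3 hqa ⊢
  have hL0 : 0 < L := by linarith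
  have hLa : 0 < L ^ a := by positivity
  have hs : √(N : ℝ) * √(N : ℝ) = N := Real.mul_self_sqrt (Nat.cast_nonneg N)
  have hs0 : 0 < √(N : ℝ) := Real.sqrt_pos.2 (by linarith)
  have hLs : L ^ a ≤ √(N : ℝ) := by
    have : 1 * L ^ a ≤ (|Y₀| + 1) * L ^ a := mul_le_mul_of_nonneg_right (by linarith [abs_nonneg Y₀]) hLa.le
    linarith
  have hqs : √(N : ℝ) ≤ q := by
    have : √(N : ℝ) * √(N : ℝ) ≤ q * √(N : ℝ) := by
      rw [hs]
      exact hqa.trans (mul_le_mul_of_nonneg_left hLs (Nat.cast_nonneg q))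
    exact le_of_mul_le_mul_right this hs0
  have hqY : Y₀ ≤ q := by
    have h1 : (|Y₀| + 1) * 1 ≤ (|Y₀| + 1) * L ^ a := mul_le_mul_of_nonneg_left (one_le_pow₀ (by linarith)) (by positivity)
    have h2 := le_abs_self Y₀
    linarith
  have hq0 : (0 : ℝ) < q := by linarith
  obtain ⟨F, hF⟩ : ∃ F : Finset (ℤ × ℤ), F = {((1 : ℤ), (x : ℤ)), ((1 : ℤ), (x : ℤ) + h)} := ⟨_, rfl⟩
  have hne : ((1 : ℤ), (x : ℤ)) ≠ ((1 : ℤ), (x : ℤ) + h) := by
    intro he
    have := congrArg Prod.snd he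
    simp only at this
    omega
  have hcard : F.card = 2 := by rw [hF]; exact card_pair hne
  have b1 := hY₀ q hqY F hcard (by
    intro f hf
    rw [hF, mem_insert, mem_singleton] at hf
    rcases hf with rfl | rfl <;> norm_num) (by
    intro f hf g hg hfg
    rw [hF, mem_insert, mem_singleton] at hf hg
    rcases hf with rfl | rfl <;> rcases hg with rfl | rfl
    · exact absurd rfl hfg
    · simp only
      omega
    · simp only
      omega
    · exact absurd rfl hfg)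
  rw [Nat.floor_natCast] at b1
  have b2 : Cc x q h ≤ ((Icc 1 q).filter (fun n : ℕ => ∀ f ∈ F, (f.1 * (n : ℤ) + f.2).toNat.Prime)).card := by
    unfold Cc
    apply card_le_card_of_injOn (fun t => t - x)
    · intro t ht
      rw [mem_coe, mem_filter, mem_Ioc] at ht
      rw [mem_coe, mem_filter, mem_Icc]
      obtain ⟨⟨t1, t2⟩, t3, t4⟩ := ht
      have u1 : 1 ≤ t - x := by omega
      have u2 : t - x ≤ q := by omega
      refine ⟨⟨u1, u2⟩, ?_⟩
      intro f hf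
      rw [hF, mem_insert, mem_singleton] at hf
      rcases hf with rfl | rfl
      · have e : (1 * ((t - x : ℕ) : ℤ) + (x : ℤ)).toNat = t := by omega
        simp only
        rw [e]
        exact t3
      · have e : (1 * ((t - x : ℕ) : ℤ) + ((x : ℤ) + h)).toNat = t + h := by omega
        simp only
        rw [e]
        exact t4
    · intro t ht t' ht' he
      rw [mem_coe, mem_filter, mem_Ioc] at ht ht'
      simp only at he
      omega
  have hsg0 : Pool.Agent.Y851.DK.sg 0 = 0 := by simp [Pool.Agent.Y851.DK.sg]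
  have hsg1 : Pool.Agent.Y851.DK.sg 1 = 0 := by simp [Pool.Agent.Y851.DK.sg]
  have b3 : ∑ f ∈ F, Pool.Agent.Y851.DK.sg f.1.natAbs +
      ∑ f ∈ F, ∑ g ∈ F, Pool.Agent.Y851.DK.sg (f.1 * g.2 - g.1 * f.2).natAbs = 2 * Pool.Agent.Y851.DK.sg h := by
    rw [hF, sum_pair hne, sum_pair hne, sum_pair hne, sum_pair hne]
    have e1 : ((1 : ℤ) * (x : ℤ) - 1 * (x : ℤ)).natAbs = 0 := by omega
    have e2 : ((1 : ℤ) * ((x : ℤ) + h) - 1 * (x : ℤ)).natAbs = h := by omega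
    have e3 : ((1 : ℤ) * (x : ℤ) - 1 * ((x : ℤ) + h)).natAbs = h := by omega
    have e4 : ((1 : ℤ) * ((x : ℤ) + h) - 1 * ((x : ℤ) + h)).natAbs = 0 := by omega
    simp only [e1, e2, e3, e4, hsg0, Int.natAbs_one, hsg1]
    ring
  rw [b3] at b1
  have hF1 := one_le_Fw 0 h
  have b4 : Real.exp (C * (2 * Pool.Agent.Y851.DK.sg h)) ≤ Fw 0 h ^ C₀ := by
    have c1 : C * (2 * Pool.Agent.Y851.DK.sg h) ≤ C₀ * Pool.Agent.Y851.DK.sg h := by
      have : 0 ≤ Pool.Agent.Y851.DK.sg h := sum_nonneg fun _ _ => by positivity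
      nlinarith
    calc Real.exp (C * (2 * Pool.Agent.Y851.DK.sg h)) ≤ Real.exp (C₀ * Pool.Agent.Y851.DK.sg h) := Real.exp_le_exp.2 c1
      _ = Real.exp (Pool.Agent.Y851.DK.sg h) ^ C₀ := Real.exp_nat_mul _ _
      _ ≤ _ := pow_le_pow_left₀ (Real.exp_pos _).le (sg_le_Fw h) _
  have b5 : L / 2 ≤ Real.log q := by
    have : Real.log (√(N : ℝ)) ≤ Real.log q := Real.log_le_log hs0 hqs
    rw [Real.log_sqrt (Nat.cast_nonneg N), ← hL] at this
    exact this
  have b6 : (q : ℝ) / Real.log q ^ 2 ≤ 4 * (q / L ^ 2) := by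
    calc (q : ℝ) / Real.log q ^ 2 ≤ q / (L / 2) ^ 2 := by
          apply div_le_div_of_nonneg_left hq0.le (by positivity)
          exact pow_le_pow_left₀ (by positivity) b5 2
      _ = _ := by field_simp; norm_num
  have hr : (Cc x q h : ℝ) ≤ (((Icc 1 q).filter (fun n : ℕ => ∀ f ∈ F, (f.1 * (n : ℤ) + f.2).toNat.Prime)).card : ℝ) := by
    exact_mod_cast b2
  refine (hr.trans b1).trans ?_
  calc C * Real.exp (C * (2 * Pool.Agent.Y851.DK.sg h)) * (q / Real.log q ^ 2) ≤ C * Fw 0 h ^ C₀ * (4 * (q / L ^ 2)) := by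
        apply mul_le_mul _ b6 (by positivity) (by positivity)
        exact mul_le_mul_of_nonneg_left b4 (by linarith)
    _ = (4 * C) * Fw 0 h ^ C₀ * (q / L ^ 2) := by ring
    _ ≤ C₀ * Fw 0 h ^ C₀ * (q / L ^ 2) := by
        apply mul_le_mul_of_nonneg_right _ (by positivity)
        exact mul_le_mul_of_nonneg_right hC₀ (by positivity)

end Pool.Agent.Run7.h931.RS
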