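import Pool.Agent.Run7.h931.RS.OneTwo

/-!
# Random shifts, part 13: the longest run of composite values
-/

set_option autoImplicit false

namespace Pool.Agent.Run7.h931.RS

open Finset Filter

/-- for some `1 ≤ n ≤ N` none of `n + s 0, ..., n + s (k - 1)` is a prime -/
def Free {m : ℕ} (N k : ℕ) (s : Fin m → ℕ) : Prop := ∃ n, 1 ≤ n ∧ n ≤ N ∧ ∀ j : Fin m, (j : ℕ) < k → ¬ (n + s j).Prime

lemma Free.mono {m : ℕ} {N k k' : ℕ} {s : Fin m → ℕ} (h : Free N k s) (hk : k' ≤ k) : Free N k' s := by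
  obtain ⟨n, h1, h2, h3⟩ := h
  exact ⟨n, h1, h2, fun j hj => h3 j (by omega)⟩

open Classical in
/-- the longest run of composite values -/
noncomputable def run {m : ℕ} (N : ℕ) (s : Fin m → ℕ) : ℕ := Nat.findGreatest (fun k => Free N k s) m

/-- a set of vectors which is determined by the first `k` coordinates -/
lemma proj (q k r : ℕ) (b : Fin (k + r) → ℕ) (S : Finset (Fin (k + r) → ℕ)) (P : Finset (Fin k → ℕ))
    (hS : ∀ s ∈ S, (∀ j, s j ∈ Ioc (b j) (b j + q)) ∧ (fun j : Fin k => s (Fin.castAdd r j)) ∈ P) :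
    (S.card : ℝ) ≤ P.card * (q : ℝ) ^ r := by
  classical
  have h1 : S.card ≤ (P ×ˢ Fintype.piFinset (fun j : Fin r => Ioc (b (Fin.natAdd k j)) (b (Fin.natAdd k j) + q))).card := by
    apply card_le_card_of_injOn (fun s => (fun j : Fin k => s (Fin.castAdd r j), fun j : Fin r => s (Fin.natAdd k j)))
    · intro s hs
      have hs' : s ∈ S := by exact_mod_cast hs
      obtain ⟨h1, h2⟩ := hS s hs'
      have : ((fun j : Fin k => s (Fin.castAdd r j), fun j : Fin r => s (Fin.natAdd k j)) : (Fin k → ℕ) × (Fin r → ℕ)) ∈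
          P ×ˢ Fintype.piFinset (fun j : Fin r => Ioc (b (Fin.natAdd k j)) (b (Fin.natAdd k j) + q)) := by
        rw [mem_product, Fintype.mem_piFinset]
        exact ⟨h2, fun j => h1 _⟩
      exact_mod_cast this
    · intro s _ s' _ hss
      simp only [Prod.mk.injEq] at hss
      funext j
      refine Fin.addCases (fun i => ?_) (fun i => ?_) j
      · exact congrFun hss.1 i
      · exact congrFun hss.2 i
  have h2 : (P ×ˢ Fintype.piFinset (fun j : Fin r => Ioc (b (Fin.natAdd k j)) (b (Fin.natAdd k j) + q))).card = P.card * q ^ r := by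
    rw [card_product, Fintype.card_piFinset]
    congr 1
    rw [prod_congr rfl fun j _ => by rw [Nat.card_Ioc, Nat.add_sub_cancel_left], prod_const, card_univ, Fintype.card_fin]
  rw [h2] at h1
  exact_mod_cast h1

/-- Cramér's law for almost all shift vectors -/
theorem law (T a : ℕ) (ε : ℝ) (hε : 0 < ε) : ∀ᶠ N : ℕ in atTop, ∀ q : ℕ, (N : ℝ) ≤ q * Real.log N ^ a → q ≤ N →
    ∀ (m : ℕ) (b : Fin m → ℕ), (∀ j, b j ≤ T * N) → (1 + ε) * Real.log N ^ 2 ≤ m →
      (((Fintype.piFinset fun j => Ioc (b j) (b j + q)).filter fun s =>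
        ε < |(run N s : ℝ) / Real.log N ^ 2 - 1|).card : ℝ) ≤ ε * (q : ℝ) ^ m := by
  classical
  filter_upwards [part_one T a ε hε, part_two T a (ε / 2) (by positivity), ev_log (Real.log (2 / ε) / (ε / 2)), ev_log 1,
    ev_log (2 / ε), eventually_ge_atTop 3] with N g1 g2 g3 g4 g5 g6 q hq hqN m b hb hm
  obtain ⟨L, hL⟩ : ∃ L, L = Real.log (N : ℝ) := ⟨_, rfl⟩
  have hN0 : (0 : ℝ) < N := by exact_mod_cast (by omega : 0 < N)
  have hN1 : (1 : ℝ) ≤ N := by exact_mod_cast (by omega : 1 ≤ N)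
  have k1 := g1 q hq hqN
  have k2 := g2 q hq hqN
  rw [← hL] at g3 g4 g5 hm k1 k2 ⊢
  have hL0 : 0 < L := by linarith
  have hqpos : 0 < q := by
    rcases Nat.eq_zero_or_pos q with h0 | h0
    · rw [h0, Nat.cast_zero, zero_mul] at hq
      linarith
    · exact h0
  have hLL : 2 ≤ ε * L ^ 2 := by
    rw [div_le_iff₀ hε] at g5
    nlinarith
  obtain ⟨Ω, hΩ⟩ : ∃ Ω, Ω = Fintype.piFinset fun j => Ioc (b j) (b j + q) := ⟨_, rfl⟩
  rw [← hΩ]
  obtain ⟨B1, hB1⟩ : ∃ B1, B1 = Ω.filter fun s => (1 + ε) * L ^ 2 < (run N s : ℝ) := ⟨_, rfl⟩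
  obtain ⟨B2, hB2⟩ : ∃ B2, B2 = Ω.filter fun s => (run N s : ℝ) < (1 - ε) * L ^ 2 := ⟨_, rfl⟩
  have c1 : (B1.card : ℝ) ≤ ε / 2 * (q : ℝ) ^ m := by
    obtain ⟨k, hk⟩ : ∃ k, k = ⌈(1 + ε) * L ^ 2⌉₊ := ⟨_, rfl⟩
    have hkm : k ≤ m := by rw [hk]; exact Nat.ceil_le.2 hm
    obtain ⟨r, rfl⟩ := Nat.exists_eq_add_of_le hkm
    have d1 := k1 k (fun j => b (Fin.castAdd r j)) (fun j => hb _) (by rw [hk]; exact Nat.le_ceil _)
    have d2 := proj q k r b B1 ((Fintype.piFinset fun j : Fin k => Ioc (b (Fin.castAdd r j)) (b (Fin.castAdd r j) + q)).filter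
      fun s => (sv (Icc 1 N) s).Nonempty) (by
        intro s hs
        rw [hB1, mem_filter, hΩ, Fintype.mem_piFinset] at hs
        refine ⟨hs.1, ?_⟩
        rw [mem_filter, Fintype.mem_piFinset]
        refine ⟨fun j => hs.1 _, ?_⟩
        have e1 : k ≤ run N s := hk.le.trans (Nat.ceil_le.2 hs.2.le)
        have e2 : run N s ≠ 0 := by
          intro h0
          rw [h0, Nat.cast_zero] at hs
          have : 0 < (1 + ε) * L ^ 2 := by positivity
          linarith [hs.2]
        have e3 : Free N (run N s) s := Nat.findGreatest_of_ne_zero rfl e2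
        obtain ⟨n, h1, h2, h3⟩ := e3.mono e1
        refine ⟨n, ?_⟩
        unfold sv
        rw [mem_filter, mem_Icc]
        exact ⟨⟨h1, h2⟩, fun j => h3 _ (by simp)⟩)
    refine d2.trans ((mul_le_mul_of_nonneg_right d1 (by positivity)).trans ?_)
    rw [mul_assoc, ← pow_add]
    apply mul_le_mul_of_nonneg_right _ (by positivity)
    rw [Real.rpow_def_of_pos hN0, ← hL]
    rw [div_le_iff₀ (by positivity)] at g3
    have e1 : Real.exp (L * (-(ε / 2))) ≤ Real.exp (-Real.log (2 / ε)) := Real.exp_le_exp.2 (by linarith)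
    rwa [Real.exp_neg, Real.exp_log (by positivity), inv_div] at e1
  have c2 : (B2.card : ℝ) ≤ ε / 2 * (q : ℝ) ^ m := by
    rcases lt_or_ge ε 1 with hε1 | hε1
    · obtain ⟨k, hk⟩ : ∃ k, k = ⌊(1 - ε / 2) * L ^ 2⌋₊ := ⟨_, rfl⟩
      have hk1 : (k : ℝ) ≤ (1 - ε / 2) * L ^ 2 := by
        rw [hk]
        apply Nat.floor_le
        apply mul_nonneg (by linarith) (by positivity)
      have hk2 : (1 - ε) * L ^ 2 ≤ k := by
        have : (1 - ε / 2) * L ^ 2 < (k : ℝ) + 1 := by rw [hk]; exact Nat.lt_floor_add_one _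
        nlinarith
      have hkm : k ≤ m := by
        have : (k : ℝ) ≤ m := by nlinarith
        exact_mod_cast this
      obtain ⟨r, rfl⟩ := Nat.exists_eq_add_of_le hkm
      have d1 := k2 k (fun j => b (Fin.castAdd r j)) (fun j => hb _) hk1
      have d2 := proj q k r b B2 ((Fintype.piFinset fun j : Fin k => Ioc (b (Fin.castAdd r j)) (b (Fin.castAdd r j) + q)).filter
        fun s => ¬ ((N : ℝ) ^ (1 - k / L ^ 2 - ε / 2) ≤ (sv (Icc 1 N) s).card ∧
          ((sv (Icc 1 N) s).card : ℝ) ≤ (N : ℝ) ^ (1 - k / L ^ 2 + ε / 2))) (by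
          intro s hs
          rw [hB2, mem_filter, hΩ, Fintype.mem_piFinset] at hs
          refine ⟨hs.1, ?_⟩
          rw [mem_filter, Fintype.mem_piFinset]
          refine ⟨fun j => hs.1 _, ?_⟩
          rintro ⟨h1, _⟩
          have e1 : (0 : ℝ) ≤ 1 - k / L ^ 2 - ε / 2 := by
            have : (k : ℝ) / L ^ 2 ≤ 1 - ε / 2 := by rwa [div_le_iff₀ (by positivity)]
            linarith
          have e2 : (1 : ℝ) ≤ (sv (Icc 1 N) fun j : Fin k => s (Fin.castAdd r j)).card := (Real.one_le_rpow hN1 e1).trans h1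
          have e3 : 0 < (sv (Icc 1 N) fun j : Fin k => s (Fin.castAdd r j)).card := by exact_mod_cast e2
          obtain ⟨n, hn⟩ := card_pos.1 e3
          unfold sv at hn
          rw [mem_filter, mem_Icc] at hn
          have e4 : Free N k s := ⟨n, hn.1.1, hn.1.2, fun j hj => by
            have := hn.2 ⟨j, hj⟩
            simpa using this⟩
          have e5 : k ≤ run N s := Nat.le_findGreatest (Nat.le_add_right _ _) e4
          have e6 : (k : ℝ) ≤ run N s := by exact_mod_cast e5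
          linarith [hs.2])
      refine d2.trans ((mul_le_mul_of_nonneg_right d1 (by positivity)).trans (le_of_eq ?_))
      rw [mul_assoc, ← pow_add]
    · have : B2 = ∅ := by
        rw [hB2, filter_eq_empty_iff]
        intro s _ h
        have h1 : (0 : ℝ) ≤ run N s := Nat.cast_nonneg _
        have h2 : 0 < L ^ 2 := by positivity
        nlinarith
      rw [this, card_empty, Nat.cast_zero]
      positivity
  have c3 : (Ω.filter fun s => ε < |(run N s : ℝ) / L ^ 2 - 1|) ⊆ B1 ∪ B2 := by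
    intro s hs
    rw [mem_filter] at hs
    rw [mem_union, hB1, hB2, mem_filter, mem_filter]
    have hLp : 0 < L ^ 2 := by positivity
    rcases lt_abs.1 hs.2 with h | h
    · left
      refine ⟨hs.1, ?_⟩
      have : 1 + ε < (run N s : ℝ) / L ^ 2 := by linarith
      rwa [lt_div_iff₀ hLp] at this
    · right
      refine ⟨hs.1, ?_⟩
      have : (run N s : ℝ) / L ^ 2 < 1 - ε := by linarith
      rwa [div_lt_iff₀ hLp] at this
  have c4 : (((Ω.filter fun s => ε < |(run N s : ℝ) / L ^ 2 - 1|)).card : ℝ) ≤ B1.card + B2.card := by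
    exact_mod_cast (card_le_card c3).trans (card_union_le B1 B2)
  linarith

end Pool.Agent.Run7.h931.RS
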