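import Pool.Agent.Run7.h931.RS.Coord

/-!
# Random shifts, part 8: the second moment
-/

set_option autoImplicit false

namespace Pool.Agent.Run7.h931.RS

open Finset Filter

/-- the weighted number of the survivors -/
noncomputable def Zs {m : ℕ} (w q : ℕ) (b : Fin m → ℕ) (n : ℕ → ℕ) (R : ℕ) (s : Fin m → ℕ) : ℝ :=
  ∑ k ∈ range R, ∏ j, wt (cop (Wd w) (b j) q) (hit (b j) q (n k)) (s j)

theorem secmom {m : ℕ} (w q : ℕ) (b : Fin m → ℕ) (n : ℕ → ℕ) (hn : ∀ k h, n (k + h) = n k + Wd w * h) (R : ℕ) (hR : 0 < R)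
    (L δ K : ℝ) (hc : ∀ k < R, ∀ j, Cd w L δ K q (b j) (n k)) (g : ℕ → ℕ → ℝ)
    (hg : ∀ k h, 1 ≤ h → k + h < R → ∀ j, ∑ v ∈ Ioc (b j) (b j + q), wt (cop (Wd w) (b j) q) (hit (b j) q (n k)) v *
      wt (cop (Wd w) (b j) q) (hit (b j) q (n k + Wd w * h)) v ≤ Real.exp (g k h / L ^ 2) * (Ioc (b j) (b j + q)).card)
    (η τ : ℝ) (hτ : 0 < τ)
    (hsum : R * Real.exp (m * ((1 + 3 * δ) / L)) + 2 * ∑ k ∈ range R, ∑ h ∈ Icc 1 (R - 1 - k), Real.exp (m * (g k h / L ^ 2)) ≤
      (1 + η) * (R : ℝ) ^ 2) :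
    (((Fintype.piFinset fun j => Ioc (b j) (b j + q)).filter fun s => τ * R < |Zs w q b n R s - R|).card : ℝ) * τ ^ 2 ≤
      η * (q : ℝ) ^ m := by
  classical
  obtain ⟨e, he⟩ : ∃ e : ℕ → ℕ → ℝ, e = fun k k' => if k = k' then Real.exp (m * ((1 + 3 * δ) / L)) else
      Real.exp (m * (g (min k k') (max k k' - min k k') / L ^ 2)) := ⟨_, rfl⟩
  have h0 : ∀ k, e k k = Real.exp (m * ((1 + 3 * δ) / L)) := fun k => by rw [he]; simp
  have h1 : ∀ k h, 1 ≤ h → e k (k + h) = Real.exp (m * (g k h / L ^ 2)) := fun k h hh => by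
    rw [he]
    simp only
    rw [if_neg (by omega), min_eq_left (by omega), max_eq_right (by omega), Nat.add_sub_cancel_left]
  have h2 : ∀ k h, 1 ≤ h → e (k + h) k = Real.exp (m * (g k h / L ^ 2)) := fun k h hh => by
    rw [he]
    simp only
    rw [if_neg (by omega), min_eq_right (by omega), max_eq_left (by omega), Nat.add_sub_cancel_left]
  have hwn : ∀ k < R, ∀ j v, 0 ≤ wt (cop (Wd w) (b j) q) (hit (b j) q (n k)) v := fun k hk j v =>
    wt_nonneg _ _ (hit_sub w (b j) q (n k) (hc k hk j).hn (hc k hk j).hWn) v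
  have key := cheb (fun j => Ioc (b j) (b j + q)) (range R) (nonempty_range_iff.2 hR.ne')
    (fun k j v => wt (cop (Wd w) (b j) q) (hit (b j) q (n k)) v) (fun k hk j => by
      rw [mem_range] at hk
      have hcd := hc k hk j
      apply wt_sum
      · exact filter_subset _ _
      · exact hit_sub w (b j) q (n k) hcd.hn hcd.hWn
      · have h3 := hcd.theta
        have h4 : (0 : ℝ) < (cop (Wd w) (b j) q).card := by exact_mod_cast hcd.ucard.2.2.1
        have h5 := hcd.hδ1
        have h6 : ((hit (b j) q (n k)).card : ℝ) < (cop (Wd w) (b j) q).card := by nlinarith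
        exact_mod_cast h6) e (fun k hk k' hk' => by
      rw [mem_range] at hk hk'
      rcases lt_trichotomy k k' with hkk | hkk | hkk
      · obtain ⟨h, rfl⟩ : ∃ h, k' = k + h := ⟨k' - k, by omega⟩
        rw [h1 k h (by omega)]
        apply prod_exp
        · exact fun j => sum_nonneg fun v _ => mul_nonneg (hwn k hk j v) (hwn (k + h) hk' j v)
        · intro j
          rw [hn]
          exact hg k h (by omega) hk' j
      · subst hkk
        rw [h0]
        apply prod_exp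
        · exact fun j => sum_nonneg fun v _ => mul_nonneg (hwn k hk j v) (hwn k hk j v)
        · intro j
          exact (hc k hk j).diag
      · obtain ⟨h, rfl⟩ : ∃ h, k = k' + h := ⟨k - k', by omega⟩
        rw [h2 k' h (by omega)]
        apply prod_exp
        · exact fun j => sum_nonneg fun v _ => mul_nonneg (hwn (k' + h) hk j v) (hwn k' hk' j v)
        · intro j
          rw [hn, sum_congr rfl fun v _ => mul_comm _ _]
          exact hg k' h (by omega) hk j) η τ hτ (by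
      rw [card_range, pairs_sum R _ (fun k h => Real.exp (m * (g k h / L ^ 2))) e h0 h1 h2]
      exact hsum)
  rw [card_range] at key
  have hprod : ∏ j : Fin m, ((Ioc (b j) (b j + q)).card : ℝ) = (q : ℝ) ^ m := by
    rw [prod_congr rfl fun j _ => by rw [Nat.card_Ioc, Nat.add_sub_cancel_left], prod_const, card_univ, Fintype.card_fin]
  rw [hprod] at key
  exact key

/-- the sum over the bad differences -/
lemma bad_sum (W N : ℕ) (hW : 0 < W) (c : ℝ) (k0 : ℕ) (Km : ℝ)
    (hKm : ∑ h ∈ Icc 1 N, Real.exp (2 * c * Fw 0 h ^ k0) ≤ Km * N) (E : Finset ℕ) (H : ℕ) (hH : W * H ≤ N) (t : ℝ) (ht : 0 < t) :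
    ∑ h ∈ (Icc 1 H).filter (fun h => W * h ∈ E), Real.exp (c * Fw 0 (W * h) ^ k0) ≤ t * E.card / 2 + Km * N / (2 * t) := by
  classical
  have h1 : ∑ h ∈ (Icc 1 H).filter (fun h => W * h ∈ E), Real.exp (c * Fw 0 (W * h) ^ k0) ≤
      ∑ x ∈ E.filter (fun x => x ∈ Icc 1 N), Real.exp (c * Fw 0 x ^ k0) := by
    rw [← sum_image (f := fun x => Real.exp (c * Fw 0 x ^ k0)) (g := fun h => W * h) (s := (Icc 1 H).filter (fun h => W * h ∈ E))]
    · apply sum_le_sum_of_subset_of_nonneg
      · intro x hx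
        rw [mem_image] at hx
        obtain ⟨h, hh, rfl⟩ := hx
        rw [mem_filter, mem_Icc] at hh
        rw [mem_filter, mem_Icc]
        refine ⟨hh.2, ?_, ?_⟩
        · exact Nat.succ_le_of_lt (Nat.mul_pos hW (by omega))
        · exact (Nat.mul_le_mul_left W hh.1.2).trans hH
      · exact fun _ _ _ => (Real.exp_pos _).le
    · intro x _ y _ hxy
      exact Nat.eq_of_mul_eq_mul_left hW hxy
  have h2 : ∀ x : ℕ, Real.exp (c * Fw 0 x ^ k0) ≤ t / 2 + Real.exp (2 * c * Fw 0 x ^ k0) / (2 * t) := by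
    intro x
    have e1 : Real.exp (2 * c * Fw 0 x ^ k0) = Real.exp (c * Fw 0 x ^ k0) ^ 2 := by
      rw [← Real.exp_nat_mul]
      congr 1
      push_cast
      ring
    rw [e1]
    have e2 : t / 2 + Real.exp (c * Fw 0 x ^ k0) ^ 2 / (2 * t) - Real.exp (c * Fw 0 x ^ k0) =
        (Real.exp (c * Fw 0 x ^ k0) - t) ^ 2 / (2 * t) := by
      field_simp
      ring
    have e3 : 0 ≤ (Real.exp (c * Fw 0 x ^ k0) - t) ^ 2 / (2 * t) := by positivity
    linarith
  refine h1.trans ((sum_le_sum fun x _ => h2 x).trans ?_)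
  rw [sum_add_distrib, sum_const, nsmul_eq_mul, ← sum_div]
  have h3 : ((E.filter (fun x => x ∈ Icc 1 N)).card : ℝ) ≤ E.card := by exact_mod_cast card_filter_le _ _
  have h4 : ∑ x ∈ E.filter (fun x => x ∈ Icc 1 N), Real.exp (2 * c * Fw 0 x ^ k0) ≤ Km * N := by
    refine le_trans (sum_le_sum_of_subset_of_nonneg (fun x hx => (mem_filter.1 hx).2) fun _ _ _ => (Real.exp_pos _).le) hKm
  have h5 := mul_le_mul_of_nonneg_right h3 (by positivity : 0 ≤ t / 2)
  have h6 := div_le_div_of_nonneg_right h4 (by positivity : 0 ≤ 2 * t)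
  linarith

end Pool.Agent.Run7.h931.RS
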