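import Mathlib

/-!
# Random shifts, part 3: the weighted second moment
-/

set_option autoImplicit false

namespace Pool.Agent.Run7.h931.RS

open Finset

/-- first moment of sums of products -/
lemma mom_one {m : ℕ} (Ω : Fin m → Finset ℕ) (M : Finset ℕ) (w : ℕ → Fin m → ℕ → ℝ) :
    ∑ s ∈ Fintype.piFinset Ω, ∑ n ∈ M, ∏ j, w n j (s j) = ∑ n ∈ M, ∏ j, ∑ v ∈ Ω j, w n j v := by
  rw [sum_comm]
  apply sum_congr rfl
  intro n _
  rw [Finset.prod_univ_sum]

/-- second moment of sums of products -/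
lemma mom_two {m : ℕ} (Ω : Fin m → Finset ℕ) (M : Finset ℕ) (w : ℕ → Fin m → ℕ → ℝ) :
    ∑ s ∈ Fintype.piFinset Ω, (∑ n ∈ M, ∏ j, w n j (s j)) ^ 2 =
      ∑ n ∈ M, ∑ n' ∈ M, ∏ j, ∑ v ∈ Ω j, w n j v * w n' j v := by
  have h1 : ∀ s : Fin m → ℕ, (∑ n ∈ M, ∏ j, w n j (s j)) ^ 2 = ∑ n ∈ M, ∑ n' ∈ M, ∏ j, (w n j (s j) * w n' j (s j)) := by
    intro s
    rw [sq, sum_mul_sum]
    apply sum_congr rfl
    intro n _
    apply sum_congr rfl
    intro n' _
    rw [prod_mul_distrib]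
  rw [sum_congr rfl fun s _ => h1 s, sum_comm]
  apply sum_congr rfl
  intro n _
  rw [sum_comm]
  apply sum_congr rfl
  intro n' _
  rw [Finset.prod_univ_sum]

/-- Chebyshev's inequality for the weighted number of the survivors -/
theorem cheb {m : ℕ} (Ω : Fin m → Finset ℕ) (M : Finset ℕ) (hne : M.Nonempty) (w : ℕ → Fin m → ℕ → ℝ)
    (hone : ∀ n ∈ M, ∀ j, ∑ v ∈ Ω j, w n j v = (Ω j).card) (e : ℕ → ℕ → ℝ)
    (htwo : ∀ n ∈ M, ∀ n' ∈ M, ∏ j, ∑ v ∈ Ω j, w n j v * w n' j v ≤ e n n' * ∏ j, ((Ω j).card : ℝ)) (η τ : ℝ) (hτ : 0 < τ)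
    (he : ∑ n ∈ M, ∑ n' ∈ M, e n n' ≤ (1 + η) * (M.card : ℝ) ^ 2) :
    (((Fintype.piFinset Ω).filter fun s => τ * M.card < |∑ n ∈ M, ∏ j, w n j (s j) - M.card|).card : ℝ) * τ ^ 2 ≤
      η * ∏ j, ((Ω j).card : ℝ) := by
  classical
  obtain ⟨Q, hQ⟩ : ∃ Q : ℝ, Q = ∏ j, ((Ω j).card : ℝ) := ⟨_, rfl⟩
  have hQ0 : 0 ≤ Q := by rw [hQ]; exact prod_nonneg fun _ _ => Nat.cast_nonneg _
  rw [← hQ] at htwo ⊢
  have hM : (0 : ℝ) < M.card := by exact_mod_cast hne.card_pos
  have hcard : ((Fintype.piFinset Ω).card : ℝ) = Q := by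
    rw [hQ, Fintype.card_piFinset]
    push_cast
    rfl
  have h1 : ∑ s ∈ Fintype.piFinset Ω, (∑ n ∈ M, ∏ j, w n j (s j) - M.card) ^ 2 ≤ η * (M.card : ℝ) ^ 2 * Q := by
    have h2 : ∀ s : Fin m → ℕ, (∑ n ∈ M, ∏ j, w n j (s j) - (M.card : ℝ)) ^ 2 =
        (∑ n ∈ M, ∏ j, w n j (s j)) ^ 2 - 2 * M.card * (∑ n ∈ M, ∏ j, w n j (s j)) + (M.card : ℝ) ^ 2 := fun s => by ring
    rw [sum_congr rfl fun s _ => h2 s, sum_add_distrib, sum_sub_distrib, ← mul_sum, mom_one, mom_two, sum_const, nsmul_eq_mul,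
      hcard]
    have h3 : ∑ n ∈ M, ∏ j, ∑ v ∈ Ω j, w n j v = M.card * Q := by
      rw [sum_congr rfl fun n hn => prod_congr rfl fun j _ => hone n hn j, sum_const, nsmul_eq_mul, hQ]
    rw [h3]
    have h4 : ∑ n ∈ M, ∑ n' ∈ M, ∏ j, ∑ v ∈ Ω j, w n j v * w n' j v ≤ (1 + η) * (M.card : ℝ) ^ 2 * Q := by
      calc ∑ n ∈ M, ∑ n' ∈ M, ∏ j, ∑ v ∈ Ω j, w n j v * w n' j v ≤ ∑ n ∈ M, ∑ n' ∈ M, e n n' * Q :=
            sum_le_sum fun n hn => sum_le_sum fun n' hn' => htwo n hn n' hn'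
        _ = (∑ n ∈ M, ∑ n' ∈ M, e n n') * Q := by rw [sum_mul]; exact sum_congr rfl fun n _ => by rw [sum_mul]
        _ ≤ _ := mul_le_mul_of_nonneg_right he hQ0
    nlinarith
  have h5 : (((Fintype.piFinset Ω).filter fun s => τ * M.card < |∑ n ∈ M, ∏ j, w n j (s j) - M.card|).card : ℝ) *
      (τ * M.card) ^ 2 ≤ ∑ s ∈ Fintype.piFinset Ω, (∑ n ∈ M, ∏ j, w n j (s j) - M.card) ^ 2 := by
    rw [← nsmul_eq_mul, ← sum_const]
    refine le_trans (sum_le_sum (fun s hs => ?_)) (sum_le_sum_of_subset_of_nonneg (filter_subset _ _) fun s _ _ => sq_nonneg _)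
    rw [mem_filter] at hs
    rw [← sq_abs (∑ n ∈ M, ∏ j, w n j (s j) - (M.card : ℝ))]
    exact pow_le_pow_left₀ (by positivity) hs.2.le 2
  have h6 := h5.trans h1
  rw [mul_pow, ← mul_assoc] at h6
  have h7 : η * (M.card : ℝ) ^ 2 * Q = η * Q * (M.card : ℝ) ^ 2 := by ring
  rw [h7] at h6
  exact le_of_mul_le_mul_right h6 (by positivity)

/-- the weights: `0` on the hits `A`, `1 / (1 - |A| / |U|)` on the other relevant shifts, `1` elsewhere -/
noncomputable def wt (U A : Finset ℕ) (v : ℕ) : ℝ :=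
  open Classical in if v ∈ A then 0 else if v ∈ U then (U.card : ℝ) / (U.card - A.card) else 1

lemma wt_nonneg (U A : Finset ℕ) (hA : A ⊆ U) (v : ℕ) : 0 ≤ wt U A v := by
  classical
  unfold wt
  have : (A.card : ℝ) ≤ U.card := by exact_mod_cast card_le_card hA
  split_ifs
  · exact le_rfl
  · exact div_nonneg (Nat.cast_nonneg _) (by linarith)
  · exact zero_le_one

lemma wt_sum (Ω U A : Finset ℕ) (hU : U ⊆ Ω) (hA : A ⊆ U) (h : A.card < U.card) :
    ∑ v ∈ Ω, wt U A v = Ω.card := by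
  classical
  have h0 : (0 : ℝ) < U.card - A.card := by
    have : (A.card : ℝ) < U.card := by exact_mod_cast h
    linarith
  rw [← sum_sdiff hU]
  have h1 : ∑ v ∈ Ω \ U, wt U A v = Ω.card - U.card := by
    rw [sum_congr rfl (g := fun _ => (1 : ℝ))]
    · rw [sum_const, nsmul_eq_mul, mul_one, cast_card_sdiff hU]
    · intro v hv
      rw [mem_sdiff] at hv
      unfold wt
      rw [if_neg (fun h => hv.2 (hA h)), if_neg hv.2]
  have h2 : ∑ v ∈ U, wt U A v = U.card := by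
    rw [← sum_sdiff hA]
    have h3 : ∑ v ∈ A, wt U A v = 0 := sum_eq_zero fun v hv => by
      unfold wt
      rw [if_pos hv]
    have h4 : ∑ v ∈ U \ A, wt U A v = U.card := by
      rw [sum_congr rfl (g := fun _ => (U.card : ℝ) / (U.card - A.card))]
      · rw [sum_const, nsmul_eq_mul, cast_card_sdiff hA]
        field_simp
      · intro v hv
        rw [mem_sdiff] at hv
        unfold wt
        rw [if_neg hv.2, if_pos hv.1]
    rw [h3, h4, add_zero]
  rw [h1, h2]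
  ring

lemma wt_pair (Ω U A A' : Finset ℕ) (hU : U ⊆ Ω) (hA : A ⊆ U) (hA' : A' ⊆ U) (h : A.card < U.card) (h' : A'.card < U.card) :
    ∑ v ∈ Ω, wt U A v * wt U A' v = Ω.card + (U.card : ℝ) ^ 2 / ((U.card - A.card) * (U.card - A'.card)) *
      ((A ∩ A').card - A.card * A'.card / U.card) := by
  classical
  have h0 : (0 : ℝ) < U.card - A.card := by
    have : (A.card : ℝ) < U.card := by exact_mod_cast h
    linarith
  have h0' : (0 : ℝ) < U.card - A'.card := by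
    have : (A'.card : ℝ) < U.card := by exact_mod_cast h'
    linarith
  have hU0 : (0 : ℝ) < U.card := by
    have : (0 : ℝ) ≤ A.card := Nat.cast_nonneg _
    linarith
  rw [← sum_sdiff hU]
  have h1 : ∑ v ∈ Ω \ U, wt U A v * wt U A' v = Ω.card - U.card := by
    rw [sum_congr rfl (g := fun _ => (1 : ℝ))]
    · rw [sum_const, nsmul_eq_mul, mul_one, cast_card_sdiff hU]
    · intro v hv
      rw [mem_sdiff] at hv
      unfold wt
      rw [if_neg (fun h => hv.2 (hA h)), if_neg hv.2, if_neg (fun h => hv.2 (hA' h)), if_neg hv.2, mul_one]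
  have hAA : A ∪ A' ⊆ U := union_subset hA hA'
  have h2 : ∑ v ∈ U, wt U A v * wt U A' v = (U.card - (A ∪ A').card) *
      ((U.card : ℝ) / (U.card - A.card) * (U.card / (U.card - A'.card))) := by
    rw [← sum_sdiff hAA]
    have h3 : ∑ v ∈ A ∪ A', wt U A v * wt U A' v = 0 := sum_eq_zero fun v hv => by
      rw [mem_union] at hv
      unfold wt
      rcases hv with hv | hv
      · rw [if_pos hv, zero_mul]
      · rw [if_pos (c := v ∈ A') hv, mul_zero]
    have h4 : ∑ v ∈ U \ (A ∪ A'), wt U A v * wt U A' v = (U.card - (A ∪ A').card) *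
      ((U.card : ℝ) / (U.card - A.card) * (U.card / (U.card - A'.card))) := by
      rw [sum_congr rfl (g := fun _ => (U.card : ℝ) / (U.card - A.card) * (U.card / (U.card - A'.card)))]
      · rw [sum_const, nsmul_eq_mul, cast_card_sdiff hAA]
      · intro v hv
        rw [mem_sdiff, mem_union, not_or] at hv
        unfold wt
        rw [if_neg hv.2.1, if_pos hv.1, if_neg hv.2.2, if_pos hv.1]
    rw [h3, h4, add_zero]
  have h5 : ((A ∪ A').card : ℝ) = A.card + A'.card - (A ∩ A').card := by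
    have := card_union_add_card_inter A A'
    have h6 : ((A ∪ A').card : ℝ) + (A ∩ A').card = A.card + A'.card := by exact_mod_cast this
    linarith
  rw [h1, h2, h5]
  field_simp
  ring

/-- the bound for the second moment of one coordinate -/
lemma wt_pair_le (Ω U A A' : Finset ℕ) (hU : U ⊆ Ω) (hA : A ⊆ U) (hA' : A' ⊆ U) (θ Y : ℝ) (hθ : 0 ≤ θ) (hθ1 : θ < 1)
    (hU0 : 0 < U.card) (h : (A.card : ℝ) ≤ θ * U.card) (h' : (A'.card : ℝ) ≤ θ * U.card) (hY : 0 ≤ Y)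
    (hAA : ((A ∩ A').card : ℝ) - A.card * A'.card / U.card ≤ Y) :
    ∑ v ∈ Ω, wt U A v * wt U A' v ≤ Real.exp (Y / ((1 - θ) ^ 2 * Ω.card)) * Ω.card := by
  have hUr : (0 : ℝ) < U.card := by exact_mod_cast hU0
  have hΩ : (0 : ℝ) < Ω.card := lt_of_lt_of_le hUr (by exact_mod_cast card_le_card hU)
  have hθU : θ * U.card < U.card := by nlinarith
  have a1 : A.card < U.card := by
    have : (A.card : ℝ) < U.card := by linarith
    exact_mod_cast this
  have a2 : A'.card < U.card := by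
    have : (A'.card : ℝ) < U.card := by linarith
    exact_mod_cast this
  rw [wt_pair Ω U A A' hU hA hA' a1 a2]
  have a3 : (1 - θ) * U.card ≤ U.card - A.card := by linarith
  have a4 : (1 - θ) * U.card ≤ U.card - A'.card := by linarith
  have a5 : 0 < (1 - θ) * U.card := mul_pos (by linarith) hUr
  have a6 : (U.card : ℝ) ^ 2 / ((U.card - A.card) * (U.card - A'.card)) ≤ 1 / (1 - θ) ^ 2 := by
    rw [div_le_div_iff₀ (mul_pos (by linarith) (by linarith)) (by
      have : 0 < 1 - θ := by linarith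
      positivity), one_mul]
    have := mul_le_mul a3 a4 a5.le (by linarith)
    nlinarith
  have a7 : 0 ≤ (U.card : ℝ) ^ 2 / ((U.card - A.card) * (U.card - A'.card)) :=
    div_nonneg (by positivity) (mul_nonneg (by linarith) (by linarith))
  have a8 : (U.card : ℝ) ^ 2 / ((U.card - A.card) * (U.card - A'.card)) *
      ((A ∩ A').card - A.card * A'.card / U.card) ≤ 1 / (1 - θ) ^ 2 * Y :=
    (mul_le_mul_of_nonneg_left hAA a7).trans (mul_le_mul_of_nonneg_right a6 hY)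
  have a9 : Y / ((1 - θ) ^ 2 * Ω.card) + 1 ≤ Real.exp (Y / ((1 - θ) ^ 2 * Ω.card)) := Real.add_one_le_exp _
  have a10 : (Y / ((1 - θ) ^ 2 * Ω.card) + 1) * Ω.card = Ω.card + 1 / (1 - θ) ^ 2 * Y := by
    have : 0 < 1 - θ := by linarith
    field_simp
    ring
  calc (Ω.card : ℝ) + (U.card : ℝ) ^ 2 / ((U.card - A.card) * (U.card - A'.card)) *
      ((A ∩ A').card - A.card * A'.card / U.card) ≤ Ω.card + 1 / (1 - θ) ^ 2 * Y := by linarith
    _ = (Y / ((1 - θ) ^ 2 * Ω.card) + 1) * Ω.card := a10.symm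
    _ ≤ _ := mul_le_mul_of_nonneg_right a9 hΩ.le

end Pool.Agent.Run7.h931.RS
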