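import Pool.Agent.Run7.h931.RS.Nt2
import Pool.Agent.Run7.h931.RS.Sec

/-!
# Random shifts, part 6: hits, coprime shifts, sums over pairs
-/

set_option autoImplicit false

namespace Pool.Agent.Run7.h931.RS

open Finset Filter

/-- the shifts in the window `(b, b + q]` which turn `n` into a prime -/
def hit (b q n : ℕ) : Finset ℕ := (Ioc b (b + q)).filter fun v => (n + v).Prime

lemma hit_card (b q n : ℕ) : (hit b q n).card = Dc (n + b) q := by
  unfold hit Dc
  apply card_bij (fun v _ => n + v)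
  · intro v hv
    rw [mem_filter, mem_Ioc] at hv ⊢
    exact ⟨by omega, hv.2⟩
  · intro v _ v' _ h
    simpa using h
  · intro t ht
    rw [mem_filter, mem_Ioc] at ht
    refine ⟨t - n, ?_, by omega⟩
    rw [mem_filter, mem_Ioc]
    refine ⟨by omega, ?_⟩
    rw [show n + (t - n) = t by omega]
    exact ht.2

lemma hit_inter (b q n h : ℕ) : (hit b q n ∩ hit b q (n + h)).card = Cc (n + b) q h := by
  unfold hit Cc
  apply card_bij (fun v _ => n + v)
  · intro v hv
    rw [mem_inter, mem_filter, mem_filter, mem_Ioc] at hv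
    rw [mem_filter, mem_Ioc]
    refine ⟨by omega, hv.1.2, ?_⟩
    rw [show n + v + h = n + h + v by ring]
    exact hv.2.2
  · intro v _ v' _ h
    simpa using h
  · intro t ht
    rw [mem_filter, mem_Ioc] at ht
    refine ⟨t - n, ?_, by omega⟩
    rw [mem_inter, mem_filter, mem_filter, mem_Ioc]
    refine ⟨⟨by omega, ?_⟩, by omega, ?_⟩
    · rw [show n + (t - n) = t by omega]
      exact ht.2.1
    · rw [show n + h + (t - n) = t + h by omega]
      exact ht.2.2

/-- the product of the primes up to `w` -/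
def Wd (w : ℕ) : ℕ := ∏ p ∈ (Icc 1 w).filter Nat.Prime, p

lemma Wd_pos (w : ℕ) : 0 < Wd w := Finset.prod_pos fun _ hp => (mem_filter.1 hp).2.pos

lemma tot_prod (S : Finset ℕ) (hS : ∀ p ∈ S, p.Prime) :
    (Nat.totient (∏ p ∈ S, p) : ℝ) * ∏ p ∈ S, ((p : ℝ) / ((p : ℝ) - 1)) = ((∏ p ∈ S, p : ℕ) : ℝ) := by
  classical
  induction S using Finset.induction_on with
  | empty => simp
  | insert p S hp ih =>
    have h1 := hS p (mem_insert_self _ _)
    have h2 : ∀ r ∈ S, r.Prime := fun r hr => hS r (mem_insert_of_mem hr)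
    have h3 : Nat.Coprime p (∏ r ∈ S, r) := by
      apply Nat.Coprime.prod_right
      intro r hr
      rw [Nat.coprime_primes h1 (h2 r hr)]
      rintro rfl
      exact hp hr
    rw [prod_insert hp, prod_insert hp, Nat.totient_mul h3, Nat.totient_prime h1]
    have h4 := ih h2
    have h5 : (2 : ℝ) ≤ p := by exact_mod_cast h1.two_le
    have h6 : (p : ℝ) - 1 ≠ 0 := by linarith
    push_cast at h4 ⊢
    rw [Nat.cast_sub h1.one_lt.le, Nat.cast_one]
    calc ((p : ℝ) - 1) * (Nat.totient (∏ r ∈ S, r)) * (p / (p - 1) * ∏ r ∈ S, ((r : ℝ) / ((r : ℝ) - 1))) =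
        p * ((Nat.totient (∏ r ∈ S, r)) * ∏ r ∈ S, ((r : ℝ) / ((r : ℝ) - 1))) := by field_simp
      _ = _ := by rw [h4]

lemma Wd_tot (w : ℕ) : (Nat.totient (Wd w) : ℝ) * Pw w = Wd w := tot_prod _ fun _ hp => (mem_filter.1 hp).2

/-- the shifts in the window which are coprime to `W` -/
def cop (W b q : ℕ) : Finset ℕ := (Ioc b (b + q)).filter fun v => W.Coprime v

lemma cop_blk (W b t : ℕ) : (cop W b (t * W)).card = t * Nat.totient W := by
  classical
  induction t with
  | zero => simp [cop]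
  | succ t ih =>
    have h1 : cop W b ((t + 1) * W) = cop W b (t * W) ∪ cop W (b + t * W) W := by
      ext v
      unfold cop
      simp only [mem_filter, mem_Ioc, mem_union]
      rw [show b + (t + 1) * W = b + t * W + W by ring]
      constructor
      · rintro ⟨⟨h1, h2⟩, h3⟩
        by_cases h4 : v ≤ b + t * W
        · exact Or.inl ⟨⟨h1, h4⟩, h3⟩
        · exact Or.inr ⟨⟨by omega, h2⟩, h3⟩
      · rintro (⟨⟨h1, h2⟩, h3⟩ | ⟨⟨h1, h2⟩, h3⟩)
        · exact ⟨⟨h1, by omega⟩, h3⟩
        · exact ⟨⟨by omega, h2⟩, h3⟩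
    have h2 : Disjoint (cop W b (t * W)) (cop W (b + t * W) W) := by
      rw [disjoint_left]
      intro v hv hv'
      unfold cop at hv hv'
      rw [mem_filter, mem_Ioc] at hv hv'
      omega
    have h3 : (cop W (b + t * W) W).card = Nat.totient W := by
      rw [← Nat.filter_coprime_Ico_eq_totient W (b + t * W + 1)]
      congr 1
      ext v
      unfold cop
      simp only [mem_filter, mem_Ioc, mem_Ico]
      constructor
      · rintro ⟨h1, h3⟩
        exact ⟨by omega, h3⟩
      · rintro ⟨h1, h3⟩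
        exact ⟨by omega, h3⟩
    rw [h1, card_union_of_disjoint h2, ih, h3]
    ring

lemma cop_mono (W b q q' : ℕ) (h : q ≤ q') : cop W b q ⊆ cop W b q' := by
  unfold cop
  apply filter_subset_filter
  exact Ioc_subset_Ioc_right (by omega)

lemma cop_card (w b q : ℕ) : |((cop (Wd w) b q).card : ℝ) - q / Pw w| ≤ Wd w := by
  have hW := Wd_pos w
  obtain ⟨W, hWd⟩ : ∃ W, W = Wd w := ⟨_, rfl⟩
  have h1 := Wd_tot w
  have hP := one_le_Pw w
  rw [← hWd] at hW h1 ⊢
  have hWr : (0 : ℝ) < W := by exact_mod_cast hW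
  have h2 : (Nat.totient W : ℝ) = W / Pw w := by rw [← h1]; field_simp
  have h3 : (cop W b q).card ≤ (q / W + 1) * Nat.totient W := by
    rw [← cop_blk W b]
    exact card_le_card (cop_mono _ _ _ _ (by rw [mul_comm]; exact (Nat.lt_mul_div_succ q hW).le))
  have h4 : (q / W) * Nat.totient W ≤ (cop W b q).card := by
    rw [← cop_blk W b]
    exact card_le_card (cop_mono _ _ _ _ (Nat.div_mul_le_self q W))
  have h5 : ((q / W : ℕ) : ℝ) ≤ q / W := Nat.cast_div_le
  have h6 : (q : ℝ) / W - 1 ≤ ((q / W : ℕ) : ℝ) := by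
    have : (q : ℝ) < W * ((q / W : ℕ) + 1) := by exact_mod_cast Nat.lt_mul_div_succ q hW
    rw [sub_le_iff_le_add, div_le_iff₀ hWr]
    linarith
  have h7 : (Nat.totient W : ℝ) ≤ W := by exact_mod_cast Nat.totient_le W
  have h8 : (0 : ℝ) ≤ Nat.totient W := Nat.cast_nonneg _
  have h9 : (q : ℝ) / W * Nat.totient W = q / Pw w := by rw [h2]; field_simp
  have h3' : ((cop W b q).card : ℝ) ≤ ((q / W : ℕ) + 1) * Nat.totient W := by exact_mod_cast h3
  have h4' : ((q / W : ℕ) : ℝ) * Nat.totient W ≤ (cop W b q).card := by exact_mod_cast h4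
  have h10 : ((q / W : ℕ) : ℝ) * Nat.totient W ≤ q / W * Nat.totient W := mul_le_mul_of_nonneg_right h5 h8
  have h11 : ((q : ℝ) / W - 1) * Nat.totient W ≤ ((q / W : ℕ) : ℝ) * Nat.totient W := mul_le_mul_of_nonneg_right h6 h8
  rw [abs_le]
  constructor <;> nlinarith

/-- a multiple of `W` plus a shift is a prime only if the shift is coprime to `W` -/
lemma hit_sub (w b q k : ℕ) (hk : w < k) (hW : Wd w ∣ k) : hit b q k ⊆ cop (Wd w) b q := by
  intro v hv
  unfold hit at hv
  unfold cop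
  rw [mem_filter] at hv ⊢
  refine ⟨hv.1, ?_⟩
  rw [Nat.Coprime]
  by_contra hne
  obtain ⟨p, hp, hpd⟩ := Nat.exists_prime_and_dvd hne
  have h1 : p ∣ Wd w := hpd.trans (Nat.gcd_dvd_left _ _)
  have h2 : p ∣ v := hpd.trans (Nat.gcd_dvd_right _ _)
  have h3 : p ∣ k + v := dvd_add (h1.trans hW) h2
  have h4 : p = k + v := (Nat.prime_dvd_prime_iff_eq hp hv.2).1 h3
  unfold Wd at h1
  rw [hp.prime.dvd_finsetProd_iff] at h1
  obtain ⟨r, hr, hpr⟩ := h1
  rw [mem_filter, mem_Icc] at hr
  have h5 : p = r := (Nat.prime_dvd_prime_iff_eq hp hr.2).1 hpr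
  omega

lemma Fw_mulW (w h : ℕ) (hh : 1 ≤ h) : Fw 0 (Wd w * h) ≤ Pw w * Fw w h := by
  refine (Fw_split 0 w (Wd w * h) (Nat.zero_le _)).trans (le_of_eq ?_)
  congr 1
  unfold Fw
  congr 1
  ext p
  rw [mem_filter, mem_filter, Nat.primeFactors_mul (Wd_pos w).ne' (by omega), mem_union]
  constructor
  · rintro ⟨h1 | h1, h2⟩
    · exfalso
      have hp := Nat.prime_of_mem_primeFactors h1
      have h3 := Nat.dvd_of_mem_primeFactors h1
      unfold Wd at h3
      rw [hp.prime.dvd_finsetProd_iff] at h3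
      obtain ⟨r, hr, hpr⟩ := h3
      rw [mem_filter, mem_Icc] at hr
      have h5 : p = r := (Nat.prime_dvd_prime_iff_eq hp hr.2).1 hpr
      omega
    · exact ⟨h1, h2⟩
  · rintro ⟨h1, h2⟩
    exact ⟨Or.inr h1, h2⟩

/-- a sum over ordered pairs -/
lemma pairs_sum (R : ℕ) (D : ℝ) (g : ℕ → ℕ → ℝ) (e : ℕ → ℕ → ℝ) (h0 : ∀ k, e k k = D)
    (h1 : ∀ k h, 1 ≤ h → e k (k + h) = g k h) (h2 : ∀ k h, 1 ≤ h → e (k + h) k = g k h) :
    ∑ k ∈ range R, ∑ k' ∈ range R, e k k' = R * D + 2 * ∑ k ∈ range R, ∑ h ∈ Icc 1 (R - 1 - k), g k h := by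
  classical
  have a1 : ∀ k ∈ range R, ∑ k' ∈ (range R).filter (fun k' => k < k'), e k k' = ∑ h ∈ Icc 1 (R - 1 - k), g k h := by
    intro k hk
    rw [mem_range] at hk
    symm
    apply sum_bij (fun h _ => k + h)
    · intro h hh
      rw [mem_Icc] at hh
      rw [mem_filter, mem_range]
      omega
    · intro h _ h' _ he
      simpa using he
    · intro k' hk'
      rw [mem_filter, mem_range] at hk'
      exact ⟨k' - k, by rw [mem_Icc]; omega, by omega⟩
    · intro h hh
      rw [mem_Icc] at hh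
      exact (h1 k h hh.1).symm
  have a2 : ∀ k ∈ range R, ∑ k' ∈ (range R).filter (fun k' => k < k'), e k' k = ∑ h ∈ Icc 1 (R - 1 - k), g k h := by
    intro k hk
    rw [mem_range] at hk
    symm
    apply sum_bij (fun h _ => k + h)
    · intro h hh
      rw [mem_Icc] at hh
      rw [mem_filter, mem_range]
      omega
    · intro h _ h' _ he
      simpa using he
    · intro k' hk'
      rw [mem_filter, mem_range] at hk'
      exact ⟨k' - k, by rw [mem_Icc]; omega, by omega⟩
    · intro h hh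
      rw [mem_Icc] at hh
      exact (h2 k h hh.1).symm
  have a3 : ∀ k ∈ range R, ∑ k' ∈ range R, e k k' = D + ∑ k' ∈ (range R).filter (fun k' => k < k'), e k k' +
      ∑ k' ∈ (range R).filter (fun k' => k' < k), e k k' := by
    intro k hk
    have b1 : range R = {k} ∪ ((range R).filter (fun k' => k < k') ∪ (range R).filter (fun k' => k' < k)) := by
      ext x
      simp only [mem_range, mem_union, mem_singleton, mem_filter] at hk ⊢
      omega
    conv_lhs => rw [b1]
    rw [sum_union, sum_union, sum_singleton, h0]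
    · ring
    · rw [disjoint_left]
      intro x hx hx'
      rw [mem_filter] at hx hx'
      omega
    · rw [disjoint_left]
      intro x hx hx'
      simp only [mem_singleton, mem_union, mem_filter] at hx hx'
      omega
  have a4 : ∑ k ∈ range R, ∑ k' ∈ (range R).filter (fun k' => k' < k), e k k' =
      ∑ k ∈ range R, ∑ k' ∈ (range R).filter (fun k' => k < k'), e k' k := by
    simp only [sum_filter]
    exact sum_comm
  rw [sum_congr rfl a3, sum_add_distrib, sum_add_distrib, a4, sum_congr rfl a1, sum_congr rfl a2, sum_const, card_range, nsmul_eq_mul]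
  ring

/-- products of the second moments -/
lemma prod_exp {m : ℕ} (Ω : Fin m → Finset ℕ) (f : Fin m → ℝ) (β : ℝ) (hf : ∀ j, 0 ≤ f j)
    (h : ∀ j, f j ≤ Real.exp β * (Ω j).card) : ∏ j, f j ≤ Real.exp (m * β) * ∏ j, ((Ω j).card : ℝ) := by
  calc ∏ j, f j ≤ ∏ j, (Real.exp β * (Ω j).card) := Finset.prod_le_prod (fun j _ => hf j) fun j _ => h j
    _ = _ := by rw [prod_mul_distrib, prod_const, card_univ, Fintype.card_fin, ← Real.exp_nat_mul]

/-- the first part of the triangle -/
lemma tri (R : ℕ) : ∑ k ∈ range R, (((R - 1 - k : ℕ) : ℝ)) ≤ (R : ℝ) ^ 2 / 2 := by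
  rw [sum_range_reflect (fun k => (k : ℝ)) R]
  have := Finset.sum_range_id_mul_two R
  have h1 : (∑ k ∈ range R, (k : ℝ)) * 2 = R * (R - 1 : ℕ) := by
    rw [← Nat.cast_sum, ← Nat.cast_mul, ← this]
    push_cast
    ring
  have h2 : ((R - 1 : ℕ) : ℝ) ≤ R := by exact_mod_cast Nat.sub_le R 1
  have h3 : (0 : ℝ) ≤ R := Nat.cast_nonneg R
  nlinarith

end Pool.Agent.Run7.h931.RS
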