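import Pool.Agent.Run7.h931.RS.Mom

/-!
# Random shifts, part 10: large deviations, the size of the weights, first moments
-/

set_option autoImplicit false

namespace Pool.Agent.Run7.h931.RS

open Finset Filter

/-- large deviations for the number of the shifts in `U` -/
lemma lln {m : ℕ} (Ω U : Fin m → Finset ℕ) (hU : ∀ j, U j ⊆ Ω j) (ρ δ : ℝ) (hδ : 0 < δ) (hδ1 : δ ≤ 1)
    (hρ : ∀ j, ((U j).card : ℝ) ≤ ρ * (Ω j).card) :
    (((Fintype.piFinset Ω).filter fun s => (1 + δ) * ρ * m < ((univ.filter fun j => s j ∈ U j).card : ℝ)).card : ℝ) ≤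
      Real.exp (-(δ ^ 2 / 4 * ρ * m)) * ∏ j, ((Ω j).card : ℝ) := by
  classical
  obtain ⟨c, hc⟩ : ∃ c, c = δ / 2 := ⟨_, rfl⟩
  have hc0 : 0 < c := by rw [hc]; positivity
  have hc1 : c ≤ 1 := by rw [hc]; linarith
  have hec : Real.exp c - 1 ≤ c + c ^ 2 := by
    have := Real.abs_exp_sub_one_sub_id_le (x := c) (by rw [abs_of_pos hc0]; exact hc1)
    have := (abs_le.1 this).2
    linarith
  have hec0 : 0 ≤ Real.exp c - 1 := by linarith [Real.add_one_le_exp c]
  have h1 : ∑ s ∈ Fintype.piFinset Ω, ∏ j, (if s j ∈ U j then Real.exp c else 1) ≤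
      Real.exp ((c + c ^ 2) * ρ * m) * ∏ j, ((Ω j).card : ℝ) := by
    rw [← Finset.prod_univ_sum Ω (fun j v => if v ∈ U j then Real.exp c else 1)]
    calc ∏ j, ∑ v ∈ Ω j, (if v ∈ U j then Real.exp c else 1) ≤ ∏ j : Fin m, (Real.exp ((c + c ^ 2) * ρ) * ((Ω j).card : ℝ)) := by
          apply Finset.prod_le_prod
          · intro j _
            apply sum_nonneg
            intro v _
            split_ifs
            · exact (Real.exp_pos _).le
            · exact zero_le_one
          · intro j _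
            have e1 : ∑ v ∈ Ω j, (if v ∈ U j then Real.exp c else 1) = (Ω j).card + (Real.exp c - 1) * (U j).card := by
              rw [sum_congr rfl (g := fun v => 1 + (Real.exp c - 1) * (if v ∈ U j then 1 else 0)) (fun v _ => by split_ifs <;> ring),
                sum_add_distrib, sum_const, nsmul_eq_mul, mul_one, ← mul_sum, ← sum_filter, sum_const, nsmul_eq_mul, mul_one,
                filter_mem_eq_inter, inter_eq_right.2 (hU j)]
            rw [e1]
            have e2 : (Real.exp c - 1) * (U j).card ≤ (c + c ^ 2) * (ρ * (Ω j).card) :=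
              mul_le_mul hec (hρ j) (Nat.cast_nonneg _) (by positivity)
            have e3 := Real.add_one_le_exp ((c + c ^ 2) * ρ)
            have e4 : (0 : ℝ) ≤ (Ω j).card := Nat.cast_nonneg _
            nlinarith
      _ = _ := by
          rw [prod_mul_distrib, prod_const, card_univ, Fintype.card_fin, ← Real.exp_nat_mul]
          congr 2
          ring
  have h2 : ∀ s : Fin m → ℕ, ∏ j, (if s j ∈ U j then Real.exp c else 1) = Real.exp (c * (univ.filter fun j => s j ∈ U j).card) := by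
    intro s
    rw [prod_ite, prod_const, prod_const_one, mul_one, ← Real.exp_nat_mul]
    congr 1
    ring
  have h3 : (((Fintype.piFinset Ω).filter fun s => (1 + δ) * ρ * m < ((univ.filter fun j => s j ∈ U j).card : ℝ)).card : ℝ) *
      Real.exp (c * ((1 + δ) * ρ * m)) ≤ ∑ s ∈ Fintype.piFinset Ω, ∏ j, (if s j ∈ U j then Real.exp c else 1) := by
    rw [← nsmul_eq_mul, ← sum_const]
    refine le_trans (sum_le_sum (fun s hs => ?_)) (sum_le_sum_of_subset_of_nonneg (filter_subset _ _) fun s _ _ => ?_)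
    · rw [h2]
      apply Real.exp_le_exp.2
      exact mul_le_mul_of_nonneg_left (mem_filter.1 hs).2.le hc0.le
    · rw [h2]
      exact (Real.exp_pos _).le
  have h4 := h3.trans h1
  have h5 : Real.exp ((c + c ^ 2) * ρ * m) = Real.exp (-(δ ^ 2 / 4 * ρ * m)) * Real.exp (c * ((1 + δ) * ρ * m)) := by
    rw [← Real.exp_add]
    congr 1
    rw [hc]
    ring
  have h6 : Real.exp ((c + c ^ 2) * ρ * m) * ∏ j, ((Ω j).card : ℝ) =
      (Real.exp (-(δ ^ 2 / 4 * ρ * m)) * ∏ j, ((Ω j).card : ℝ)) * Real.exp (c * ((1 + δ) * ρ * m)) := by rw [h5]; ring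
  rw [h6] at h4
  exact le_of_mul_le_mul_right h4 (Real.exp_pos _)

/-- the elements `n` of `M` for which all `n + s j` are composite -/
def sv {m : ℕ} (M : Finset ℕ) (s : Fin m → ℕ) : Finset ℕ := M.filter fun n => ∀ j, ¬ (n + s j).Prime

/-- the size of one weight -/
lemma Cd.wt_le {w : ℕ} {L δ K : ℝ} {q b n : ℕ} (h : Cd w L δ K q b n) (v : ℕ) :
    wt (cop (Wd w) b q) (hit b q n) v ≤ if v ∈ cop (Wd w) b q then Real.exp ((1 + 3 * δ) * (Pw w / L)) else 1 := by
  classical
  have hδ := h.hδ
  have hδ1 := h.hδ1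
  have hL := h.hL
  have hP := one_le_Pw w
  have hq : (0 : ℝ) < q := by exact_mod_cast h.hq
  unfold wt
  by_cases h1 : v ∈ hit b q n
  · rw [if_pos h1]
    split_ifs
    · exact (Real.exp_pos _).le
    · exact zero_le_one
  · rw [if_neg h1]
    by_cases h2 : v ∈ cop (Wd w) b q
    · rw [if_pos h2, if_pos h2]
      obtain ⟨U, hU⟩ : ∃ U : ℝ, U = (cop (Wd w) b q).card := ⟨_, rfl⟩
      obtain ⟨A, hA⟩ : ∃ A : ℝ, A = (hit b q n).card := ⟨_, rfl⟩
      have h3 := h.theta
      have h4 := h.ub
      have h5 := h.ucard.1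
      rw [← hU, ← hA] at *
      have hU0 : 0 < U := lt_of_lt_of_le (mul_pos (by linarith) (by positivity)) h5
      have h6 : (1 - δ / 4) * ((1 - δ / 4) * (q / Pw w)) ≤ U - A := by
        have : (1 - δ / 4) * ((1 - δ / 4) * (q / Pw w)) ≤ (1 - δ / 4) * U := mul_le_mul_of_nonneg_left h5 (by linarith)
        linarith
      have h7 : 0 < (1 - δ / 4) * ((1 - δ / 4) * (q / Pw w)) := mul_pos (by linarith) (mul_pos (by linarith) (by positivity))
      have h8 : 0 < U - A := by linarith
      have h9 : U / (U - A) = A / (U - A) + 1 := by field_simp; ring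
      rw [h9]
      refine (Real.add_one_le_exp _).trans (Real.exp_le_exp.2 ?_)
      calc A / (U - A) ≤ ((1 + δ / 4) * (q / L)) / ((1 - δ / 4) * ((1 - δ / 4) * (q / Pw w))) := by
            apply div_le_div₀ (by positivity) h4 h7 h6
        _ = ((1 + δ / 4) / (1 - δ / 4) ^ 2) * (Pw w / L) := by
            have : 1 - δ / 4 ≠ 0 := by linarith
            field_simp
        _ ≤ (1 + 3 * δ) * (Pw w / L) := by
            apply mul_le_mul_of_nonneg_right _ (by positivity)
            have : 0 < (1 - δ / 4) ^ 2 := by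
              have : 0 < 1 - δ / 4 := by linarith
              positivity
            rw [div_le_iff₀ this]
            nlinarith [mul_nonneg hδ.le (sub_nonneg.2 hδ1), mul_nonneg (mul_nonneg hδ.le hδ.le) hδ.le]
    · rw [if_neg h2, if_neg h2]

/-- the weighted number is at most the number of the survivors times the size of the weights -/
lemma Zs_le {m : ℕ} (w q : ℕ) (b : Fin m → ℕ) (n : ℕ → ℕ) (R : ℕ) (L δ K : ℝ)
    (hc : ∀ k < R, ∀ j, Cd w L δ K q (b j) (n k)) (hinj : ∀ k k', n k = n k' → k = k') (N : ℕ)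
    (hnk : ∀ k < R, 1 ≤ n k ∧ n k ≤ N) (s : Fin m → ℕ) (hs : s ∈ Fintype.piFinset fun j => Ioc (b j) (b j + q)) :
    Zs w q b n R s ≤ ((sv (Icc 1 N) s).card : ℝ) *
      Real.exp ((1 + 3 * δ) * (Pw w / L) * (univ.filter fun j => s j ∈ cop (Wd w) (b j) q).card) := by
  classical
  rw [Fintype.mem_piFinset] at hs
  obtain ⟨β, hβ⟩ : ∃ β, β = (1 + 3 * δ) * (Pw w / L) := ⟨_, rfl⟩
  obtain ⟨c, hcc⟩ : ∃ c : ℕ, c = (univ.filter fun j => s j ∈ cop (Wd w) (b j) q).card := ⟨_, rfl⟩
  rw [← hβ, ← hcc]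
  have h1 : ∀ k ∈ range R, ∏ j, wt (cop (Wd w) (b j) q) (hit (b j) q (n k)) (s j) ≤
      if n k ∈ sv (Icc 1 N) s then Real.exp (β * c) else 0 := by
    intro k hk
    rw [mem_range] at hk
    by_cases hsv : n k ∈ sv (Icc 1 N) s
    · rw [if_pos hsv]
      calc ∏ j, wt (cop (Wd w) (b j) q) (hit (b j) q (n k)) (s j) ≤
          ∏ j : Fin m, (if s j ∈ cop (Wd w) (b j) q then Real.exp β else 1) := by
            apply Finset.prod_le_prod
            · exact fun j _ => wt_nonneg _ _ (hit_sub w (b j) q (n k) (hc k hk j).hn (hc k hk j).hWn) _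
            · intro j _
              rw [hβ]
              exact (hc k hk j).wt_le (s j)
        _ = _ := by
            rw [prod_ite, prod_const, prod_const_one, mul_one, ← Real.exp_nat_mul, hcc]
            congr 1
            ring
    · rw [if_neg hsv]
      unfold sv at hsv
      rw [mem_filter, not_and_or] at hsv
      rcases hsv with hsv | hsv
      · exact absurd (mem_Icc.2 (hnk k hk)) hsv
      · push Not at hsv
        obtain ⟨j, hj⟩ := hsv
        apply le_of_eq
        apply prod_eq_zero (mem_univ j)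
        unfold wt
        rw [if_pos]
        unfold hit
        rw [mem_filter]
        exact ⟨hs j, hj⟩
  refine (sum_le_sum h1).trans ?_
  rw [← sum_filter, sum_const, nsmul_eq_mul]
  apply mul_le_mul_of_nonneg_right _ (Real.exp_pos _).le
  have h2 : ((range R).filter fun k => n k ∈ sv (Icc 1 N) s).card ≤ (sv (Icc 1 N) s).card := by
    apply card_le_card_of_injOn n
    · intro k hk
      have hk' : k ∈ (range R).filter fun k => n k ∈ sv (Icc 1 N) s := by exact_mod_cast hk
      exact_mod_cast (mem_filter.1 hk').2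
    · intro k _ k' _ hkk
      exact hinj k k' hkk
  exact_mod_cast h2

/-- the number of the shift vectors for which `n` survives -/
lemma first {m : ℕ} (Ω : Fin m → Finset ℕ) (M : Finset ℕ) : ∑ s ∈ Fintype.piFinset Ω, ((sv M s).card : ℝ) =
    ∑ n ∈ M, ∏ j, (((Ω j).card : ℝ) - ((Ω j).filter fun v => (n + v).Prime).card) := by
  classical
  have h1 : ∀ s : Fin m → ℕ, ((sv M s).card : ℝ) = ∑ n ∈ M, ∏ j, (if (n + s j).Prime then (0 : ℝ) else 1) := by
    intro s
    unfold sv
    rw [card_filter]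
    push_cast
    apply sum_congr rfl
    intro n _
    by_cases h : ∀ j, ¬ (n + s j).Prime
    · rw [if_pos h]
      symm
      apply prod_eq_one
      intro j _
      rw [if_neg (h j)]
    · rw [if_neg h]
      push Not at h
      obtain ⟨j, hj⟩ := h
      symm
      apply prod_eq_zero (mem_univ j)
      rw [if_pos hj]
  rw [sum_congr rfl fun s _ => h1 s, sum_comm]
  apply sum_congr rfl
  intro n _
  rw [← Finset.prod_univ_sum Ω (fun j v => if (n + v).Prime then (0 : ℝ) else 1)]
  apply prod_congr rfl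
  intro j _
  have h2 : ∑ v ∈ Ω j, (if (n + v).Prime then (0 : ℝ) else 1) = ∑ v ∈ Ω j, (1 - if (n + v).Prime then (1 : ℝ) else 0) :=
    sum_congr rfl fun v _ => by split_ifs <;> ring
  rw [h2, sum_sub_distrib, sum_const, nsmul_eq_mul, mul_one, card_filter]
  push_cast
  rfl

/-- the first moment -/
theorem markov (T a : ℕ) : ∃ K : ℝ, 0 ≤ K ∧ ∀ᶠ N : ℕ in atTop, ∀ q : ℕ, (N : ℝ) ≤ q * Real.log N ^ a → q ≤ N →
    ∀ (m : ℕ) (b : Fin m → ℕ), (∀ j, b j ≤ T * N) → ∀ M : Finset ℕ, (∀ n ∈ M, n ≤ N) →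
      ∑ s ∈ Fintype.piFinset (fun j => Ioc (b j) (b j + q)), ((sv M s).card : ℝ) ≤
        M.card * ((q : ℝ) ^ m * Real.exp (K * (m / Real.log N ^ 2) - m / Real.log N)) := by
  classical
  obtain ⟨K, hK, h1⟩ := pnt_lo T a
  refine ⟨K, hK, ?_⟩
  filter_upwards [h1, eventually_ge_atTop 3] with N g1 g2 q hq hqN m b hb M hM
  rw [first, ← nsmul_eq_mul, ← sum_const]
  apply sum_le_sum
  intro n hn
  obtain ⟨L, hL⟩ : ∃ L, L = Real.log (N : ℝ) := ⟨_, rfl⟩
  have hN3 : (3 : ℝ) ≤ N := by exact_mod_cast g2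
  have hL0 : 0 < L := by rw [hL]; exact Real.log_pos (by linarith)
  have e1 : ∀ j : Fin m, (((Ioc (b j) (b j + q)).card : ℝ) - ((Ioc (b j) (b j + q)).filter fun v => (n + v).Prime).card) ≤
      q * Real.exp (K / L ^ 2 - 1 / L) := by
    intro j
    have f1 : ((Ioc (b j) (b j + q)).filter fun v => (n + v).Prime) = hit (b j) q n := rfl
    rw [f1, hit_card, Nat.card_Ioc, Nat.add_sub_cancel_left]
    have f2 := g1 (n + b j) q (by nlinarith [hb j, hM n hn]) hq hqN
    rw [← hL] at f2
    have f3 := Real.add_one_le_exp (K / L ^ 2 - 1 / L)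
    have f4 : (0 : ℝ) ≤ q := Nat.cast_nonneg q
    have f5 := mul_le_mul_of_nonneg_left f3 f4
    have f6 : (q : ℝ) * (K / L ^ 2 - 1 / L + 1) = q - (q / L - K * (q / L ^ 2)) := by ring
    linarith
  calc ∏ j, (((Ioc (b j) (b j + q)).card : ℝ) - ((Ioc (b j) (b j + q)).filter fun v => (n + v).Prime).card) ≤
      ∏ _j : Fin m, (q * Real.exp (K / L ^ 2 - 1 / L)) := by
        apply Finset.prod_le_prod
        · intro j _
          have : (((Ioc (b j) (b j + q)).filter fun v => (n + v).Prime).card : ℝ) ≤ (Ioc (b j) (b j + q)).card := by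
            exact_mod_cast card_filter_le _ _
          linarith
        · exact fun j _ => e1 j
    _ = _ := by
        rw [prod_const, card_univ, Fintype.card_fin, mul_pow, ← Real.exp_nat_mul, ← hL]
        congr 2
        ring

end Pool.Agent.Run7.h931.RS
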