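import Pool.Agent.Run7.h931.RS.Two
import Pool.Agent.Run7.h931.RS.Lln

/-!
# Random shifts, part 11: above and below the threshold
-/

set_option autoImplicit false

namespace Pool.Agent.Run7.h931.RS

open Finset Filter

lemma ev_log (c : ℝ) : ∀ᶠ N : ℕ in atTop, c ≤ Real.log (N : ℝ) :=
  (Real.tendsto_log_atTop.comp tendsto_natCast_atTop_atTop).eventually_ge_atTop _

/-- more than `(1 + ε) log² N` shifts -/
theorem part_one (T a : ℕ) (ε : ℝ) (hε : 0 < ε) : ∀ᶠ N : ℕ in atTop, ∀ q : ℕ, (N : ℝ) ≤ q * Real.log N ^ a → q ≤ N →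
    ∀ (m : ℕ) (b : Fin m → ℕ), (∀ j, b j ≤ T * N) → (1 + ε) * Real.log N ^ 2 ≤ m →
      (((Fintype.piFinset fun j => Ioc (b j) (b j + q)).filter fun s => (sv (Icc 1 N) s).Nonempty).card : ℝ) ≤
        (N : ℝ) ^ (-(ε / 2)) * (q : ℝ) ^ m := by
  classical
  obtain ⟨K, hK, h1⟩ := markov T a
  filter_upwards [h1, ev_log (2 * (1 + ε) * K / ε + 1), eventually_ge_atTop 3] with N g1 g2 g3 q hq hqN m b hb hm
  obtain ⟨L, hL⟩ : ∃ L, L = Real.log (N : ℝ) := ⟨_, rfl⟩
  have hN0 : (0 : ℝ) < N := by exact_mod_cast (by omega : 0 < N)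
  have k1 := g1 q hq hqN m b hb (Icc 1 N) (fun n hn => (mem_Icc.1 hn).2)
  rw [← hL] at g2 hm k1
  have hKL : 2 * (1 + ε) * K ≤ ε * L := by
    have : 2 * (1 + ε) * K / ε ≤ L := by linarith
    rw [div_le_iff₀ hε] at this
    linarith
  have hL1 : 1 ≤ L := by
    have : 0 ≤ 2 * (1 + ε) * K / ε := by positivity
    linarith
  have hL0 : 0 < L := by linarith
  have k2 : (((Fintype.piFinset fun j => Ioc (b j) (b j + q)).filter fun s => (sv (Icc 1 N) s).Nonempty).card : ℝ) ≤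
      ∑ s ∈ Fintype.piFinset (fun j => Ioc (b j) (b j + q)), ((sv (Icc 1 N) s).card : ℝ) := by
    rw [card_filter]
    push_cast
    apply sum_le_sum
    intro s _
    split_ifs with h
    · exact_mod_cast h.card_pos
    · exact Nat.cast_nonneg _
  refine k2.trans (k1.trans ?_)
  rw [Nat.card_Icc, Nat.add_sub_cancel, Real.rpow_def_of_pos hN0, ← hL]
  have k3 : (N : ℝ) = Real.exp L := by rw [hL, Real.exp_log hN0]
  have k4 : (N : ℝ) * ((q : ℝ) ^ m * Real.exp (K * (m / L ^ 2) - m / L)) = Real.exp (L + (K * (m / L ^ 2) - m / L)) * (q : ℝ) ^ m := by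
    rw [Real.exp_add, ← k3]
    ring
  rw [k4]
  apply mul_le_mul_of_nonneg_right _ (by positivity)
  apply Real.exp_le_exp.2
  have k5 : K * (m / L ^ 2) - m / L = -((m / L ^ 2) * (L - K)) := by field_simp; ring
  rw [k5]
  have k6 : 1 + ε ≤ m / L ^ 2 := by rwa [le_div_iff₀ (by positivity)]
  have hKL' : K ≤ L := by nlinarith
  have k7 : (1 + ε) * (L - K) ≤ (m / L ^ 2) * (L - K) := mul_le_mul_of_nonneg_right k6 (by linarith)
  nlinarith

/-- fewer than `(1 - ε) log² N` shifts -/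
theorem part_two (T a : ℕ) (ε : ℝ) (hε : 0 < ε) : ∀ᶠ N : ℕ in atTop, ∀ q : ℕ, (N : ℝ) ≤ q * Real.log N ^ a → q ≤ N →
    ∀ (m : ℕ) (b : Fin m → ℕ), (∀ j, b j ≤ T * N) → (m : ℝ) ≤ (1 - ε) * Real.log N ^ 2 →
      (((Fintype.piFinset fun j => Ioc (b j) (b j + q)).filter fun s =>
        ¬ ((N : ℝ) ^ (1 - m / Real.log N ^ 2 - ε) ≤ (sv (Icc 1 N) s).card ∧
          ((sv (Icc 1 N) s).card : ℝ) ≤ (N : ℝ) ^ (1 - m / Real.log N ^ 2 + ε))).card : ℝ) ≤ ε * (q : ℝ) ^ m := by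
  classical
  rcases lt_or_ge 1 ε with hε1 | hε1
  · filter_upwards [ev_log 1] with N g1 q hq hqN m b hb hm
    exfalso
    have h1 : (0 : ℝ) ≤ m := Nat.cast_nonneg m
    have h2 : 0 < Real.log (N : ℝ) ^ 2 := by positivity
    nlinarith
  obtain ⟨η, hη⟩ : ∃ η, η = ε / 200 := ⟨_, rfl⟩
  have hη0 : 0 < η := by rw [hη]; positivity
  have hη1 : η ≤ 1 / 200 := by rw [hη]; linarith
  obtain ⟨w, hw3, hw⟩ := sharp η hη0
  have hsh := hw w le_rfl
  have hP := one_le_Pw w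
  obtain ⟨δ, hδ⟩ : ∃ δ, δ = η / (8 * Pw w) := ⟨_, rfl⟩
  have hδ0 : 0 < δ := by rw [hδ]; positivity
  have hδη : δ ≤ η / 8 := by
    rw [hδ]
    apply div_le_div_of_nonneg_left hη0.le (by norm_num) (by linarith)
  have hδP : 4 * δ * Pw w = η / 2 := by rw [hδ]; field_simp; norm_num
  obtain ⟨K, hK, h1⟩ := two_Z T a w ε δ η hε1 hδ0 (by linarith) (by linarith) hη0 (by linarith) hsh (by
    rw [hδP]
    have := Real.abs_exp_sub_one_sub_id_le (x := η / 2) (by rw [abs_of_pos (by positivity)]; linarith)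
    have := (abs_le.1 this).2
    nlinarith)
  obtain ⟨K', hK', h2⟩ := markov T a
  have hWpos := Wd_pos w
  have hWr : (0 : ℝ) < Wd w := by exact_mod_cast hWpos
  filter_upwards [h1, h2, eventually_ge_atTop 3, ev_log ((Real.log (16 * Wd w) + 2 * Pw w) / (ε / 2)),
    ev_log (Real.log (4 / ε) / (δ ^ 2 / (4 * Pw w))), ev_log ((K' + Real.log (4 / ε)) / ε), ev_log 1] with
    N g1 g2 g3 g4 g5 g6 g7 q hq hqN m b hb hm
  obtain ⟨n, R, a1, a2, a3, a4, a5⟩ := g1 q hq hqN m b hb hm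
  have b1 := g2 q hq hqN m b hb (Icc 1 N) (fun n hn => (mem_Icc.1 hn).2)
  obtain ⟨L, hL⟩ : ∃ L, L = Real.log (N : ℝ) := ⟨_, rfl⟩
  rw [← hL] at g4 g5 g6 g7 hm a4 b1 ⊢
  have hN0 : (0 : ℝ) < N := by exact_mod_cast (by omega : 0 < N)
  have hL0 : 0 < L := by linarith
  have hNL : (N : ℝ) = Real.exp L := by rw [hL, Real.exp_log hN0]
  have hm0 : (0 : ℝ) ≤ m := Nat.cast_nonneg m
  have hm2 : (m : ℝ) / L ^ 2 ≤ 1 := by
    rw [div_le_one (by positivity)]
    have : 0 ≤ ε * L ^ 2 := by positivity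
    linarith
  obtain ⟨Ω, hΩ⟩ : ∃ Ω, Ω = Fintype.piFinset fun j => Ioc (b j) (b j + q) := ⟨_, rfl⟩
  obtain ⟨ρ, hρ⟩ : ∃ ρ, ρ = (1 + δ) / Pw w := ⟨_, rfl⟩
  have hρ0 : 0 < ρ := by rw [hρ]; positivity
  rw [← hΩ] at a5 b1 ⊢
  -- the three bad sets
  obtain ⟨B1, hB1⟩ : ∃ B1, B1 = Ω.filter fun s => 1 / 2 * R < |Zs w q b n R s - R| := ⟨_, rfl⟩
  obtain ⟨B2, hB2⟩ : ∃ B2, B2 = Ω.filter fun s => L ≤ m ∧ (1 + δ) * ρ * m <
    ((univ.filter fun j => s j ∈ cop (Wd w) (b j) q).card : ℝ) := ⟨_, rfl⟩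
  obtain ⟨B3, hB3⟩ : ∃ B3, B3 = Ω.filter fun s => (N : ℝ) ^ (1 - m / L ^ 2 + ε) < ((sv (Icc 1 N) s).card : ℝ) := ⟨_, rfl⟩
  rw [← hB1] at a5
  have c1 : (B1.card : ℝ) ≤ ε / 4 * (q : ℝ) ^ m := by
    have : 0 ≤ (q : ℝ) ^ m := by positivity
    rw [hη] at a5
    nlinarith
  have c2 : (B2.card : ℝ) ≤ ε / 4 * (q : ℝ) ^ m := by
    rcases lt_or_ge (m : ℝ) L with hmL | hmL
    · have : B2 = ∅ := by
        rw [hB2, filter_eq_empty_iff]
        intro s _ h
        linarith [h.1]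
      rw [this, card_empty, Nat.cast_zero]
      positivity
    · have hqpos : 0 < q := by
        rcases Nat.eq_zero_or_pos q with h0 | h0
        · rw [h0, Nat.cast_zero, zero_mul] at hq
          linarith
        · exact h0
      have hR0 : 0 < R := by
        have : (0 : ℝ) < R := lt_of_lt_of_le (by positivity) a1
        exact_mod_cast this
      have d1 := lln (fun j => Ioc (b j) (b j + q)) (fun j => cop (Wd w) (b j) q) (fun j => filter_subset _ _) ρ δ hδ0 (by linarith)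
        (fun j => by
          have := (a4 0 hR0 j).ucard.2.1
          rw [Nat.card_Ioc, Nat.add_sub_cancel_left, hρ]
          refine this.trans ?_
          rw [div_mul_eq_mul_div, mul_div_assoc]
          apply mul_le_mul_of_nonneg_right _ (by positivity)
          linarith)
      rw [prod_congr rfl fun j _ => by rw [Nat.card_Ioc, Nat.add_sub_cancel_left], prod_const, card_univ, Fintype.card_fin, ← hΩ] at d1
      have d2 : B2 ⊆ Ω.filter fun s => (1 + δ) * ρ * m < ((univ.filter fun j => s j ∈ cop (Wd w) (b j) q).card : ℝ) := by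
        rw [hB2]
        intro s hs
        rw [mem_filter] at hs ⊢
        exact ⟨hs.1, hs.2.2⟩
      have d3 : (B2.card : ℝ) ≤ Real.exp (-(δ ^ 2 / 4 * ρ * m)) * (q : ℝ) ^ m := le_trans (by exact_mod_cast card_le_card d2) d1
      refine d3.trans (mul_le_mul_of_nonneg_right ?_ (by positivity))
      have d4 : Real.log (4 / ε) ≤ δ ^ 2 / 4 * ρ * m := by
        rw [div_le_iff₀ (by positivity)] at g5
        refine g5.trans ?_
        have f1 : δ ^ 2 / (4 * Pw w) ≤ δ ^ 2 / 4 * ρ := by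
          rw [hρ]
          have : δ ^ 2 / 4 * ((1 + δ) / Pw w) = (1 + δ) * (δ ^ 2 / (4 * Pw w)) := by field_simp
          rw [this]
          have : 0 ≤ δ ^ 2 / (4 * Pw w) := by positivity
          nlinarith
        calc L * (δ ^ 2 / (4 * Pw w)) ≤ m * (δ ^ 2 / 4 * ρ) := mul_le_mul hmL f1 (by positivity) hm0
          _ = _ := by ring
      rw [Real.exp_neg, ← one_div, div_le_iff₀ (Real.exp_pos _)]
      have d5 := Real.exp_le_exp.2 d4
      rw [Real.exp_log (by positivity)] at d5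
      calc (1 : ℝ) = ε / 4 * (4 / ε) := by field_simp
        _ ≤ _ := mul_le_mul_of_nonneg_left d5 (by positivity)
  have c3 : (B3.card : ℝ) ≤ ε / 4 * (q : ℝ) ^ m := by
    have d1 : (B3.card : ℝ) * (N : ℝ) ^ (1 - m / L ^ 2 + ε) ≤ ∑ s ∈ Ω, ((sv (Icc 1 N) s).card : ℝ) := by
      rw [← nsmul_eq_mul, ← sum_const, hB3]
      refine le_trans (sum_le_sum (fun s hs => ?_)) (sum_le_sum_of_subset_of_nonneg (filter_subset _ _) fun s _ _ => Nat.cast_nonneg _)
      exact (mem_filter.1 hs).2.le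
    have d2 := d1.trans b1
    rw [Nat.card_Icc, Nat.add_sub_cancel, Real.rpow_def_of_pos hN0, ← hL] at d2
    have d3 : (N : ℝ) * ((q : ℝ) ^ m * Real.exp (K' * (m / L ^ 2) - m / L)) =
        (Real.exp (K' * (m / L ^ 2) - ε * L) * (q : ℝ) ^ m) * Real.exp (L * (1 - m / L ^ 2 + ε)) := by
      have : K' * (m / L ^ 2) - ε * L + L * (1 - m / L ^ 2 + ε) = L + (K' * (m / L ^ 2) - m / L) := by field_simp; ring
      calc (N : ℝ) * ((q : ℝ) ^ m * Real.exp (K' * (m / L ^ 2) - m / L)) =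
          (q : ℝ) ^ m * Real.exp (L + (K' * (m / L ^ 2) - m / L)) := by rw [Real.exp_add, ← hNL]; ring
        _ = (q : ℝ) ^ m * Real.exp (K' * (m / L ^ 2) - ε * L + L * (1 - m / L ^ 2 + ε)) := by rw [this]
        _ = _ := by rw [Real.exp_add]; ring
    rw [d3] at d2
    have d4 := le_of_mul_le_mul_right d2 (Real.exp_pos _)
    refine d4.trans (mul_le_mul_of_nonneg_right ?_ (by positivity))
    rw [div_le_iff₀ hε] at g6
    have d5 : K' * (m / L ^ 2) ≤ K' := mul_le_of_le_one_right hK' hm2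
    have d6 : Real.exp (K' * (m / L ^ 2) - ε * L) ≤ Real.exp (-Real.log (4 / ε)) := Real.exp_le_exp.2 (by linarith)
    rw [Real.exp_neg, Real.exp_log (by positivity), inv_div] at d6
    exact d6
  -- every other vector of shifts is good
  have c4 : (Ω.filter fun s => ¬ ((N : ℝ) ^ (1 - m / L ^ 2 - ε) ≤ (sv (Icc 1 N) s).card ∧
      ((sv (Icc 1 N) s).card : ℝ) ≤ (N : ℝ) ^ (1 - m / L ^ 2 + ε))) ⊆ B1 ∪ (B2 ∪ B3) := by
    intro s hs
    rw [mem_filter] at hs
    obtain ⟨hsΩ, hs⟩ := hs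
    by_contra hnot
    rw [mem_union, mem_union, not_or, not_or] at hnot
    obtain ⟨n1, n2, n3⟩ := hnot
    rw [hB1, mem_filter, not_and, not_lt] at n1
    rw [hB2, mem_filter, not_and, not_and, not_lt] at n2
    rw [hB3, mem_filter, not_and, not_lt] at n3
    apply hs
    refine ⟨?_, n3 hsΩ⟩
    have n1' := (abs_le.1 (n1 hsΩ)).1
    obtain ⟨c, hc⟩ : ∃ c : ℝ, c = ((univ.filter fun j => s j ∈ cop (Wd w) (b j) q).card : ℝ) := ⟨_, rfl⟩
    have f1 := Zs_le w q b n R L δ K a4 a3 N a2 s (by rw [← hΩ]; exact hsΩ)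
    rw [← hc] at f1 n2
    have hc0 : 0 ≤ c := by rw [hc]; exact Nat.cast_nonneg _
    have f2 : (1 + 3 * δ) * (Pw w / L) * c ≤ 2 * Pw w + m / L + ε / 2 * L := by
      rcases lt_or_ge (m : ℝ) L with hmL | hmL
      · have e1 : c ≤ m := by
          rw [hc]
          exact_mod_cast (card_filter_le _ _).trans (by rw [card_univ, Fintype.card_fin])
        have e2 : (1 + 3 * δ) * (Pw w / L) * c ≤ (1 + 3 * δ) * (Pw w / L) * L := mul_le_mul_of_nonneg_left (by linarith) (by positivity)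
        have e3 : (1 + 3 * δ) * (Pw w / L) * L = (1 + 3 * δ) * Pw w := by field_simp
        have e4 : (1 + 3 * δ) * Pw w ≤ 2 * Pw w := mul_le_mul_of_nonneg_right (by linarith) (by linarith)
        have e5 : 0 ≤ m / L := by positivity
        have e6 : 0 ≤ ε / 2 * L := by positivity
        linarith
      · have e1 := n2 hsΩ hmL
        have e2 : (1 + 3 * δ) * (Pw w / L) * c ≤ (1 + 3 * δ) * (Pw w / L) * ((1 + δ) * ρ * m) :=
          mul_le_mul_of_nonneg_left e1 (by positivity)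
        have e3 : (1 + 3 * δ) * (Pw w / L) * ((1 + δ) * ρ * m) = ((1 + 3 * δ) * (1 + δ) ^ 2) * (m / L) := by
          rw [hρ]
          field_simp
        have e4 : (1 + 3 * δ) * (1 + δ) ^ 2 ≤ 1 + 8 * δ := by nlinarith [mul_nonneg hδ0.le hδ0.le, mul_nonneg (mul_nonneg hδ0.le hδ0.le) hδ0.le]
        have e5 : ((1 + 3 * δ) * (1 + δ) ^ 2) * (m / L) ≤ (1 + 8 * δ) * (m / L) := mul_le_mul_of_nonneg_right e4 (by positivity)
        have e6 : m / L ≤ L := by
          have : m / L = (m / L ^ 2) * L := by field_simp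
          rw [this]
          exact mul_le_of_le_one_left hL0.le hm2
        have e7 : 8 * δ * (m / L) ≤ ε / 2 * L := mul_le_mul (by linarith) e6 (by positivity) (by positivity)
        have e8 : 0 ≤ 2 * Pw w := by linarith
        linarith
    have f3 := Real.exp_le_exp.2 f2
    have f4 : (0 : ℝ) ≤ (sv (Icc 1 N) s).card := Nat.cast_nonneg _
    have f5 : (N : ℝ) / (16 * Wd w) ≤ ((sv (Icc 1 N) s).card : ℝ) * Real.exp (2 * Pw w + m / L + ε / 2 * L) := by
      have e1 := f1.trans (mul_le_mul_of_nonneg_left f3 f4)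
      have e2 : (N : ℝ) / (16 * Wd w) = (N / (8 * Wd w)) / 2 := by field_simp; norm_num
      linarith
    rw [Real.rpow_def_of_pos hN0, ← hL]
    rw [div_le_iff₀ (by positivity)] at g4
    have f6 : L * (1 - m / L ^ 2 - ε) ≤ L - Real.log (16 * Wd w) - (2 * Pw w + m / L + ε / 2 * L) := by
      have : L * (1 - m / L ^ 2 - ε) = L - m / L - ε * L := by field_simp
      rw [this]
      linarith
    refine (Real.exp_le_exp.2 f6).trans ?_
    rw [Real.exp_sub, Real.exp_sub, Real.exp_log (by positivity), ← hNL, div_le_iff₀ (Real.exp_pos _)]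
    exact f5
  have c5 : (((Ω.filter fun s => ¬ ((N : ℝ) ^ (1 - m / L ^ 2 - ε) ≤ (sv (Icc 1 N) s).card ∧
      ((sv (Icc 1 N) s).card : ℝ) ≤ (N : ℝ) ^ (1 - m / L ^ 2 + ε)))).card : ℝ) ≤ B1.card + (B2.card + B3.card) := by
    have := (card_le_card c4).trans ((card_union_le B1 (B2 ∪ B3)).trans (Nat.add_le_add_left (card_union_le B2 B3) _))
    exact_mod_cast this
  refine c5.trans ?_
  have : 0 ≤ ε / 4 * (q : ℝ) ^ m := by positivity
  linarith

end Pool.Agent.Run7.h931.RS
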