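import Mathlib
import Pool.Agent.Helper256.KM.Mertens

/-!
# Random shifts, part 1: exponential moments of `h / φ(h)`
-/

set_option autoImplicit false

namespace Pool.Agent.Run7.h931.RS

open Finset Filter

/-- the sum of `1 / (p - 1)` over the prime factors `p > w` of `h` -/
noncomputable def gw (w h : ℕ) : ℝ := ∑ p ∈ h.primeFactors.filter (fun p => w < p), 1 / ((p : ℝ) - 1)

/-- the product of `p / (p - 1)` over the prime factors `p > w` of `h` -/
noncomputable def Fw (w h : ℕ) : ℝ := ∏ p ∈ h.primeFactors.filter (fun p => w < p), ((p : ℝ) / ((p : ℝ) - 1))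

lemma mem_fil {w h p : ℕ} (hp : p ∈ h.primeFactors.filter (fun p => w < p)) : 0 < (p : ℝ) - 1 ∧ 2 ≤ p ∧ w < p ∧ p ∣ h := by
  rw [mem_filter] at hp
  have h1 := Nat.prime_of_mem_primeFactors hp.1
  have h2 : (2 : ℝ) ≤ p := by exact_mod_cast h1.two_le
  exact ⟨by linarith, h1.two_le, hp.2, Nat.dvd_of_mem_primeFactors hp.1⟩

lemma gw_nonneg (w h : ℕ) : 0 ≤ gw w h := sum_nonneg fun p hp => by
  have := (mem_fil hp).1
  positivity

lemma Fw_le_exp (w h : ℕ) : Fw w h ≤ Real.exp (gw w h) := by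
  unfold Fw gw
  rw [Real.exp_sum]
  apply Finset.prod_le_prod
  · intro p hp
    have := (mem_fil hp).1
    have h2 : (0 : ℝ) ≤ p := Nat.cast_nonneg p
    positivity
  · intro p hp
    have h1 := (mem_fil hp).1
    have : (p : ℝ) / ((p : ℝ) - 1) = 1 / ((p : ℝ) - 1) + 1 := by field_simp; ring
    rw [this]
    exact Real.add_one_le_exp _

lemma one_add_sum_le_prod {ι : Type} (s : Finset ι) (a : ι → ℝ) (ha : ∀ i ∈ s, 0 ≤ a i) :
    1 + ∑ i ∈ s, a i ≤ ∏ i ∈ s, (1 + a i) := by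
  classical
  induction s using Finset.induction_on with
  | empty => simp
  | insert i s hi ih =>
    rw [sum_insert hi, prod_insert hi]
    have h1 := ih fun j hj => ha j (mem_insert_of_mem hj)
    have h2 := ha i (mem_insert_self _ _)
    have h3 : 0 ≤ ∑ j ∈ s, a j := sum_nonneg fun j hj => ha j (mem_insert_of_mem hj)
    calc 1 + (a i + ∑ j ∈ s, a j) ≤ (1 + a i) * (1 + ∑ j ∈ s, a j) := by nlinarith [mul_nonneg h2 h3]
      _ ≤ (1 + a i) * ∏ j ∈ s, (1 + a j) := mul_le_mul_of_nonneg_left h1 (by linarith)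

lemma Fw_ge (w h : ℕ) : 1 + gw w h ≤ Fw w h := by
  unfold Fw gw
  refine (one_add_sum_le_prod _ _ fun p hp => ?_).trans (le_of_eq ?_)
  · have := (mem_fil hp).1
    positivity
  · apply prod_congr rfl
    intro p hp
    have := (mem_fil hp).1
    field_simp
    ring

lemma one_le_Fw (w h : ℕ) : 1 ≤ Fw w h := by
  have h1 := Fw_ge w h
  have h2 := gw_nonneg w h
  linarith

lemma tail_sum (y H : ℕ) (hy : 1 ≤ y) : ∑ n ∈ Ioc y H, 1 / (((n : ℝ) - 1) * n) ≤ 1 / y := by
  have hy0 : (0 : ℝ) < y := by exact_mod_cast hy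
  rcases lt_or_ge H y with h | h
  · rw [Ioc_eq_empty (by omega), sum_empty]
    positivity
  · have : ∀ H : ℕ, y ≤ H → ∑ n ∈ Ioc y H, 1 / (((n : ℝ) - 1) * n) = 1 / y - 1 / H := by
      intro H hH
      induction H, hH using Nat.le_induction with
      | base => simp
      | succ n hn ih =>
        rw [← Finset.insert_Ioc_right_eq_Ioc_add_one (by omega), sum_insert (by simp), ih]
        have hn0 : (0 : ℝ) < n := by exact_mod_cast (by omega : 0 < n)
        have e : ((n + 1 : ℕ) : ℝ) - 1 = n := by push_cast; ring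
        rw [e]
        push_cast
        field_simp
        ring
    rw [this H h]
    have hH : (0 : ℝ) < H := by exact_mod_cast (by omega : 0 < H)
    have : 0 < 1 / (H : ℝ) := by positivity
    linarith

/-- the mean of `exp (c gw)` -/
theorem mean (c : ℝ) (y H : ℕ) (hc : 0 ≤ c) (hcy : c ≤ y) (hy : 1 ≤ y) :
    ∑ h ∈ Icc 1 H, Real.exp (c * gw y h) ≤ H * Real.exp (2 * c / y) := by
  classical
  obtain ⟨P, hP⟩ : ∃ P : Finset ℕ, P = (Ioc y H).filter Nat.Prime := ⟨_, rfl⟩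
  obtain ⟨a, ha⟩ : ∃ a : ℕ → ℝ, a = fun p : ℕ => Real.exp (c / ((p : ℝ) - 1)) - 1 := ⟨_, rfl⟩
  have hpp : ∀ p ∈ P, p.Prime ∧ y < p ∧ p ≤ H := by
    intro p hp
    rw [hP, mem_filter, mem_Ioc] at hp
    exact ⟨hp.2, hp.1.1, hp.1.2⟩
  have ha0 : ∀ p ∈ P, 0 ≤ a p ∧ a p ≤ 2 * c / ((p : ℝ) - 1) := by
    intro p hp
    obtain ⟨h1, h2, h3⟩ := hpp p hp
    have h4 : (y : ℝ) ≤ (p : ℝ) - 1 := by
      have : (y : ℝ) + 1 ≤ p := by exact_mod_cast h2
      linarith
    have hy0 : (0 : ℝ) < y := by exact_mod_cast hy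
    have h5 : 0 < (p : ℝ) - 1 := by linarith
    have h6 : 0 ≤ c / ((p : ℝ) - 1) := by positivity
    have h7 : c / ((p : ℝ) - 1) ≤ 1 := by
      rw [div_le_one h5]
      linarith
    rw [ha]
    simp only
    constructor
    · have := Real.add_one_le_exp (c / ((p : ℝ) - 1))
      linarith
    · have h8 := Real.exp_bound' h6 h7 (n := 2) (by norm_num)
      simp only [Finset.sum_range_succ, Finset.sum_range_zero, pow_zero, pow_one, Nat.factorial] at h8
      norm_num at h8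
      have h9 : (c / ((p : ℝ) - 1)) ^ 2 ≤ c / ((p : ℝ) - 1) := by nlinarith
      have h10 : 2 * c / ((p : ℝ) - 1) = 2 * (c / ((p : ℝ) - 1)) := by ring
      rw [h10]
      nlinarith
  have h1 : ∀ h ∈ Icc 1 H, Real.exp (c * gw y h) = ∑ S ∈ P.powerset, if (∀ p ∈ S, p ∣ h) then ∏ p ∈ S, a p else 0 := by
    intro h hh
    rw [mem_Icc] at hh
    have e1 : h.primeFactors.filter (fun p => y < p) = P.filter (fun p => p ∣ h) := by
      ext p
      rw [hP, mem_filter, mem_filter, mem_filter, mem_Ioc, Nat.mem_primeFactors]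
      constructor
      · rintro ⟨⟨h1, h2, h3⟩, h4⟩
        exact ⟨⟨⟨h4, (Nat.le_of_dvd (by omega) h2).trans hh.2⟩, h1⟩, h2⟩
      · rintro ⟨⟨⟨h1, h2⟩, h3⟩, h4⟩
        exact ⟨⟨h3, h4, by omega⟩, h1⟩
    have e2 : Real.exp (c * gw y h) = ∏ p ∈ P.filter (fun p => p ∣ h), (1 + a p) := by
      unfold gw
      rw [mul_sum, Real.exp_sum, e1]
      apply prod_congr rfl
      intro p _
      rw [ha]
      simp only
      rw [mul_one_div]
      ring
    rw [e2, prod_one_add, ← sum_filter]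
    apply sum_congr _ fun _ _ => rfl
    ext S
    rw [mem_powerset, mem_filter, mem_powerset]
    constructor
    · intro hS
      exact ⟨hS.trans (filter_subset _ _), fun p hp => (mem_filter.1 (hS hp)).2⟩
    · rintro ⟨h1, h2⟩ p hp
      rw [mem_filter]
      exact ⟨h1 hp, h2 p hp⟩
  rw [sum_congr rfl h1, sum_comm]
  have h2 : ∀ S ∈ P.powerset, ∑ h ∈ Icc 1 H, (if (∀ p ∈ S, p ∣ h) then ∏ p ∈ S, a p else 0) ≤
      H * ∏ p ∈ S, a p / p := by
    intro S hS
    rw [mem_powerset] at hS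
    have hS0 : 0 ≤ ∏ p ∈ S, a p := prod_nonneg fun p hp => (ha0 p (hS hp)).1
    have hd : 0 < ∏ p ∈ S, p := prod_pos fun p hp => (hpp p (hS hp)).1.pos
    have hdr : (0 : ℝ) < ∏ p ∈ S, (p : ℝ) := prod_pos fun p hp => by exact_mod_cast (hpp p (hS hp)).1.pos
    rw [← sum_filter, sum_const, nsmul_eq_mul, prod_div_distrib]
    have h3 : ((Icc 1 H).filter (fun h => ∀ p ∈ S, p ∣ h)).card ≤ H / ∏ p ∈ S, p := by
      rw [← Nat.Ioc_filter_dvd_card_eq_div]
      apply card_le_card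
      intro h hh
      rw [mem_filter, mem_Icc] at hh
      rw [mem_filter, mem_Ioc]
      refine ⟨⟨by omega, hh.1.2⟩, ?_⟩
      exact Finset.prod_primes_dvd h (fun p hp => (hpp p (hS hp)).1.prime) hh.2
    have h4 : (((Icc 1 H).filter (fun h => ∀ p ∈ S, p ∣ h)).card : ℝ) ≤ H / ∏ p ∈ S, (p : ℝ) := by
      have h5 : (((H / ∏ p ∈ S, p : ℕ) : ℕ) : ℝ) ≤ (H : ℝ) / ((∏ p ∈ S, p : ℕ) : ℝ) := Nat.cast_div_le
      push_cast at h5
      refine le_trans ?_ h5
      exact_mod_cast h3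
    calc (((Icc 1 H).filter (fun h => ∀ p ∈ S, p ∣ h)).card : ℝ) * ∏ p ∈ S, a p ≤
        H / (∏ p ∈ S, (p : ℝ)) * ∏ p ∈ S, a p := mul_le_mul_of_nonneg_right h4 hS0
      _ = _ := by ring
  refine (sum_le_sum h2).trans ?_
  rw [← mul_sum, ← prod_one_add]
  apply mul_le_mul_of_nonneg_left _ (Nat.cast_nonneg H)
  have h3 : ∏ p ∈ P, (1 + a p / p) ≤ Real.exp (∑ p ∈ P, a p / p) := by
    rw [Real.exp_sum]
    apply Finset.prod_le_prod
    · intro p hp
      have := (ha0 p hp).1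
      positivity
    · intro p _
      rw [add_comm]
      exact Real.add_one_le_exp _
  refine h3.trans (Real.exp_le_exp.2 ?_)
  have h4 : ∑ p ∈ P, a p / p ≤ ∑ p ∈ P, 2 * c * (1 / (((p : ℝ) - 1) * p)) := by
    apply sum_le_sum
    intro p hp
    obtain ⟨b1, b2, b3⟩ := hpp p hp
    have h5 : (2 : ℝ) ≤ p := by exact_mod_cast b1.two_le
    have h6 : 0 < (p : ℝ) - 1 := by linarith
    have h7 := (ha0 p hp).2
    calc a p / p ≤ (2 * c / ((p : ℝ) - 1)) / p := div_le_div_of_nonneg_right h7 (by linarith)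
      _ = _ := by field_simp
  refine h4.trans ?_
  rw [← mul_sum]
  have h5 : ∑ p ∈ P, 1 / (((p : ℝ) - 1) * p) ≤ 1 / y := by
    refine le_trans ?_ (tail_sum y H hy)
    rw [hP]
    apply sum_le_sum_of_subset_of_nonneg (filter_subset _ _)
    intro n hn _
    rw [mem_Ioc] at hn
    have : (1 : ℝ) ≤ (n : ℝ) - 1 := by
      have : (2 : ℝ) ≤ n := by exact_mod_cast (by omega : 2 ≤ n)
      linarith
    positivity
  calc 2 * c * ∑ p ∈ P, 1 / (((p : ℝ) - 1) * p) ≤ 2 * c * (1 / y) := mul_le_mul_of_nonneg_left h5 (by linarith)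
    _ = 2 * c / y := by ring

end Pool.Agent.Run7.h931.RS
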