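import Pool.Agent.Run7.h931.RS.Avg
import Pool.Agent.N384.MQ.Flat

/-!
# Random shifts, part 2: doubly exponential tails of `h / φ(h)`
-/

set_option autoImplicit false

namespace Pool.Agent.Run7.h931.RS

open Finset Filter

/-- Mertens' product `∏_{p ≤ y} p / (p - 1)` -/
noncomputable def Pw (y : ℕ) : ℝ := ∏ p ∈ (Icc 1 y).filter Nat.Prime, ((p : ℝ) / ((p : ℝ) - 1))

lemma fac_ge {p : ℕ} (hp : p.Prime) : 1 ≤ (p : ℝ) / ((p : ℝ) - 1) := by
  have h : (2 : ℝ) ≤ p := by exact_mod_cast hp.two_le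
  rw [le_div_iff₀ (by linarith)]
  linarith

lemma one_le_Pw (y : ℕ) : 1 ≤ Pw y := Finset.one_le_prod fun _ hp => fac_ge (mem_filter.1 hp).2

/-- Mertens: an upper bound -/
lemma Pw_le : ∃ C₁ : ℝ, 1 ≤ C₁ ∧ ∀ y : ℕ, 3 ≤ y → Pw y ≤ C₁ * Real.log y := by
  obtain ⟨C, hC⟩ := Pool.Agent.Helper256.KM.mertens_inv
  have hC0 : 0 ≤ C := (abs_nonneg _).trans (hC 3 le_rfl)
  refine ⟨Real.exp (C + 1), Real.one_le_exp (by linarith), fun y hy => ?_⟩
  have h1 := (abs_le.1 (hC y hy)).2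
  have hy3 : (3 : ℝ) ≤ y := by exact_mod_cast hy
  have hl : 0 < Real.log y := Real.log_pos (by linarith)
  have h2 : Pw y ≤ Real.exp (∑ p ∈ (Icc 1 y).filter Nat.Prime, 1 / ((p : ℝ) - 1)) := by
    unfold Pw
    rw [Real.exp_sum]
    apply Finset.prod_le_prod
    · intro p hp
      have := fac_ge (mem_filter.1 hp).2
      linarith
    · intro p hp
      have h : (2 : ℝ) ≤ p := by exact_mod_cast (mem_filter.1 hp).2.two_le
      have h3 : (0 : ℝ) < (p : ℝ) - 1 := by linarith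
      have : (p : ℝ) / ((p : ℝ) - 1) = 1 / ((p : ℝ) - 1) + 1 := by field_simp; ring
      rw [this]
      exact Real.add_one_le_exp _
  have h3 : ∑ p ∈ (Icc 1 y).filter Nat.Prime, 1 / ((p : ℝ) - 1) =
      ∑ p ∈ (Icc 1 y).filter Nat.Prime, 1 / (p : ℝ) + ∑ p ∈ (Icc 1 y).filter Nat.Prime, 1 / (((p : ℝ) - 1) * p) := by
    rw [← sum_add_distrib]
    apply sum_congr rfl
    intro p hp
    have h : (2 : ℝ) ≤ p := by exact_mod_cast (mem_filter.1 hp).2.two_le
    have h3 : (p : ℝ) - 1 ≠ 0 := by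
      have : (0 : ℝ) < (p : ℝ) - 1 := by linarith
      exact this.ne'
    have h4 : (p : ℝ) ≠ 0 := by
      have : (0 : ℝ) < (p : ℝ) := by linarith
      exact this.ne'
    field_simp
    ring
  have h4 : ∑ p ∈ (Icc 1 y).filter Nat.Prime, 1 / (((p : ℝ) - 1) * p) ≤ 1 := by
    have h5 := tail_sum 1 y le_rfl
    rw [Nat.cast_one, div_one] at h5
    refine le_trans (sum_le_sum_of_subset_of_nonneg ?_ ?_) h5
    · intro p hp
      rw [mem_filter, mem_Icc] at hp
      rw [mem_Ioc]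
      exact ⟨hp.2.one_lt, hp.1.2⟩
    · intro n hn _
      rw [mem_Ioc] at hn
      have : (1 : ℝ) ≤ (n : ℝ) - 1 := by
        have : (2 : ℝ) ≤ n := by exact_mod_cast (by omega : 2 ≤ n)
        linarith
      positivity
  calc Pw y ≤ Real.exp (∑ p ∈ (Icc 1 y).filter Nat.Prime, 1 / ((p : ℝ) - 1)) := h2
    _ ≤ Real.exp ((C + 1) + Real.log (Real.log y)) := Real.exp_le_exp.2 (by rw [h3]; linarith)
    _ = Real.exp (C + 1) * Real.log y := by rw [Real.exp_add, Real.exp_log hl]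

/-- splitting the product at `y` -/
lemma Fw_split (w y h : ℕ) (hwy : w ≤ y) : Fw w h ≤ Pw y * Fw y h := by
  classical
  have h1 : Fw w h = (∏ p ∈ (h.primeFactors.filter (fun p => w < p)).filter (fun p => y < p), ((p : ℝ) / ((p : ℝ) - 1))) *
      ∏ p ∈ (h.primeFactors.filter (fun p => w < p)).filter (fun p => ¬ y < p), ((p : ℝ) / ((p : ℝ) - 1)) := by
    unfold Fw
    rw [prod_filter_mul_prod_filter_not]
  have h2 : (h.primeFactors.filter (fun p => w < p)).filter (fun p => y < p) = h.primeFactors.filter (fun p => y < p) := by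
    ext p
    rw [mem_filter, mem_filter, mem_filter]
    constructor
    · rintro ⟨⟨a, b⟩, c⟩
      exact ⟨a, c⟩
    · rintro ⟨a, c⟩
      exact ⟨⟨a, lt_of_le_of_lt hwy c⟩, c⟩
  have h3 : ∏ p ∈ (h.primeFactors.filter (fun p => w < p)).filter (fun p => ¬ y < p), ((p : ℝ) / ((p : ℝ) - 1)) ≤ Pw y := by
    unfold Pw
    apply Finset.prod_le_prod_of_subset_of_one_le
    · intro p hp
      rw [mem_filter, mem_filter] at hp
      have hpp := Nat.prime_of_mem_primeFactors hp.1.1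
      rw [mem_filter, mem_Icc]
      exact ⟨⟨hpp.one_lt.le, not_lt.1 hp.2⟩, hpp⟩
    · intro p hp
      rw [mem_filter, mem_filter] at hp
      have := fac_ge (Nat.prime_of_mem_primeFactors hp.1.1)
      linarith
    · intro p hp _
      exact fac_ge (mem_filter.1 hp).2
  rw [h1, h2, mul_comm]
  exact mul_le_mul_of_nonneg_right h3 (zero_le_one.trans (one_le_Fw y h))

lemma Fw_big (y h : ℕ) (hh : 1 ≤ h) (hy : h ≤ y) : Fw y h = 1 := by
  unfold Fw
  rw [filter_false_of_mem, prod_empty]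
  intro p hp
  have := Nat.le_of_dvd (by omega) (Nat.dvd_of_mem_primeFactors hp)
  omega

/-- doubly exponential tails -/
theorem tails (c : ℝ) (hc : 0 ≤ c) (k : ℕ) (η : ℝ) (hη : 0 < η) : ∃ w₀ : ℕ, 3 ≤ w₀ ∧ ∀ w : ℕ, w₀ ≤ w → ∀ H : ℕ,
    ∑ h ∈ (Icc 1 H).filter (fun h => 2 < Fw w h), Real.exp (c * (Real.log w * Fw w h) ^ k) ≤ η * H := by
  classical
  obtain ⟨C₁, hC1, hP⟩ := Pw_le
  obtain ⟨x₀, hx₀⟩ := eventually_atTop.1 (Pool.Agent.N384.MQ.ev_log_pow (2 * k) (16 * (c * (2 * C₁) ^ k)))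
  obtain ⟨K, hK⟩ : ∃ K : ℕ, 8 * (2 - Real.log η + 1) ≤ K := exists_nat_ge _
  refine ⟨x₀ + K + 8, by omega, fun w hw H => ?_⟩
  have hw3 : 3 ≤ w := by omega
  -- the main terms
  obtain ⟨y, hy⟩ : ∃ y : ℕ → ℕ, y = fun i => 2 ^ i * w := ⟨_, rfl⟩
  have hyw : ∀ i, w ≤ y i := fun i => by rw [hy]; exact Nat.le_mul_of_pos_left _ (by positivity)
  obtain ⟨G, hG⟩ : ∃ G : ℕ → ℝ, G = fun i => Real.exp (c * (Real.log w * (2 * (C₁ * Real.log (y (i + 1) : ℕ)))) ^ k) := ⟨_, rfl⟩
  have hlw : 0 ≤ Real.log (w : ℝ) := Real.log_natCast_nonneg w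
  have hpt : ∀ h ∈ (Icc 1 H).filter (fun h => 2 < Fw w h), Real.exp (c * (Real.log w * Fw w h) ^ k) ≤
      ∑ i ∈ range H, G i * Real.exp (-((y i : ℝ) * Real.log 2)) * Real.exp ((y i : ℝ) * gw (y i) h) := by
    intro h hh
    rw [mem_filter, mem_Icc] at hh
    obtain ⟨⟨a1, a2⟩, a3⟩ := hh
    have hex : ∃ j, Fw (y j) h ≤ 2 := by
      refine ⟨h, ?_⟩
      rw [Fw_big _ _ a1 ?_]
      · norm_num
      · rw [hy]
        have : h < 2 ^ h := Nat.lt_two_pow_self
        show h ≤ 2 ^ h * w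
        nlinarith
    obtain ⟨j, hj⟩ : ∃ j, j = Nat.find hex := ⟨_, rfl⟩
    have hj1 : Fw (y j) h ≤ 2 := by rw [hj]; exact Nat.find_spec hex
    have hj0 : j ≠ 0 := by
      intro h0
      rw [h0, hy] at hj1
      simp only [pow_zero, one_mul] at hj1
      linarith
    obtain ⟨i, hi⟩ := Nat.exists_eq_succ_of_ne_zero hj0
    have hi2 : 2 < Fw (y i) h := by
      have := Nat.find_min hex (m := i) (by omega)
      exact not_le.1 this
    have hiH : i < H := by
      by_contra hcon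
      have : Fw (y i) h = 1 := by
        apply Fw_big _ _ a1
        rw [hy]
        have : i < 2 ^ i := Nat.lt_two_pow_self
        show h ≤ 2 ^ i * w
        nlinarith
      linarith
    have hterm : Real.exp (c * (Real.log w * Fw w h) ^ k) ≤
        G i * Real.exp (-((y i : ℝ) * Real.log 2)) * Real.exp ((y i : ℝ) * gw (y i) h) := by
      have b1 : Fw w h ≤ 2 * (C₁ * Real.log (y (i + 1) : ℕ)) := by
        have b2 := Fw_split w (y (i + 1)) h (hyw _)
        have b3 := hP (y (i + 1)) (hw3.trans (hyw _))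
        rw [hi] at hj1
        have b4 : 0 ≤ Pw (y (i + 1)) := zero_le_one.trans (one_le_Pw _)
        calc Fw w h ≤ Pw (y (i + 1)) * Fw (y (i + 1)) h := b2
          _ ≤ Pw (y (i + 1)) * 2 := mul_le_mul_of_nonneg_left hj1 b4
          _ ≤ (C₁ * Real.log (y (i + 1) : ℕ)) * 2 := mul_le_mul_of_nonneg_right b3 (by norm_num)
          _ = _ := by ring
      have b5 : Real.exp (c * (Real.log w * Fw w h) ^ k) ≤ G i := by
        rw [hG]
        apply Real.exp_le_exp.2
        apply mul_le_mul_of_nonneg_left _ hc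
        apply pow_le_pow_left₀ (mul_nonneg hlw (zero_le_one.trans (one_le_Fw w h)))
        exact mul_le_mul_of_nonneg_left b1 hlw
      have b6 : Real.log 2 ≤ gw (y i) h := by
        have b7 := Fw_le_exp (y i) h
        rw [Real.log_le_iff_le_exp (by norm_num)]
        linarith
      have b8 : 1 ≤ Real.exp (-((y i : ℝ) * Real.log 2)) * Real.exp ((y i : ℝ) * gw (y i) h) := by
        rw [← Real.exp_add]
        apply Real.one_le_exp
        have : (y i : ℝ) * Real.log 2 ≤ (y i : ℝ) * gw (y i) h := mul_le_mul_of_nonneg_left b6 (Nat.cast_nonneg _)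
        linarith
      have b9 : 0 ≤ G i := by rw [hG]; exact (Real.exp_pos _).le
      calc Real.exp (c * (Real.log w * Fw w h) ^ k) ≤ G i * 1 := by rw [mul_one]; exact b5
        _ ≤ G i * (Real.exp (-((y i : ℝ) * Real.log 2)) * Real.exp ((y i : ℝ) * gw (y i) h)) :=
            mul_le_mul_of_nonneg_left b8 b9
        _ = _ := by ring
    refine hterm.trans ?_
    apply single_le_sum (f := fun i => G i * Real.exp (-((y i : ℝ) * Real.log 2)) * Real.exp ((y i : ℝ) * gw (y i) h))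
      (fun i _ => ?_) (mem_range.2 hiH)
    have b9 : 0 ≤ G i := by rw [hG]; exact (Real.exp_pos _).le
    positivity
  refine (sum_le_sum hpt).trans ?_
  rw [sum_comm]
  -- one value of `i`
  have hone : ∀ i ∈ range H, ∑ h ∈ (Icc 1 H).filter (fun h => 2 < Fw w h),
      G i * Real.exp (-((y i : ℝ) * Real.log 2)) * Real.exp ((y i : ℝ) * gw (y i) h) ≤ η * H * (1 / 2) ^ (i + 1) := by
    intro i _
    have b9 : 0 ≤ G i := by rw [hG]; exact (Real.exp_pos _).le
    have hyi : (8 : ℝ) ≤ y i := by exact_mod_cast (by omega : 8 ≤ w).trans (hyw i)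
    have hyi0 : (0 : ℝ) < y i := by linarith
    rw [← mul_sum]
    have c1 : ∑ h ∈ (Icc 1 H).filter (fun h => 2 < Fw w h), Real.exp ((y i : ℝ) * gw (y i) h) ≤ H * Real.exp 2 := by
      have c2 := mean (y i : ℝ) (y i) H hyi0.le le_rfl (by have := hyw i; omega)
      have c3 : 2 * (y i : ℝ) / (y i : ℕ) = 2 := by field_simp
      rw [c3] at c2
      refine le_trans ?_ c2
      apply sum_le_sum_of_subset_of_nonneg (filter_subset _ _)
      intro h _ _
      positivity
    have c4 : G i * Real.exp (-((y i : ℝ) * Real.log 2)) * Real.exp 2 ≤ η * (1 / 2) ^ (i + 1) := by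
      have d1 : (y (i + 1) : ℝ) = 2 * y i := by
        rw [hy]
        push_cast
        ring
      have d2 : 16 * (c * (2 * C₁) ^ k) * Real.log (y (i + 1) : ℕ) ^ (2 * k) ≤ (y (i + 1) : ℕ) :=
        hx₀ _ ((by omega : x₀ ≤ w).trans (hyw _))
      have d3 : Real.log (w : ℝ) ≤ Real.log (y (i + 1) : ℕ) := by
        apply Real.log_le_log (by exact_mod_cast (by omega : 0 < w))
        exact_mod_cast hyw (i + 1)
      have d4 : c * (Real.log w * (2 * (C₁ * Real.log (y (i + 1) : ℕ)))) ^ k ≤ y i / 8 := by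
        have d5 : (Real.log w * (2 * (C₁ * Real.log (y (i + 1) : ℕ)))) ^ k ≤
            (2 * C₁) ^ k * Real.log (y (i + 1) : ℕ) ^ (2 * k) := by
          rw [pow_mul, ← mul_pow]
          apply pow_le_pow_left₀ (by positivity)
          calc Real.log w * (2 * (C₁ * Real.log (y (i + 1) : ℕ))) ≤
              Real.log (y (i + 1) : ℕ) * (2 * (C₁ * Real.log (y (i + 1) : ℕ))) :=
                mul_le_mul_of_nonneg_right d3 (by positivity)
            _ = _ := by ring
        have d6 : c * (Real.log w * (2 * (C₁ * Real.log (y (i + 1) : ℕ)))) ^ k ≤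
            c * ((2 * C₁) ^ k * Real.log (y (i + 1) : ℕ) ^ (2 * k)) := mul_le_mul_of_nonneg_left d5 hc
        have d2' := d2.trans (le_of_eq d1)
        linarith
      have d7 : G i ≤ Real.exp (y i / 8) := by
        rw [hG]
        exact Real.exp_le_exp.2 d4
      have d8 : η * (1 / 2) ^ (i + 1) = Real.exp (Real.log η - (i + 1 : ℕ) * Real.log 2) := by
        rw [Real.exp_sub, Real.exp_log hη, Real.exp_nat_mul, Real.exp_log (by norm_num), one_div, inv_pow, div_eq_mul_inv]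
      rw [d8]
      calc G i * Real.exp (-((y i : ℝ) * Real.log 2)) * Real.exp 2 ≤
          Real.exp (y i / 8) * Real.exp (-((y i : ℝ) * Real.log 2)) * Real.exp 2 := by
            apply mul_le_mul_of_nonneg_right _ (Real.exp_pos _).le
            exact mul_le_mul_of_nonneg_right d7 (Real.exp_pos _).le
        _ = Real.exp (y i / 8 + -((y i : ℝ) * Real.log 2) + 2) := by rw [Real.exp_add, Real.exp_add]
        _ ≤ _ := by
            apply Real.exp_le_exp.2
            have e1 : ((i + 1 : ℕ) : ℝ) ≤ y i / 8 := by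
              have e2 : i + 1 ≤ 2 ^ i := Nat.succ_le_of_lt Nat.lt_two_pow_self
              have e3 : 8 * (i + 1) ≤ y i := by
                rw [hy]
                show 8 * (i + 1) ≤ 2 ^ i * w
                calc 8 * (i + 1) ≤ w * 2 ^ i := Nat.mul_le_mul (by omega) e2
                  _ = _ := by ring
              have e4 : (8 : ℝ) * ((i + 1 : ℕ) : ℝ) ≤ y i := by exact_mod_cast e3
              linarith
            have e5 : 8 * (2 - Real.log η + 1) ≤ (y i : ℝ) := by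
              refine hK.trans ?_
              exact_mod_cast (by omega : K ≤ w).trans (hyw i)
            have e6 : (0.69 : ℝ) ≤ Real.log 2 := by linarith [Real.log_two_gt_d9]
            have e7 : Real.log 2 ≤ 0.7 := by linarith [Real.log_two_lt_d9]
            have e8 : (0.69 : ℝ) * y i ≤ (y i : ℝ) * Real.log 2 := by nlinarith
            have e9 : ((i + 1 : ℕ) : ℝ) * Real.log 2 ≤ y i / 8 := by
              have : (0 : ℝ) ≤ ((i + 1 : ℕ) : ℝ) := Nat.cast_nonneg _
              nlinarith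
            linarith
    calc G i * Real.exp (-((y i : ℝ) * Real.log 2)) *
        ∑ h ∈ (Icc 1 H).filter (fun h => 2 < Fw w h), Real.exp ((y i : ℝ) * gw (y i) h) ≤
        G i * Real.exp (-((y i : ℝ) * Real.log 2)) * (H * Real.exp 2) :=
          mul_le_mul_of_nonneg_left c1 (by positivity)
      _ = (G i * Real.exp (-((y i : ℝ) * Real.log 2)) * Real.exp 2) * H := by ring
      _ ≤ (η * (1 / 2) ^ (i + 1)) * H := mul_le_mul_of_nonneg_right c4 (Nat.cast_nonneg _)
      _ = _ := by ring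
  refine (sum_le_sum hone).trans ?_
  rw [← mul_sum]
  have hgeo : ∑ i ∈ range H, (1 / 2 : ℝ) ^ (i + 1) ≤ 1 := by
    have : ∀ H : ℕ, ∑ i ∈ range H, (1 / 2 : ℝ) ^ (i + 1) = 1 - (1 / 2) ^ H := by
      intro H
      induction H with
      | zero => simp
      | succ n ih => rw [sum_range_succ, ih]; ring
    rw [this]
    have : (0 : ℝ) ≤ (1 / 2) ^ H := by positivity
    linarith
  calc η * H * ∑ i ∈ range H, (1 / 2 : ℝ) ^ (i + 1) ≤ η * H * 1 := mul_le_mul_of_nonneg_left hgeo (by positivity)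
    _ = _ := mul_one _

/-- exponential moments -/
theorem moments (c : ℝ) (hc : 0 ≤ c) (k : ℕ) : ∃ K : ℝ, 1 ≤ K ∧ ∀ H : ℕ,
    ∑ h ∈ Icc 1 H, Real.exp (c * Fw 0 h ^ k) ≤ K * H := by
  classical
  obtain ⟨C₁, hC1, hP⟩ := Pw_le
  obtain ⟨w, hw3, hw⟩ := tails (c * C₁ ^ k) (by positivity) k 1 one_pos
  have hlw : 0 ≤ Real.log (w : ℝ) := Real.log_natCast_nonneg w
  obtain ⟨K₁, hK₁⟩ : ∃ K₁ : ℝ, K₁ = Real.exp (c * (C₁ * Real.log w * 2) ^ k) := ⟨_, rfl⟩
  have hK0 : 1 ≤ K₁ := by rw [hK₁]; exact Real.one_le_exp (by positivity)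
  refine ⟨K₁ + 1, by linarith, fun H => ?_⟩
  have h1 : ∀ h : ℕ, Fw 0 h ≤ C₁ * Real.log w * Fw w h := by
    intro h
    refine (Fw_split 0 w h (Nat.zero_le _)).trans ?_
    exact mul_le_mul_of_nonneg_right (hP w hw3) (zero_le_one.trans (one_le_Fw w h))
  have h0 : ∀ h : ℕ, 0 ≤ Fw 0 h := fun h => zero_le_one.trans (one_le_Fw 0 h)
  rw [← sum_filter_add_sum_filter_not (Icc 1 H) (fun h => 2 < Fw w h)]
  have h2 : ∑ h ∈ (Icc 1 H).filter (fun h => 2 < Fw w h), Real.exp (c * Fw 0 h ^ k) ≤ 1 * H := by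
    refine le_trans (sum_le_sum fun h _ => ?_) (hw w le_rfl H)
    apply Real.exp_le_exp.2
    rw [mul_assoc, ← mul_pow]
    apply mul_le_mul_of_nonneg_left _ hc
    apply pow_le_pow_left₀ (h0 h)
    refine (h1 h).trans (le_of_eq (by ring))
  have h3 : ∑ h ∈ (Icc 1 H).filter (fun h => ¬ 2 < Fw w h), Real.exp (c * Fw 0 h ^ k) ≤ K₁ * H := by
    have h4 : ∀ h ∈ (Icc 1 H).filter (fun h => ¬ 2 < Fw w h), Real.exp (c * Fw 0 h ^ k) ≤ K₁ := by
      intro h hh
      rw [mem_filter] at hh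
      rw [hK₁]
      apply Real.exp_le_exp.2
      apply mul_le_mul_of_nonneg_left _ hc
      apply pow_le_pow_left₀ (h0 h)
      refine (h1 h).trans ?_
      exact mul_le_mul_of_nonneg_left (not_lt.1 hh.2) (by positivity)
    refine (sum_le_sum h4).trans ?_
    rw [sum_const, nsmul_eq_mul, mul_comm]
    apply mul_le_mul_of_nonneg_left _ (by linarith)
    have h5 := card_filter_le (Icc 1 H) (fun h => ¬ 2 < Fw w h)
    rw [Nat.card_Icc, Nat.add_sub_cancel] at h5
    exact_mod_cast h5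
  linarith

/-- small multiples -/
theorem moments_small (c : ℝ) (hc : 0 ≤ c) (k : ℕ) (η : ℝ) (hη : 0 < η) : ∃ δ : ℝ, 0 < δ ∧ δ ≤ 1 ∧ ∀ H : ℕ,
    ∑ h ∈ Icc 1 H, (Real.exp (δ * (c * Fw 0 h ^ k)) - 1) ≤ η * H := by
  obtain ⟨K, hK1, hK⟩ := moments c hc k
  have hm : 0 < min 1 (η / K) := lt_min one_pos (by positivity)
  refine ⟨min 1 (η / K), hm, min_le_left _ _, fun H => ?_⟩
  obtain ⟨δ, hδ⟩ : ∃ δ, δ = min 1 (η / K) := ⟨_, rfl⟩
  rw [← hδ] at hm ⊢
  have hδ1 : δ ≤ 1 := by rw [hδ]; exact min_le_left _ _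
  have hδ2 : δ * K ≤ η := by
    have : δ ≤ η / K := by rw [hδ]; exact min_le_right _ _
    rwa [le_div_iff₀ (by linarith)] at this
  have h1 : ∀ h ∈ Icc 1 H, Real.exp (δ * (c * Fw 0 h ^ k)) - 1 ≤ δ * Real.exp (c * Fw 0 h ^ k) := by
    intro h _
    have h2 := convexOn_exp.2 (Set.mem_univ (c * Fw 0 h ^ k)) (Set.mem_univ 0) hm.le (by linarith : 0 ≤ 1 - δ) (by ring)
    simp only [smul_eq_mul, mul_zero, add_zero, Real.exp_zero, mul_one] at h2
    linarith
  refine (sum_le_sum h1).trans ?_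
  rw [← mul_sum]
  calc δ * ∑ h ∈ Icc 1 H, Real.exp (c * Fw 0 h ^ k) ≤ δ * (K * H) := mul_le_mul_of_nonneg_left (hK H) hm.le
    _ = δ * K * H := by ring
    _ ≤ η * H := mul_le_mul_of_nonneg_right hδ2 (Nat.cast_nonneg _)

/-- the sharp mean for the primes above `w` -/
theorem sharp (η : ℝ) (hη : 0 < η) : ∃ w₀ : ℕ, 3 ≤ w₀ ∧ ∀ w : ℕ, w₀ ≤ w → ∀ H : ℕ,
    ∑ h ∈ Icc 1 H, (Real.exp (2 * Pw w * (Fw w h - 1)) - 1) ≤ η * H := by
  classical
  obtain ⟨C₁, hC1, hP⟩ := Pw_le
  obtain ⟨w₁, hw13, hw1⟩ := tails (2 * C₁) (by positivity) 1 (η / 2) (by positivity)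
  obtain ⟨η', hη'⟩ : ∃ η' : ℝ, η' = min η 1 := ⟨_, rfl⟩
  have hη0 : 0 < η' := by rw [hη']; exact lt_min hη one_pos
  have hη1 : η' ≤ 1 := by rw [hη']; exact min_le_right _ _
  have hη2 : η' ≤ η := by rw [hη']; exact min_le_left _ _
  obtain ⟨x₀, hx₀⟩ := eventually_atTop.1 (Pool.Agent.N384.MQ.ev_log_pow 1 (32 * C₁ / η'))
  refine ⟨max w₁ x₀, le_max_of_le_left hw13, fun w hw H => ?_⟩
  have hw2 := hw1 w ((le_max_left _ _).trans hw) H
  have hw3 : 3 ≤ w := hw13.trans ((le_max_left _ _).trans hw)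
  have hwr : (3 : ℝ) ≤ w := by exact_mod_cast hw3
  have hlw : 0 ≤ Real.log (w : ℝ) := Real.log_natCast_nonneg w
  have hx := hx₀ w ((le_max_right _ _).trans hw)
  rw [pow_one] at hx
  have hPw := hP w hw3
  have hPw1 := one_le_Pw w
  obtain ⟨ω, hω⟩ : ∃ ω, ω = Pw w := ⟨_, rfl⟩
  rw [← hω] at hPw hPw1 ⊢
  have hωw : 32 * ω ≤ η' * w := by
    have h1 : 32 * C₁ / η' * Real.log w * η' ≤ w * η' := mul_le_mul_of_nonneg_right hx hη0.le
    have h2 : 32 * C₁ / η' * Real.log w * η' = 32 * (C₁ * Real.log w) := by field_simp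
    linarith
  rw [← sum_filter_add_sum_filter_not (Icc 1 H) (fun h => 2 < Fw w h)]
  have h1 : ∑ h ∈ (Icc 1 H).filter (fun h => 2 < Fw w h), (Real.exp (2 * ω * (Fw w h - 1)) - 1) ≤ η / 2 * H := by
    refine le_trans (sum_le_sum fun h _ => ?_) hw2
    have h2 : Real.exp (2 * ω * (Fw w h - 1)) ≤ Real.exp (2 * C₁ * (Real.log w * Fw w h) ^ 1) := by
      apply Real.exp_le_exp.2
      rw [pow_one]
      have h3 := one_le_Fw w h
      calc 2 * ω * (Fw w h - 1) ≤ 2 * ω * Fw w h := by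
            apply mul_le_mul_of_nonneg_left _ (by linarith)
            linarith
        _ ≤ 2 * (C₁ * Real.log w) * Fw w h := by
            apply mul_le_mul_of_nonneg_right _ (by linarith)
            linarith
        _ = _ := by ring
    linarith
  have h2 : ∑ h ∈ (Icc 1 H).filter (fun h => ¬ 2 < Fw w h), (Real.exp (2 * ω * (Fw w h - 1)) - 1) ≤ η / 2 * H := by
    have h3 : ∀ h ∈ (Icc 1 H).filter (fun h => ¬ 2 < Fw w h), Real.exp (2 * ω * (Fw w h - 1)) - 1 ≤
        Real.exp (4 * ω * gw w h) - 1 := by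
      intro h hh
      rw [mem_filter, not_lt] at hh
      have a1 := Fw_ge w h
      have a2 := Fw_le_exp w h
      have a3 := gw_nonneg w h
      have a4 : gw w h ≤ 1 := by linarith [hh.2]
      have a5 : Real.exp (gw w h) ≤ 1 + 2 * gw w h := by
        have h8 := Real.exp_bound' a3 a4 (n := 2) (by norm_num)
        simp only [Finset.sum_range_succ, Finset.sum_range_zero, pow_zero, pow_one, Nat.factorial] at h8
        norm_num at h8
        nlinarith
      have a6 : Real.exp (2 * ω * (Fw w h - 1)) ≤ Real.exp (4 * ω * gw w h) := by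
        apply Real.exp_le_exp.2
        have : Fw w h - 1 ≤ 2 * gw w h := by linarith
        calc 2 * ω * (Fw w h - 1) ≤ 2 * ω * (2 * gw w h) := mul_le_mul_of_nonneg_left this (by linarith)
          _ = _ := by ring
      linarith
    refine (sum_le_sum h3).trans ?_
    have h4 : ∑ h ∈ (Icc 1 H).filter (fun h => ¬ 2 < Fw w h), (Real.exp (4 * ω * gw w h) - 1) ≤
        ∑ h ∈ Icc 1 H, (Real.exp (4 * ω * gw w h) - 1) := by
      apply sum_le_sum_of_subset_of_nonneg (filter_subset _ _)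
      intro h _ _
      have := gw_nonneg w h
      have : 1 ≤ Real.exp (4 * ω * gw w h) := Real.one_le_exp (by positivity)
      linarith
    refine h4.trans ?_
    rw [sum_sub_distrib, sum_const, Nat.card_Icc, Nat.add_sub_cancel, nsmul_eq_mul, mul_one]
    have h5 := mean (4 * ω) w H (by linarith) (by nlinarith) (by omega)
    obtain ⟨u, hu⟩ : ∃ u, u = 2 * (4 * ω) / (w : ℝ) := ⟨_, rfl⟩
    rw [← hu] at h5
    have hu0 : 0 ≤ u := by rw [hu]; positivity
    have hu1 : u ≤ η' / 4 := by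
      rw [hu, div_le_iff₀ (by linarith)]
      linarith
    have h6 : Real.exp u ≤ 1 + 2 * u := by
      have h8 := Real.exp_bound' hu0 (by linarith) (n := 2) (by norm_num)
      simp only [Finset.sum_range_succ, Finset.sum_range_zero, pow_zero, pow_one, Nat.factorial] at h8
      norm_num at h8
      nlinarith
    have hH : (0 : ℝ) ≤ H := Nat.cast_nonneg H
    have h7 : H * Real.exp u ≤ H * (1 + η / 2) := mul_le_mul_of_nonneg_left (by linarith) hH
    linarith
  linarith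

end Pool.Agent.Run7.h931.RS
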