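import Pool.Agent.Run7.h931.RS.Core

/-!
# Random shifts, part 7: the second moment of one coordinate
-/

set_option autoImplicit false

namespace Pool.Agent.Run7.h931.RS

open Finset Filter

lemma good_ineq {L q P W K δ F C D D' Uc : ℝ} (hL : 0 < L) (hq : 0 < q) (hP : 1 ≤ P) (hδ : 0 < δ) (hδ1 : δ ≤ 1 / 4)
    (hKL : 4 * K ≤ δ * L) (hW : 4 * (P * W) ≤ δ * q) (hC : C ≤ (1 + δ) * (P * F) * (q / L ^ 2))
    (hD : q / L - K * (q / L ^ 2) ≤ D) (hD' : q / L - K * (q / L ^ 2) ≤ D') (hU0 : 0 < Uc) (hU : Uc ≤ q / P + W) :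
    C - D * D' / Uc ≤ ((1 + δ) * (P * F) - (1 - δ) * P) * (q / L ^ 2) := by
  have h1 : (1 - δ / 4) * (q / L) ≤ q / L - K * (q / L ^ 2) := by
    have e1 : K * (q / L ^ 2) = (K / L) * (q / L) := by field_simp
    have e2 : K / L ≤ δ / 4 := by rw [div_le_iff₀ hL]; linarith
    have e3 : (K / L) * (q / L) ≤ (δ / 4) * (q / L) := mul_le_mul_of_nonneg_right e2 (by positivity)
    rw [e1]
    linarith
  have h2 : 0 ≤ (1 - δ / 4) * (q / L) := mul_nonneg (by linarith) (by positivity)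
  have h3 : ((1 - δ / 4) * (q / L)) * ((1 - δ / 4) * (q / L)) ≤ D * D' :=
    mul_le_mul (h1.trans hD) (h1.trans hD') h2 (h2.trans (h1.trans hD))
  have h4 : Uc ≤ (1 + δ / 4) * (q / P) := by
    have : W ≤ δ / 4 * (q / P) := by
      have : W = (P * W) / P := by field_simp
      rw [this, ← mul_div_assoc]
      apply div_le_div_of_nonneg_right _ (by linarith)
      linarith
    linarith
  have h5 : (1 - δ) * P * (q / L ^ 2) ≤ D * D' / Uc := by
    rw [le_div_iff₀ hU0]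
    refine le_trans ?_ h3
    calc (1 - δ) * P * (q / L ^ 2) * Uc ≤ (1 - δ) * P * (q / L ^ 2) * ((1 + δ / 4) * (q / P)) := by
          apply mul_le_mul_of_nonneg_left h4
          have : 0 ≤ 1 - δ := by linarith
          positivity
      _ = ((1 - δ) * (1 + δ / 4)) * (q / L) ^ 2 := by field_simp
      _ ≤ (1 - δ / 4) ^ 2 * (q / L) ^ 2 := by
          apply mul_le_mul_of_nonneg_right _ (by positivity)
          nlinarith
      _ = _ := by ring
  linarith

/-- the data of one coordinate -/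
structure Cd (w : ℕ) (L δ K : ℝ) (q b n : ℕ) : Prop where
  hL : 0 < L
  hq : 0 < q
  hδ : 0 < δ
  hδ1 : δ ≤ 1 / 4
  hKL : 4 * K ≤ δ * L
  hPL : 8 * Pw w ≤ δ * L
  hW : 4 * (Pw w * Wd w) ≤ δ * q
  hn : w < n
  hWn : Wd w ∣ n
  lo : (q : ℝ) / L - K * (q / L ^ 2) ≤ Dc (n + b) q
  hi : (Dc (n + b) q : ℝ) ≤ q / L + K * (q / L ^ 2)

lemma Cd.ub {w : ℕ} {L δ K : ℝ} {q b n : ℕ} (h : Cd w L δ K q b n) : ((hit b q n).card : ℝ) ≤ (1 + δ / 4) * (q / L) := by
  rw [hit_card]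
  refine h.hi.trans ?_
  have hL := h.hL
  have hq : (0 : ℝ) < q := by exact_mod_cast h.hq
  have e1 : K * (q / L ^ 2) = (K / L) * (q / L) := by field_simp
  have e2 : K / L ≤ δ / 4 := by rw [div_le_iff₀ hL]; linarith [h.hKL]
  have e3 : (K / L) * (q / L) ≤ (δ / 4) * (q / L) := mul_le_mul_of_nonneg_right e2 (by positivity)
  rw [e1]
  linarith

lemma Cd.ucard {w : ℕ} {L δ K : ℝ} {q b n : ℕ} (h : Cd w L δ K q b n) : (1 - δ / 4) * (q / Pw w) ≤ (cop (Wd w) b q).card ∧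
    ((cop (Wd w) b q).card : ℝ) ≤ (1 + δ / 4) * (q / Pw w) ∧ 0 < (cop (Wd w) b q).card ∧
    ((cop (Wd w) b q).card : ℝ) ≤ q / Pw w + Wd w := by
  have h1 := abs_le.1 (cop_card w b q)
  have hP := one_le_Pw w
  have hq : (0 : ℝ) < q := by exact_mod_cast h.hq
  have h2 : (Wd w : ℝ) ≤ δ / 4 * (q / Pw w) := by
    have : (Wd w : ℝ) = (Pw w * Wd w) / Pw w := by field_simp
    rw [this, ← mul_div_assoc]
    apply div_le_div_of_nonneg_right _ (by linarith)
    linarith [h.hW]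
  have h3 : 0 < (1 - δ / 4) * (q / Pw w) := mul_pos (by linarith [h.hδ1]) (by positivity)
  have h4 : (1 - δ / 4) * (q / Pw w) ≤ (cop (Wd w) b q).card := by linarith
  refine ⟨h4, by linarith, ?_, by linarith⟩
  exact_mod_cast h3.trans_le h4

lemma Cd.theta {w : ℕ} {L δ K : ℝ} {q b n : ℕ} (h : Cd w L δ K q b n) :
    ((hit b q n).card : ℝ) ≤ (δ / 4) * (cop (Wd w) b q).card := by
  have h1 := h.ub
  have h2 := h.ucard.1
  have hL := h.hL
  have hδ := h.hδ
  have hδ1 := h.hδ1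
  have hP := one_le_Pw w
  have hq : (0 : ℝ) < q := by exact_mod_cast h.hq
  have h3 : (δ / 4) * ((1 - δ / 4) * (q / Pw w)) ≤ (δ / 4) * (cop (Wd w) b q).card :=
    mul_le_mul_of_nonneg_left h2 (by positivity)
  refine (h1.trans ?_).trans h3
  rw [mul_div_assoc', mul_div_assoc', mul_div_assoc', div_le_div_iff₀ hL (by linarith)]
  have h4 := h.hPL
  have h5 : (1 + δ / 4) * q * Pw w = q * ((1 + δ / 4) * Pw w) := by ring
  have h6 : δ / 4 * ((1 - δ / 4) * q) * L = q * ((1 - δ / 4) * (δ * L) / 4) := by ring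
  rw [h5, h6]
  apply mul_le_mul_of_nonneg_left _ hq.le
  nlinarith

/-- a common bound for one coordinate -/
lemma Cd.pair {w : ℕ} {L δ K : ℝ} {q b n n' : ℕ} (h : Cd w L δ K q b n) (h' : Cd w L δ K q b n') (Y : ℝ) (hY : 0 ≤ Y)
    (hAA : ((hit b q n ∩ hit b q n').card : ℝ) - (hit b q n).card * (hit b q n').card / (cop (Wd w) b q).card ≤ Y * q) :
    ∑ v ∈ Ioc b (b + q), wt (cop (Wd w) b q) (hit b q n) v * wt (cop (Wd w) b q) (hit b q n') v ≤
      Real.exp ((1 + δ) * Y) * (Ioc b (b + q)).card := by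
  have hδ := h.hδ
  have hδ1 := h.hδ1
  have hq : (0 : ℝ) < q := by exact_mod_cast h.hq
  refine (wt_pair_le (Ioc b (b + q)) (cop (Wd w) b q) (hit b q n) (hit b q n') (filter_subset _ _)
    (hit_sub w b q n h.hn h.hWn) (hit_sub w b q n' h'.hn h'.hWn) (δ / 4) (Y * q) (by positivity) (by linarith) h.ucard.2.2.1
    h.theta h'.theta (by positivity) hAA).trans ?_
  apply mul_le_mul_of_nonneg_right _ (Nat.cast_nonneg _)
  apply Real.exp_le_exp.2
  rw [Nat.card_Ioc, Nat.add_sub_cancel_left]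
  have h1 : (0 : ℝ) < (1 - δ / 4) ^ 2 := by
    have : 0 < 1 - δ / 4 := by linarith
    positivity
  rw [div_le_iff₀ (by positivity)]
  have h2 : 1 ≤ (1 + δ) * (1 - δ / 4) ^ 2 := by nlinarith [mul_nonneg hδ.le (sub_nonneg.2 hδ1)]
  calc Y * q = Y * q * 1 := by ring
    _ ≤ Y * q * ((1 + δ) * (1 - δ / 4) ^ 2) := mul_le_mul_of_nonneg_left h2 (by positivity)
    _ = _ := by ring

lemma Cd.diag {w : ℕ} {L δ K : ℝ} {q b n : ℕ} (h : Cd w L δ K q b n) :
    ∑ v ∈ Ioc b (b + q), wt (cop (Wd w) b q) (hit b q n) v * wt (cop (Wd w) b q) (hit b q n) v ≤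
      Real.exp ((1 + 3 * δ) / L) * (Ioc b (b + q)).card := by
  have hδ := h.hδ
  have hδ1 := h.hδ1
  have hL := h.hL
  refine (h.pair h ((1 + δ / 4) / L) (by positivity) ?_).trans ?_
  · rw [inter_self]
    have h1 := h.ub
    have h2 : 0 ≤ ((hit b q n).card : ℝ) * (hit b q n).card / (cop (Wd w) b q).card := by positivity
    have h3 : (1 + δ / 4) * (q / L) = (1 + δ / 4) / L * q := by ring
    linarith
  · apply mul_le_mul_of_nonneg_right _ (Nat.cast_nonneg _)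
    apply Real.exp_le_exp.2
    rw [mul_div_assoc']
    apply div_le_div_of_nonneg_right _ hL.le
    nlinarith

lemma Cd.bad {w : ℕ} {L δ K : ℝ} {q b n h : ℕ} (hn : Cd w L δ K q b n) (hn' : Cd w L δ K q b (n + h)) (B : ℝ) (hB : 0 ≤ B)
    (hC : (Cc (n + b) q h : ℝ) ≤ B * (q / L ^ 2)) :
    ∑ v ∈ Ioc b (b + q), wt (cop (Wd w) b q) (hit b q n) v * wt (cop (Wd w) b q) (hit b q (n + h)) v ≤
      Real.exp (2 * B / L ^ 2) * (Ioc b (b + q)).card := by
  have hδ := hn.hδ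
  have hδ1 := hn.hδ1
  have hL := hn.hL
  refine (hn.pair hn' (B / L ^ 2) (by positivity) ?_).trans ?_
  · rw [hit_inter]
    have h2 : 0 ≤ ((hit b q n).card : ℝ) * (hit b q (n + h)).card / (cop (Wd w) b q).card := by positivity
    have h3 : B * (q / L ^ 2) = B / L ^ 2 * q := by ring
    linarith
  · apply mul_le_mul_of_nonneg_right _ (Nat.cast_nonneg _)
    apply Real.exp_le_exp.2
    rw [mul_div_assoc']
    apply div_le_div_of_nonneg_right _ (by positivity)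
    nlinarith

lemma Cd.good {w : ℕ} {L δ K : ℝ} {q b n h : ℕ} (hn : Cd w L δ K q b n) (hn' : Cd w L δ K q b (n + h)) (F : ℝ) (hF : 1 ≤ F)
    (hC : (Cc (n + b) q h : ℝ) ≤ (1 + δ) * (Pw w * F) * (q / L ^ 2)) :
    ∑ v ∈ Ioc b (b + q), wt (cop (Wd w) b q) (hit b q n) v * wt (cop (Wd w) b q) (hit b q (n + h)) v ≤
      Real.exp ((2 * Pw w * (F - 1) + 4 * δ * Pw w) / L ^ 2) * (Ioc b (b + q)).card := by
  have hδ := hn.hδ
  have hδ1 := hn.hδ1
  have hL := hn.hL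
  have hP := one_le_Pw w
  have hq : (0 : ℝ) < q := by exact_mod_cast hn.hq
  have hFP : 0 ≤ Pw w * (F - 1) := mul_nonneg (by linarith) (by linarith)
  have e0 : (1 + δ) * (Pw w * F) - (1 - δ) * Pw w = (1 + δ) * (Pw w * (F - 1)) + 2 * δ * Pw w := by ring
  have hY0 : 0 ≤ (1 + δ) * (Pw w * F) - (1 - δ) * Pw w := by
    rw [e0]
    positivity
  refine (hn.pair hn' (((1 + δ) * (Pw w * F) - (1 - δ) * Pw w) / L ^ 2) (by positivity) ?_).trans ?_
  · rw [hit_inter, hit_card, hit_card]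
    have h1 := good_ineq hL hq hP hδ hδ1 hn.hKL hn.hW hC hn.lo hn'.lo (by exact_mod_cast hn.ucard.2.2.1) hn.ucard.2.2.2
    refine h1.trans (le_of_eq ?_)
    ring
  · apply mul_le_mul_of_nonneg_right _ (Nat.cast_nonneg _)
    apply Real.exp_le_exp.2
    rw [mul_div_assoc', e0]
    apply div_le_div_of_nonneg_right _ (by positivity)
    have h1 : (1 + δ) * ((1 + δ) * (Pw w * (F - 1)) + 2 * δ * Pw w) =
        (1 + δ) ^ 2 * (Pw w * (F - 1)) + (1 + δ) * (2 * δ * Pw w) := by ring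
    rw [h1]
    have h2 : (1 + δ) ^ 2 * (Pw w * (F - 1)) ≤ 2 * (Pw w * (F - 1)) := mul_le_mul_of_nonneg_right (by nlinarith) hFP
    have h3 : (1 + δ) * (2 * δ * Pw w) ≤ 2 * (2 * δ * Pw w) := mul_le_mul_of_nonneg_right (by linarith) (by positivity)
    linarith

end Pool.Agent.Run7.h931.RS
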