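import Pool.Agent.Run7.h931.RS.Nt
import Pool.Agent.H373R2.T7.Sys1
import Pool.Agent.W93.TD5

/-!
# Random shifts, part 5: prime pairs on average, upper bound with the sharp constant
-/

set_option autoImplicit false

namespace Pool.Agent.Run7.h931.RS

open Finset Filter
open Pool.Agent.H373R2.T7 (singZ nuP tupleCount lamI lamzI vl sys_diff ev_L' ev_log')

lemma nu_ge_one (h : ℕ) (p : ℕ) (hp : p.Prime) : 1 ≤ nuP (fun _ : Fin 1 => (h : ℤ)) p := by
  classical
  unfold nuP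
  rw [Nat.one_le_iff_ne_zero, ← Nat.pos_iff_ne_zero, card_pos]
  exact ⟨0, by rw [mem_filter, mem_range]; exact ⟨hp.pos, Or.inl (dvd_zero p)⟩⟩

lemma nu_ge_two (h : ℕ) (p : ℕ) (hp : p.Prime) (hh : ¬ p ∣ h) : 2 ≤ nuP (fun _ : Fin 1 => (h : ℤ)) p := by
  classical
  unfold nuP
  have h1 : 0 < h % p := Nat.pos_of_ne_zero fun h0 => hh (Nat.dvd_of_mod_eq_zero h0)
  have h2 : h % p < p := Nat.mod_lt _ hp.pos
  have h3 : (0 : ℕ) ≠ p - h % p := by omega
  rw [← card_pair h3]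
  apply card_le_card
  intro r hr
  rw [mem_insert, mem_singleton] at hr
  rw [mem_filter, mem_range]
  rcases hr with rfl | rfl
  · exact ⟨hp.pos, Or.inl (dvd_zero p)⟩
  · refine ⟨by omega, Or.inr ⟨0, ?_⟩⟩
    have h4 : ((p - h % p : ℕ) : ℤ) + h = p * (1 + h / p : ℕ) := by
      have h5 := Nat.mod_add_div h p
      have h6 : p - h % p + h = p * (1 + h / p) := by
        rw [mul_add, mul_one]
        omega
      exact_mod_cast h6
    exact ⟨((1 + h / p : ℕ) : ℤ), h4⟩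

lemma nu_le (h : ℕ) (p : ℕ) : nuP (fun _ : Fin 1 => (h : ℤ)) p ≤ p := by
  classical
  unfold nuP
  exact (card_filter_le _ _).trans (by rw [card_range])

lemma singZ_nn (h z : ℕ) : 0 ≤ singZ (fun _ : Fin 1 => (h : ℤ)) z := by
  unfold singZ
  apply prod_nonneg
  intro p hp
  rw [mem_filter] at hp
  have h2 : (2 : ℝ) ≤ p := by exact_mod_cast hp.2.two_le
  have h3 : (nuP (fun _ : Fin 1 => (h : ℤ)) p : ℝ) ≤ p := by exact_mod_cast nu_le h p
  have h4 : (nuP (fun _ : Fin 1 => (h : ℤ)) p : ℝ) / p ≤ 1 := by rw [div_le_one (by linarith)]; exact h3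
  have h5 : 0 ≤ 1 - 1 / (p : ℝ) := by
    have : 1 / (p : ℝ) ≤ 1 := by rw [div_le_one (by linarith)]; linarith
    linarith
  exact div_nonneg (by linarith) (pow_nonneg h5 _)

/-- the singular series is at most `h / φ(h)` -/
lemma singZ_le_Fw (h z : ℕ) (hh : 1 ≤ h) : singZ (fun _ : Fin 1 => (h : ℤ)) z ≤ Fw 0 h := by
  classical
  unfold singZ Fw
  have h1 : ∏ p ∈ (Icc 1 z).filter Nat.Prime, (1 - (nuP (fun _ : Fin 1 => (h : ℤ)) p : ℝ) / p) / (1 - 1 / (p : ℝ)) ^ (1 + 1) ≤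
      ∏ p ∈ (Icc 1 z).filter Nat.Prime, (if p ∣ h then (p : ℝ) / ((p : ℝ) - 1) else 1) := by
    apply Finset.prod_le_prod
    · intro p hp
      rw [mem_filter] at hp
      have h2 : (2 : ℝ) ≤ p := by exact_mod_cast hp.2.two_le
      have h3 : (nuP (fun _ : Fin 1 => (h : ℤ)) p : ℝ) ≤ p := by exact_mod_cast nu_le h p
      have h4 : (nuP (fun _ : Fin 1 => (h : ℤ)) p : ℝ) / p ≤ 1 := by rw [div_le_one (by linarith)]; exact h3
      have h5 : 0 ≤ 1 - 1 / (p : ℝ) := by
        have : 1 / (p : ℝ) ≤ 1 := by rw [div_le_one (by linarith)]; linarith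
        linarith
      exact div_nonneg (by linarith) (pow_nonneg h5 _)
    · intro p hp
      rw [mem_filter] at hp
      have h2 : (2 : ℝ) ≤ p := by exact_mod_cast hp.2.two_le
      have h0 : (0 : ℝ) < p := by linarith
      have h5 : 0 < 1 - 1 / (p : ℝ) := by
        have : 1 / (p : ℝ) ≤ 1 / 2 := one_div_le_one_div_of_le (by norm_num) h2
        linarith
      split_ifs with hd
      · have h3 : (1 : ℝ) ≤ nuP (fun _ : Fin 1 => (h : ℤ)) p := by exact_mod_cast nu_ge_one h p hp.2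
        rw [div_le_div_iff₀ (by positivity) (by linarith)]
        have h6 : (1 : ℝ) / p ≤ (nuP (fun _ : Fin 1 => (h : ℤ)) p : ℝ) / p := div_le_div_of_nonneg_right h3 h0.le
        have h7 : (p : ℝ) * (1 - 1 / (p : ℝ)) = (p : ℝ) - 1 := by field_simp
        have h8 : (p : ℝ) * (1 - 1 / (p : ℝ)) ^ (1 + 1) = (1 - 1 / (p : ℝ)) * ((p : ℝ) - 1) := by
          rw [← h7]; ring
        rw [h8]
        exact mul_le_mul_of_nonneg_right (by linarith) (by linarith)
      · have h3 : (2 : ℝ) ≤ nuP (fun _ : Fin 1 => (h : ℤ)) p := by exact_mod_cast nu_ge_two h p hp.2 hd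
        rw [div_le_one (by positivity)]
        have h6 : (2 : ℝ) / p ≤ (nuP (fun _ : Fin 1 => (h : ℤ)) p : ℝ) / p := div_le_div_of_nonneg_right h3 h0.le
        have h7 : (2 : ℝ) / p = 1 / p + 1 / p := by ring
        have h9 : 0 ≤ (1 / (p : ℝ)) ^ 2 := by positivity
        nlinarith
  refine h1.trans ?_
  rw [← prod_filter]
  apply Finset.prod_le_prod_of_subset_of_one_le
  · intro p hp
    rw [mem_filter, mem_filter] at hp
    rw [mem_filter, Nat.mem_primeFactors]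
    exact ⟨⟨hp.1.2, hp.2, by omega⟩, hp.1.2.pos⟩
  · intro p hp
    rw [mem_filter, mem_filter] at hp
    have := fac_ge hp.1.2
    linarith
  · intro p hp _
    exact fac_ge (Nat.prime_of_mem_primeFactors (mem_filter.1 hp).1)

/-- the weighted number of the prime pairs in a window -/
lemma pairs_window (x q h : ℕ) (hx : 1 ≤ x) : Cc x q h * Real.log x ^ 2 ≤
    tupleCount (fun _ : Fin 1 => (h : ℤ)) (x + q) - tupleCount (fun _ : Fin 1 => (h : ℤ)) x := by
  classical
  unfold tupleCount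
  have hsub : (Icc 1 x).filter (fun p : ℕ => p.Prime ∧ ∀ i : Fin 1, ((p : ℤ) + (fun _ : Fin 1 => (h : ℤ)) i).toNat.Prime) ⊆
      (Icc 1 (x + q)).filter (fun p : ℕ => p.Prime ∧ ∀ i : Fin 1, ((p : ℤ) + (fun _ : Fin 1 => (h : ℤ)) i).toNat.Prime) := by
    intro p hp
    rw [mem_filter, mem_Icc] at hp ⊢
    exact ⟨⟨hp.1.1, by omega⟩, hp.2⟩
  rw [← sum_sdiff hsub, add_sub_cancel_right]
  unfold Cc
  have hset : (Ioc x (x + q)).filter (fun t => t.Prime ∧ (t + h).Prime) =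
      (Icc 1 (x + q)).filter (fun p : ℕ => p.Prime ∧ ∀ i : Fin 1, ((p : ℤ) + (fun _ : Fin 1 => (h : ℤ)) i).toNat.Prime) \
      (Icc 1 x).filter (fun p : ℕ => p.Prime ∧ ∀ i : Fin 1, ((p : ℤ) + (fun _ : Fin 1 => (h : ℤ)) i).toNat.Prime) := by
    ext t
    have e : ((t : ℤ) + (h : ℤ)).toNat = t + h := by omega
    have hP : (∀ i : Fin 1, ((t : ℤ) + (fun _ : Fin 1 => (h : ℤ)) i).toNat.Prime) ↔ (t + h).Prime := by
      constructor
      · intro hh
        have := hh 0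
        simp only at this
        rwa [e] at this
      · intro hh _
        simp only
        rwa [e]
    rw [Finset.mem_sdiff, mem_filter, mem_filter, mem_filter, mem_Ioc, mem_Icc, mem_Icc, hP]
    constructor
    · rintro ⟨⟨a, b⟩, c, d⟩
      exact ⟨⟨⟨by omega, b⟩, c, d⟩, fun hh => by omega⟩
    · rintro ⟨⟨⟨a, b⟩, c, d⟩, hh⟩
      refine ⟨⟨?_, b⟩, c, d⟩
      by_contra hcon
      exact hh ⟨⟨a, by omega⟩, c, d⟩
  rw [← hset, ← nsmul_eq_mul, ← sum_const]
  apply sum_le_sum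
  intro t ht
  rw [mem_filter, mem_Ioc] at ht
  rw [Fin.prod_univ_one, sq]
  have hxr : (1 : ℝ) ≤ x := by exact_mod_cast hx
  have ht1 : (x : ℝ) ≤ t := by exact_mod_cast ht.1.1.le
  have h0 : 0 ≤ Real.log x := Real.log_nonneg hxr
  have h1 : Real.log x ≤ Real.log t := Real.log_le_log (by linarith) ht1
  have h2 : Real.log x ≤ Real.log ((t : ℝ) + ((h : ℤ) : ℝ)) := by
    apply Real.log_le_log (by linarith)
    push_cast
    linarith [Nat.cast_nonneg (α := ℝ) h]
  exact mul_le_mul h1 h2 h0 (h0.trans h1)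

lemma sum_fin_one (A : Finset ℕ) (f : ℕ → ℝ) :
    ∑ a ∈ Fintype.piFinset (fun _ : Fin 1 => A), f (a 0) = ∑ h ∈ A, f h := by
  classical
  apply sum_nbij' (fun a => a 0) (fun h => fun _ => h)
  · intro a ha
    exact Fintype.mem_piFinset.1 ha 0
  · intro h hh
    exact Fintype.mem_piFinset.2 fun _ => hh
  · intro a _
    ext i
    rw [Subsingleton.elim i 0]
  · intro h _
    rfl
  · intro a _
    rfl

/-- the error term of the prime pairs up to `y` -/
noncomputable def er (z y h : ℕ) : ℝ := |∑ n ∈ Icc 1 y, ArithmeticFunction.vonMangoldt n *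
  (∏ _i : Fin 1, lamI ((n : ℤ) + (h : ℤ)) - ∏ _i : Fin 1, lamzI z ((n : ℤ) + (h : ℤ)))|

/-- the errors are small on average, for every prefix -/
theorem er_avg (T U : ℕ) : ∃ B0 : ℕ, ∀ E : ℕ, ∀ᶠ N : ℕ in atTop, ∀ z : ℕ,
    Real.log ((T + 2) * N : ℕ) ^ B0 ≤ z → (z : ℝ) ≤ Real.log ((T + 2) * N : ℕ) ^ E → ∀ y : ℕ, y ≤ (T + 2) * N →
    ∑ h ∈ Icc 1 N, er z y h ≤ (((T + 2) * N : ℕ) : ℝ) * N / Real.log N ^ U := by
  classical
  obtain ⟨B0, hB0⟩ := sys_diff (k := 1) (fun _ => Polynomial.X) (fun _ => by simp) (fun _ => by simp)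
    (fun _ => 1) (fun _ => Or.inl rfl) (T + 2) (by omega) U
  refine ⟨B0, fun E => ?_⟩
  obtain ⟨N0, hN0⟩ := hB0 E
  filter_upwards [eventually_ge_atTop N0, eventually_ge_atTop 3] with N h1 h2 z hz1 hz2 y hy
  obtain ⟨M, hM⟩ : ∃ M : ℕ, M = (T + 2) * N := ⟨_, rfl⟩
  rw [← hM] at hz1 hz2 hy ⊢
  have hNM : N ≤ M := by rw [hM]; exact Nat.le_mul_of_pos_left _ (by omega)
  have hMr : (3 : ℝ) ≤ M := by exact_mod_cast h2.trans hNM
  have a1 := hN0 M (h1.trans hNM) (fun _ => N) (fun i => by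
    rw [Polynomial.natDegree_X, pow_one]
    exact ⟨by nlinarith, le_of_eq hM⟩) z hz1 hz2 (fun n => if n ≤ y then ArithmeticFunction.vonMangoldt n else 0) (by
      intro n hn
      rw [mem_Icc] at hn
      split_ifs
      · rw [abs_of_nonneg ArithmeticFunction.vonMangoldt_nonneg]
        refine ArithmeticFunction.vonMangoldt_le_log.trans ?_
        exact Real.log_le_log (by exact_mod_cast hn.1) (by exact_mod_cast hn.2)
      · rw [abs_zero]
        exact Real.log_natCast_nonneg _)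
  have e1 : ∀ a : Fin 1 → ℕ, |∑ n ∈ Icc 1 M, (if n ≤ y then ArithmeticFunction.vonMangoldt n else 0) *
      (∏ i, lamI (vl (fun _ : Fin 1 => Polynomial.X) (fun _ => 1) a i n) -
        ∏ i, lamzI z (vl (fun _ : Fin 1 => Polynomial.X) (fun _ => 1) a i n))| = er z y (a 0) := by
    intro a
    unfold er
    congr 1
    have e2 : Icc 1 y = (Icc 1 M).filter (fun n => n ≤ y) := by
      ext n
      rw [mem_filter, mem_Icc, mem_Icc]
      constructor
      · rintro ⟨a, b⟩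
        exact ⟨⟨a, b.trans hy⟩, b⟩
      · rintro ⟨⟨a, _⟩, b⟩
        exact ⟨a, b⟩
    rw [e2, sum_filter]
    apply sum_congr rfl
    intro n _
    have e3 : ∀ i : Fin 1, vl (fun _ : Fin 1 => Polynomial.X) (fun _ => 1) a i n = (n : ℤ) + (a 0 : ℤ) := by
      intro i
      unfold vl
      rw [Polynomial.eval_X, Subsingleton.elim i 0]
      ring
    simp only [e3]
    split_ifs
    · rfl
    · rw [zero_mul]
  rw [sum_congr rfl fun a _ => e1 a, sum_fin_one (Icc 1 N) (fun h => er z y h)] at a1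
  rw [Fin.prod_univ_one] at a1
  refine a1.trans ?_
  have hN1 : (1 : ℝ) < N := by
    have : (3 : ℝ) ≤ N := by exact_mod_cast h2
    linarith
  apply div_le_div_of_nonneg_left (by positivity) (by
    have : 0 < Real.log N := Real.log_pos hN1
    positivity)
  apply pow_le_pow_left₀ (Real.log_nonneg hN1.le)
  exact Real.log_le_log (by linarith) (by exact_mod_cast hNM)

/-- prime pairs for almost all differences, with the sharp constant -/
theorem hl_up (T a A : ℕ) (δ : ℝ) (hδ : 0 < δ) : ∀ᶠ N : ℕ in atTop, ∀ x q : ℕ, N ≤ 2 * x → x ≤ (T + 1) * N →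
    (N : ℝ) ≤ q * Real.log N ^ a → q ≤ N → ∃ E : Finset ℕ, (E.card : ℝ) ≤ N / Real.log N ^ A ∧ ∀ h : ℕ, 1 ≤ h → h ≤ N →
      h ∉ E → (Cc x q h : ℝ) ≤ (1 + δ) * Fw 0 h * (q / Real.log N ^ 2) := by
  classical
  obtain ⟨B0, hB0⟩ := er_avg T (a + A + 2)
  obtain ⟨n0, hn0⟩ := Pool.Agent.W93.TD.det1 1 2 (B0 + 1) (a + 1) le_rfl
  obtain ⟨K, hK⟩ : ∃ K : ℝ, K = 2 + (T + 2) * 2 ^ (a + 1) := ⟨_, rfl⟩
  have hT : (0 : ℝ) ≤ T := Nat.cast_nonneg T
  have hK0 : 2 ≤ K := by rw [hK]; have : (0 : ℝ) ≤ (T + 2) * 2 ^ (a + 1) := by positivity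
                         linarith
  obtain ⟨n3, h3⟩ := ev_L' (2 * (T + 2) + 2 * (4 ^ B0 + 1) + (4 + 5 * K) / δ + 8)
  filter_upwards [hB0 (B0 + 1), eventually_ge_atTop (2 * n0), eventually_ge_atTop n3, eventually_ge_atTop 3] with
    N h1 g2 g3 g4 x q hxN hx hqa hq
  have hNr : (3 : ℝ) ≤ N := by exact_mod_cast g4
  have a3 := h3 N g3
  obtain ⟨L, hL⟩ : ∃ L, L = Real.log (N : ℝ) := ⟨_, rfl⟩
  obtain ⟨M, hM⟩ : ∃ M : ℕ, M = (T + 2) * N := ⟨_, rfl⟩
  rw [← hL] at a3 hqa ⊢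
  rw [← hM, ← hL] at h1
  have h4B : (1 : ℝ) ≤ 4 ^ B0 := one_le_pow₀ (by norm_num)
  have hKd : 0 ≤ (4 + 5 * K) / δ := by positivity
  have hL8 : 8 ≤ L := by linarith
  have hL0 : 0 < L := by linarith
  have hNM : N ≤ M := by rw [hM]; exact Nat.le_mul_of_pos_left _ (by omega)
  have hMr : (M : ℝ) = (T + 2) * N := by rw [hM]; push_cast; ring
  have hM0 : (0 : ℝ) < M := by rw [hMr]; positivity
  have hLM : L ≤ Real.log M := by
    rw [hL]
    exact Real.log_le_log (by linarith) (by exact_mod_cast hNM)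
  have hLM2 : Real.log M ≤ 2 * L := by
    rw [hMr, Real.log_mul (by positivity) (by positivity), ← hL]
    have : Real.log ((T : ℝ) + 2) ≤ T + 2 := (Real.log_le_sub_one_of_pos (by linarith)).trans (by linarith)
    linarith
  -- logarithms of the prefixes
  have hlogy : ∀ y : ℕ, N ≤ 2 * y → L - 1 ≤ Real.log y := by
    intro y hy
    have hyr : (N : ℝ) ≤ 2 * y := by exact_mod_cast hy
    have : Real.log N ≤ Real.log (2 * y) := Real.log_le_log (by linarith) hyr
    rw [Real.log_mul (by norm_num) (by linarith), ← hL] at this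
    linarith [Real.log_two_lt_d9]
  -- the level
  obtain ⟨z, hz⟩ : ∃ z : ℕ, z = ⌈Real.log (M : ℝ) ^ B0⌉₊ := ⟨_, rfl⟩
  have hlM0 : 0 ≤ Real.log (M : ℝ) := by linarith
  have hz1 : Real.log (M : ℝ) ^ B0 ≤ z := by rw [hz]; exact Nat.le_ceil _
  have hz2 : (z : ℝ) ≤ Real.log (M : ℝ) ^ B0 + 1 := by rw [hz]; exact (Nat.ceil_lt_add_one (by positivity)).le
  have hp1 : 1 ≤ Real.log (M : ℝ) ^ B0 := one_le_pow₀ (by linarith)
  have hz3 : (z : ℝ) ≤ Real.log (M : ℝ) ^ (B0 + 1) := by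
    refine hz2.trans ?_
    rw [pow_succ]
    nlinarith
  have hz4 : 1 ≤ z := by
    have : (1 : ℝ) ≤ z := hp1.trans hz1
    exact_mod_cast this
  have hz5 : ∀ y : ℕ, N ≤ 2 * y → (z : ℝ) ≤ Real.log y ^ (B0 + 1) := by
    intro y hy
    have b1 := hlogy y hy
    have b2 : Real.log M ≤ 4 * Real.log y := by linarith
    have b3 : Real.log (M : ℝ) ^ B0 ≤ 4 ^ B0 * Real.log y ^ B0 := by
      rw [← mul_pow]
      exact pow_le_pow_left₀ hlM0 b2 _
    have b4 : 1 ≤ Real.log y ^ B0 := one_le_pow₀ (by linarith)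
    have b5 : 4 ^ B0 + 1 ≤ Real.log y := by linarith
    calc (z : ℝ) ≤ 4 ^ B0 * Real.log y ^ B0 + 1 := by linarith
      _ ≤ (4 ^ B0 + 1) * Real.log y ^ B0 := by linarith
      _ ≤ Real.log y * Real.log y ^ B0 := mul_le_mul_of_nonneg_right b5 (by linarith)
      _ = _ := by rw [pow_succ]; ring
  have hxq : x + q ≤ M := by rw [hM]; nlinarith
  have e1 := h1 z hz1 hz3 x (by omega)
  have e2 := h1 z hz1 hz3 (x + q) hxq
  have hX : (0 : ℝ) < N / L ^ (a + 1) := by positivity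
  refine ⟨(Icc 1 N).filter (fun h => N / L ^ (a + 1) < er z x h ∨ N / L ^ (a + 1) < er z (x + q) h), ?_, ?_⟩
  · have c1 : (((Icc 1 N).filter (fun h => N / L ^ (a + 1) < er z x h ∨ N / L ^ (a + 1) < er z (x + q) h)).card : ℝ) *
        (N / L ^ (a + 1)) ≤ ∑ h ∈ Icc 1 N, (er z x h + er z (x + q) h) := by
      rw [← nsmul_eq_mul, ← sum_const]
      refine le_trans (sum_le_sum (fun h hh => ?_)) (sum_le_sum_of_subset_of_nonneg (filter_subset _ _) fun h _ _ =>
        add_nonneg (abs_nonneg _) (abs_nonneg _))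
      rw [mem_filter] at hh
      have f1 : 0 ≤ er z x h := abs_nonneg _
      have f2 : 0 ≤ er z (x + q) h := abs_nonneg _
      rcases hh.2 with h | h <;> linarith
    rw [sum_add_distrib] at c1
    have c2 : ∑ h ∈ Icc 1 N, er z x h + ∑ h ∈ Icc 1 N, er z (x + q) h ≤ (N / L ^ A) * (N / L ^ (a + 1)) := by
      calc ∑ h ∈ Icc 1 N, er z x h + ∑ h ∈ Icc 1 N, er z (x + q) h ≤ M * N / L ^ (a + A + 2) + M * N / L ^ (a + A + 2) :=
            add_le_add e1 e2
        _ = (2 * (T + 2)) * (N * N) / L ^ (a + A + 2) := by rw [hMr]; ring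
        _ ≤ L * (N * N) / L ^ (a + A + 2) := by
            apply div_le_div_of_nonneg_right _ (by positivity)
            exact mul_le_mul_of_nonneg_right (by linarith) (by positivity)
        _ = _ := by
            rw [div_mul_div_comm, ← pow_add, div_eq_div_iff (by positivity) (by positivity)]
            ring
    exact le_of_mul_le_mul_right (c1.trans c2) hX
  · intro h hh1 hh2 hE
    rw [mem_filter, not_and, not_or, not_lt, not_lt] at hE
    obtain ⟨f1, f2⟩ := hE (mem_Icc.2 ⟨hh1, hh2⟩)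
    have hd : ∀ y : ℕ, N ≤ 2 * y → y ≤ M → er z y h ≤ N / L ^ (a + 1) →
        |tupleCount (fun _ : Fin 1 => (h : ℤ)) y - singZ (fun _ : Fin 1 => (h : ℤ)) z * y| ≤ K / 2 * (N / L ^ (a + 1)) := by
      intro y hy hyM he
      have d1 := hn0 y (by omega) z hz4 (hz5 y hy) (fun _ => h) (fun _ => by omega)
      have d2 : |∑ n ∈ Icc 1 y, ArithmeticFunction.vonMangoldt n *
        (∏ i : Fin 1, lamI ((n : ℤ) + ((fun _ : Fin 1 => h) i : ℤ)) -
          ∏ i : Fin 1, lamzI z ((n : ℤ) + ((fun _ : Fin 1 => h) i : ℤ)))| = er z y h := rfl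
      rw [d2] at d1
      refine d1.trans ?_
      have d3 : (y : ℝ) / Real.log y ^ (a + 1) ≤ (T + 2) * 2 ^ (a + 1) * (N / L ^ (a + 1)) := by
        have d4 : L / 2 ≤ Real.log y := by linarith [hlogy y hy]
        calc (y : ℝ) / Real.log y ^ (a + 1) ≤ M / (L / 2) ^ (a + 1) := by
              apply div_le_div₀ hM0.le (by exact_mod_cast hyM) (by positivity)
              exact pow_le_pow_left₀ (by positivity) d4 _
          _ = _ := by rw [hMr, div_pow]; field_simp
      rw [hK]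
      linarith
    have d1 := hd x hxN (by omega) f1
    have d2 := hd (x + q) (by omega) hxq f2
    have hx1 : 1 ≤ x := by omega
    have d3 := pairs_window x q h hx1
    have d4 := singZ_le_Fw h z hh1
    have d5 : (N : ℝ) / L ^ (a + 1) ≤ q / L := by
      rw [div_le_div_iff₀ (by positivity) hL0, pow_succ]
      calc (N : ℝ) * L ≤ (q * L ^ a) * L := mul_le_mul_of_nonneg_right hqa hL0.le
        _ = _ := by ring
    have hq0 : (0 : ℝ) ≤ q := Nat.cast_nonneg q
    have hF1 := one_le_Fw 0 h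
    obtain ⟨F, hF⟩ : ∃ F, F = Fw 0 h := ⟨_, rfl⟩
    rw [← hF] at d4 hF1 ⊢
    have d6 : Cc x q h * Real.log x ^ 2 ≤ F * q + K * (q / L) := by
      have g1 := (abs_le.1 d2).2
      have g2 := (abs_le.1 d1).1
      push_cast at g1
      have g3 : singZ (fun _ : Fin 1 => (h : ℤ)) z * q ≤ F * q := mul_le_mul_of_nonneg_right d4 hq0
      have g4 : K * (N / L ^ (a + 1)) ≤ K * (q / L) := mul_le_mul_of_nonneg_left d5 (by linarith)
      nlinarith
    have d7 : (L - 1) ^ 2 ≤ Real.log x ^ 2 := pow_le_pow_left₀ (by linarith) (hlogy x hxN) 2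
    have d8 : (Cc x q h : ℝ) * (L - 1) ^ 2 ≤ F * q + K * (q / L) :=
      (mul_le_mul_of_nonneg_left d7 (Nat.cast_nonneg _)).trans d6
    have d9 : F * q + K * (q / L) ≤ ((1 + δ) * F * (q / L ^ 2)) * (L - 1) ^ 2 := by
      have g1 : F * q + K * (q / L) ≤ F * (q * (1 + K / L)) := by
        have : K * (q / L) ≤ F * (K * (q / L)) := le_mul_of_one_le_left (by positivity) hF1
        calc F * q + K * (q / L) ≤ F * q + F * (K * (q / L)) := by linarith
          _ = _ := by ring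
      refine g1.trans ?_
      have g2 : (4 + 5 * K) ≤ δ * L := by
        have : (4 + 5 * K) / δ ≤ L := by linarith
        rw [div_le_iff₀ hδ] at this
        linarith
      have g3 : (1 + K / L) * L ^ 2 ≤ (1 + δ) * (L - 1) ^ 2 := by
        have e1 : (1 + K / L) * L ^ 2 = L ^ 2 + K * L := by field_simp
        rw [e1]
        have e2 : (L + (4 + 5 * K)) * (L - 1) ^ 2 ≤ L * ((1 + δ) * (L - 1) ^ 2) := by
          have : 0 ≤ (L - 1) ^ 2 := sq_nonneg _
          nlinarith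
        have e3 : L * (L ^ 2 + K * L) ≤ (L + (4 + 5 * K)) * (L - 1) ^ 2 := by
          nlinarith [mul_nonneg (sub_nonneg.2 hL8) (sub_nonneg.2 hK0), mul_nonneg (mul_nonneg hL0.le (sub_nonneg.2 hL8)) (sub_nonneg.2 hK0)]
        exact le_of_mul_le_mul_left (e3.trans e2) hL0
      calc F * (q * (1 + K / L)) = F * (q / L ^ 2) * ((1 + K / L) * L ^ 2) := by field_simp
        _ ≤ F * (q / L ^ 2) * ((1 + δ) * (L - 1) ^ 2) := mul_le_mul_of_nonneg_left g3 (by positivity)
        _ = _ := by ring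
    exact le_of_mul_le_mul_right (d8.trans d9) (by
      have : 0 < L - 1 := by linarith
      positivity)

end Pool.Agent.Run7.h931.RS
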