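import Pool.Agent.Run7.h931.RS.OneTwo

/-!
# Random shifts, part 12: the asymptotic number of the survivors for few shifts
-/

set_option autoImplicit false

namespace Pool.Agent.Run7.h931.RS

open Finset Filter

lemma Wd_zero : Wd 0 = 1 := by simp [Wd]

lemma Pw_zero : Pw 0 = 1 := by simp [Pw]

lemma cop_zero (b q : ℕ) : cop (Wd 0) b q = Ioc b (b + q) := by
  rw [Wd_zero]
  unfold cop
  exact filter_true_of_mem fun v _ => Nat.coprime_one_left v

/-- the size of one weight when there is no restriction modulo small primes -/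
lemma Cd.wt_zero {L K : ℝ} {q b n : ℕ} (h : Cd 0 L (1 / 4) K q b n) (v : ℕ) (hv : v ∈ Ioc b (b + q)) (hp : ¬ (n + v).Prime) :
    Real.exp (1 / L - K / L ^ 2) ≤ wt (cop (Wd 0) b q) (hit b q n) v ∧
      wt (cop (Wd 0) b q) (hit b q n) v ≤ Real.exp (1 / L + (K + 8) / L ^ 2) := by
  classical
  have hL := h.hL
  have hq : (0 : ℝ) < q := by exact_mod_cast h.hq
  have hKL := h.hKL
  have hPL := h.hPL
  rw [Pw_zero] at hPL
  have hL32 : 32 ≤ L := by linarith
  have h1 : v ∉ hit b q n := fun h' => hp (mem_filter.1 h').2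
  have e : wt (cop (Wd 0) b q) (hit b q n) v = q / (q - Dc (n + b) q) := by
    unfold wt
    rw [if_neg h1, cop_zero, if_pos hv, hit_card, Nat.card_Ioc, Nat.add_sub_cancel_left]
  rw [e]
  obtain ⟨β, hβ⟩ : ∃ β : ℝ, β = Dc (n + b) q / q := ⟨_, rfl⟩
  have e2 : (q : ℝ) / (q - Dc (n + b) q) = 1 / (1 - β) := by
    rw [hβ]
    field_simp
  have b1 : 1 / L - K / L ^ 2 ≤ β := by
    rw [hβ, le_div_iff₀ hq]
    refine le_trans (le_of_eq ?_) h.lo
    ring
  have b2 : β ≤ 1 / L + K / L ^ 2 := by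
    rw [hβ, div_le_iff₀ hq]
    refine h.hi.trans (le_of_eq ?_)
    ring
  have b3 : K / L ^ 2 ≤ 1 / L := by
    rw [div_le_div_iff₀ (by positivity) hL]
    nlinarith
  have b4 : 0 ≤ β := by rw [hβ]; positivity
  have b5 : 1 / L ≤ 1 / 32 := div_le_div_of_nonneg_left (by norm_num) (by norm_num) hL32
  have b6 : β ≤ 2 * (1 / L) := by linarith
  have b7 : 0 < 1 - β := by linarith
  rw [e2]
  constructor
  · rw [le_div_iff₀ b7]
    have c1 : 1 - β ≤ Real.exp (-β) := by have := Real.add_one_le_exp (-β); linarith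
    calc Real.exp (1 / L - K / L ^ 2) * (1 - β) ≤ Real.exp β * Real.exp (-β) :=
          mul_le_mul (Real.exp_le_exp.2 b1) c1 b7.le (Real.exp_pos _).le
      _ = 1 := by rw [← Real.exp_add, add_neg_cancel, Real.exp_zero]
  · have c1 : 1 / (1 - β) = β / (1 - β) + 1 := by field_simp; ring
    rw [c1]
    refine (Real.add_one_le_exp _).trans (Real.exp_le_exp.2 ?_)
    rw [div_le_iff₀ b7]
    have c2 : β ≤ (β + 2 * β ^ 2) * (1 - β) := by nlinarith [sq_nonneg β, mul_nonneg b4 (sq_nonneg β)]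
    have c3 : 2 * β ^ 2 ≤ 8 / L ^ 2 := by
      have : β ^ 2 ≤ (2 * (1 / L)) ^ 2 := pow_le_pow_left₀ b4 b6 2
      have e3 : (2 * (1 / L)) ^ 2 = 4 / L ^ 2 := by field_simp; norm_num
      have e4 : 8 / L ^ 2 = 2 * (4 / L ^ 2) := by ring
      rw [e4]
      linarith
    have c4 : (β + 2 * β ^ 2) * (1 - β) ≤ (1 / L + (K + 8) / L ^ 2) * (1 - β) := by
      apply mul_le_mul_of_nonneg_right _ b7.le
      rw [add_div]
      linarith
    linarith

/-- few shifts: the asymptotic number of the survivors -/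
theorem part_three' (T a : ℕ) (ε : ℝ) (hε : 0 < ε) (hε1 : ε ≤ 1) : ∃ δ : ℝ, 0 < δ ∧ ∀ᶠ N : ℕ in atTop, ∀ q : ℕ,
    (N : ℝ) ≤ q * Real.log N ^ a → q ≤ N → ∀ (m : ℕ) (b : Fin m → ℕ), (∀ j, b j ≤ T * N) → (m : ℝ) ≤ δ * Real.log N ^ 2 →
      (((Fintype.piFinset fun j => Ioc (b j) (b j + q)).filter fun s =>
        ε * (N * Real.exp (-(m / Real.log N))) < |((sv (Icc 1 N) s).card : ℝ) - N * Real.exp (-(m / Real.log N))|).card : ℝ) ≤
          ε * (q : ℝ) ^ m := by
  classical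
  obtain ⟨τ, hτ⟩ : ∃ τ, τ = ε / 8 := ⟨_, rfl⟩
  obtain ⟨η₀, hη₀⟩ : ∃ η₀, η₀ = ε * τ / 8 := ⟨_, rfl⟩
  obtain ⟨η, hη⟩ : ∃ η, η = ε * τ ^ 2 / 12 := ⟨_, rfl⟩
  have hτ0 : 0 < τ := by rw [hτ]; positivity
  have hτ1 : τ ≤ 1 / 8 := by rw [hτ]; linarith
  have hη₀0 : 0 < η₀ := by rw [hη₀]; positivity
  have hη₀1 : η₀ ≤ τ / 8 := by
    rw [hη₀]
    have := mul_le_mul_of_nonneg_right hε1 hτ0.le
    linarith
  have hη0 : 0 < η := by rw [hη]; positivity
  obtain ⟨K, hK, h1⟩ := cd_ev T a 0 (1 / 4) η₀ (by norm_num) le_rfl hη₀0 (by linarith)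
  obtain ⟨C₀, hC₀, h2⟩ := sieve a
  obtain ⟨δ₁, hδ₁, hδ₁1, h3⟩ := moments_small (2 * C₀) (by positivity) C₀ η hη0
  obtain ⟨K', hK', h4⟩ := markov T a
  obtain ⟨δ, hδ⟩ : ∃ δ, δ = min (min δ₁ (1 / 4)) (τ / (2 * (K + K' + 8))) := ⟨_, rfl⟩
  have hK8 : 0 < K + K' + 8 := by linarith
  have hδ0 : 0 < δ := by rw [hδ]; exact lt_min (lt_min hδ₁ (by norm_num)) (by positivity)
  have hδa : δ ≤ δ₁ := by rw [hδ]; exact (min_le_left _ _).trans (min_le_left _ _)
  have hδb : δ ≤ 1 / 4 := by rw [hδ]; exact (min_le_left _ _).trans (min_le_right _ _)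
  have hδc : (K + K' + 8) * δ ≤ τ / 2 := by
    have : δ ≤ τ / (2 * (K + K' + 8)) := by rw [hδ]; exact min_le_right _ _
    rw [le_div_iff₀ (by positivity)] at this
    linarith
  have hexp : Real.exp (τ / 2) ≤ 1 + τ := by
    have := Real.abs_exp_sub_one_sub_id_le (x := τ / 2) (by rw [abs_of_pos (by positivity)]; linarith)
    have := (abs_le.1 this).2
    nlinarith
  refine ⟨δ, hδ0, ?_⟩
  filter_upwards [h1, h2, h4, ev_log 1, ev_log (Real.log (2 / η) / (1 / 2)), eventually_ge_atTop 3] with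
    N g1 g2 g3 g4 g5 g6 q hq hqN m b hb hm
  obtain ⟨L, hL⟩ : ∃ L, L = Real.log (N : ℝ) := ⟨_, rfl⟩
  have hN0 : (0 : ℝ) < N := by exact_mod_cast (by omega : 0 < N)
  obtain ⟨f, hf⟩ : ∃ f : ℕ, f = ⌊η₀ * N⌋₊ := ⟨_, rfl⟩
  have hf1 : (f : ℝ) ≤ η₀ * N := by rw [hf]; exact Nat.floor_le (by positivity)
  have hf2 : η₀ * N < (f : ℝ) + 1 := by rw [hf]; exact Nat.lt_floor_add_one _
  have hfN : f < N := by
    have : (f : ℝ) < N := by nlinarith
    exact_mod_cast this
  have hg1 := g1 q hq hqN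
  have k3 := g3 q hq hqN m b hb (Icc 1 f) (fun n hn => (mem_Icc.1 hn).2.trans hfN.le)
  have hg2 := g2
  rw [← hL] at g4 g5 hm k3 hg1 ⊢
  simp only [← hL] at hg2
  have hL0 : 0 < L := by linarith
  have hNL : (N : ℝ) = Real.exp L := by rw [hL, Real.exp_log hN0]
  have hm0 : (0 : ℝ) ≤ m := Nat.cast_nonneg m
  have hm2 : (m : ℝ) / L ^ 2 ≤ δ := by rwa [div_le_iff₀ (by positivity)]
  have hm20 : 0 ≤ (m : ℝ) / L ^ 2 := by positivity
  obtain ⟨n, hn⟩ : ∃ n : ℕ → ℕ, n = fun k => f + 1 + k := ⟨_, rfl⟩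
  obtain ⟨R, hR⟩ : ∃ R : ℕ, R = N - f := ⟨_, rfl⟩
  have hR0 : 0 < R := by omega
  have hRr : (R : ℝ) = N - f := by rw [hR, Nat.cast_sub hfN.le]
  have hRN : (1 - η₀) * N ≤ R := by rw [hRr]; linarith
  have hRN2 : (R : ℝ) ≤ N := by rw [hRr]; have : (0 : ℝ) ≤ f := Nat.cast_nonneg f; linarith
  have hcd : ∀ k < R, ∀ j, Cd 0 L (1 / 4) K q (b j) (n k) := by
    intro k hk j
    have e1 : n k ≤ N := by rw [hn]; simp only; omega
    apply hg1 (b j) (n k) (hb j) e1
    · rw [hn]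
      simp only
      push_cast
      have : (0 : ℝ) ≤ k := Nat.cast_nonneg k
      linarith
    · rw [Wd_zero]
      exact one_dvd _
  have hRhalf : (N : ℝ) / 2 ≤ R := by nlinarith
  -- the second moment
  have key := secmom 0 q b n (fun k h => by rw [hn, Wd_zero]; ring) R hR0 L (1 / 4) K hcd (fun _ h => 2 * (C₀ * Fw 0 h ^ C₀))
    (fun k h hh hkh j => by
      have hcd2 : Cd 0 L (1 / 4) K q (b j) (n k + Wd 0 * h) := by
        have := hcd (k + h) hkh j
        rw [hn, Wd_zero] at *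
        have e : f + 1 + (k + h) = f + 1 + k + 1 * h := by ring
        rw [← e]
        exact this
      have a0 := one_le_Fw 0 h
      apply (hcd k (by omega) j).bad hcd2 (C₀ * Fw 0 h ^ C₀) (by positivity)
      have := hg2 (n k + b j) q h (by rw [hL]; exact hq) hqN hh
      rw [Wd_zero, one_mul]
      exact this) (3 * η) τ hτ0 (by
      have hRr0 : (0 : ℝ) < R := by exact_mod_cast hR0
      have b1 : (R : ℝ) * Real.exp (m * ((1 + 3 * (1 / 4)) / L)) ≤ η * (R : ℝ) ^ 2 := by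
        have c1 : (m : ℝ) * ((1 + 3 * (1 / 4)) / L) ≤ L - 1 / 2 * L := by
          have e1 : (m : ℝ) * ((1 + 3 * (1 / 4)) / L) = (7 / 4) * (m / L ^ 2) * L := by field_simp; norm_num
          rw [e1]
          have e2 : (7 / 4) * (m / L ^ 2) ≤ 1 / 2 := by linarith
          have := mul_le_mul_of_nonneg_right e2 hL0.le
          linarith
        have c2 : Real.exp (m * ((1 + 3 * (1 / 4)) / L)) ≤ η * R := by
          refine (Real.exp_le_exp.2 c1).trans ?_
          rw [Real.exp_sub, ← hNL]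
          have d1 : 2 / η ≤ Real.exp (1 / 2 * L) := by
            rw [div_le_iff₀ (by norm_num)] at g5
            have := Real.exp_le_exp.2 g5
            rw [Real.exp_log (by positivity)] at this
            rwa [mul_comm L] at this
          rw [div_le_iff₀ (Real.exp_pos _)]
          have d2 : (N : ℝ) = (η * (N / 2)) * (2 / η) := by field_simp
          calc (N : ℝ) = (η * (N / 2)) * (2 / η) := d2
            _ ≤ (η * R) * Real.exp (1 / 2 * L) := mul_le_mul (mul_le_mul_of_nonneg_left hRhalf hη0.le) d1 (by positivity) (by positivity)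
        calc (R : ℝ) * Real.exp (m * ((1 + 3 * (1 / 4)) / L)) ≤ R * (η * R) := mul_le_mul_of_nonneg_left c2 hRr0.le
          _ = _ := by ring
      have b2 : ∀ k ∈ range R, ∑ h ∈ Icc 1 (R - 1 - k), Real.exp (m * (2 * (C₀ * Fw 0 h ^ C₀) / L ^ 2)) ≤
          ((R - 1 - k : ℕ) : ℝ) + η * R := by
        intro k hk
        have c2 : ∀ h ∈ Icc 1 (R - 1 - k), Real.exp (m * (2 * (C₀ * Fw 0 h ^ C₀) / L ^ 2)) ≤
            1 + (Real.exp (δ₁ * (2 * C₀ * Fw 0 h ^ C₀)) - 1) := by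
          intro h _
          rw [add_sub_cancel]
          apply Real.exp_le_exp.2
          have a0 := one_le_Fw 0 h
          have e1 : (m : ℝ) * (2 * (C₀ * Fw 0 h ^ C₀) / L ^ 2) = (m / L ^ 2) * (2 * C₀ * Fw 0 h ^ C₀) := by ring
          rw [e1]
          exact mul_le_mul_of_nonneg_right (hm2.trans hδa) (by positivity)
        refine (sum_le_sum c2).trans ?_
        rw [sum_add_distrib, sum_const, Nat.card_Icc, nsmul_eq_mul, mul_one, Nat.add_sub_cancel]
        have c3 := h3 (R - 1 - k)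
        have c4 : (((R - 1 - k : ℕ)) : ℝ) ≤ R := by exact_mod_cast (by omega : R - 1 - k ≤ R)
        have c5 : η * (((R - 1 - k : ℕ)) : ℝ) ≤ η * R := mul_le_mul_of_nonneg_left c4 hη0.le
        linarith
      have b3 := sum_le_sum b2
      rw [sum_add_distrib, sum_const, card_range, nsmul_eq_mul] at b3
      have b4 := tri R
      nlinarith)
  obtain ⟨Ω, hΩ⟩ : ∃ Ω, Ω = Fintype.piFinset fun j => Ioc (b j) (b j + q) := ⟨_, rfl⟩
  rw [← hΩ] at key k3 ⊢
  obtain ⟨y, hy⟩ : ∃ y, y = Real.exp (-(m / L)) := ⟨_, rfl⟩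
  have hy0 : 0 < y := by rw [hy]; exact Real.exp_pos _
  rw [← hy]
  obtain ⟨B1, hB1⟩ : ∃ B1, B1 = Ω.filter fun s => τ * R < |Zs 0 q b n R s - R| := ⟨_, rfl⟩
  obtain ⟨B2, hB2⟩ : ∃ B2, B2 = Ω.filter fun s => τ * (N * y) < ((sv (Icc 1 f) s).card : ℝ) := ⟨_, rfl⟩
  rw [← hB1] at key
  have hqm : 0 ≤ (q : ℝ) ^ m := by positivity
  have c1 : (B1.card : ℝ) ≤ ε / 4 * (q : ℝ) ^ m := by
    have e1 : 3 * η * (q : ℝ) ^ m = (ε / 4 * (q : ℝ) ^ m) * τ ^ 2 := by rw [hη]; ring
    rw [e1] at key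
    exact le_of_mul_le_mul_right key (by positivity)
  have hKe : Real.exp (K' * (m / L ^ 2)) ≤ 1 + τ := by
    refine le_trans (Real.exp_le_exp.2 ?_) hexp
    have e1 : K' * (m / L ^ 2) ≤ (K + K' + 8) * δ := mul_le_mul (by linarith) hm2 hm20 hK8.le
    linarith
  have hKe2 : Real.exp (K * (m / L ^ 2)) ≤ 1 + τ := by
    refine le_trans (Real.exp_le_exp.2 ?_) hexp
    have e1 : K * (m / L ^ 2) ≤ (K + K' + 8) * δ := mul_le_mul (by linarith) hm2 hm20 hK8.le
    linarith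
  have hKe3 : Real.exp ((K + 8) * (m / L ^ 2)) ≤ 1 + τ := by
    refine le_trans (Real.exp_le_exp.2 ?_) hexp
    have e1 : (K + 8) * (m / L ^ 2) ≤ (K + K' + 8) * δ := mul_le_mul (by linarith) hm2 hm20 hK8.le
    linarith
  have c2 : (B2.card : ℝ) ≤ ε / 4 * (q : ℝ) ^ m := by
    have d1 : (B2.card : ℝ) * (τ * (N * y)) ≤ ∑ s ∈ Ω, ((sv (Icc 1 f) s).card : ℝ) := by
      rw [← nsmul_eq_mul, ← sum_const, hB2]
      refine le_trans (sum_le_sum (fun s hs => ?_)) (sum_le_sum_of_subset_of_nonneg (filter_subset _ _) fun s _ _ => Nat.cast_nonneg _)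
      exact (mem_filter.1 hs).2.le
    have d2 := d1.trans k3
    rw [Nat.card_Icc, Nat.add_sub_cancel] at d2
    have d3 : Real.exp (K' * (m / L ^ 2) - m / L) ≤ (1 + τ) * y := by
      rw [sub_eq_add_neg, Real.exp_add, ← hy]
      exact mul_le_mul_of_nonneg_right hKe hy0.le
    have d4 : (f : ℝ) * ((q : ℝ) ^ m * Real.exp (K' * (m / L ^ 2) - m / L)) ≤ (η₀ * N) * ((q : ℝ) ^ m * (2 * y)) := by
      apply mul_le_mul hf1 _ (by positivity) (by positivity)
      apply mul_le_mul_of_nonneg_left _ hqm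
      refine d3.trans ?_
      exact mul_le_mul_of_nonneg_right (by linarith) hy0.le
    have d5 : (η₀ * N) * ((q : ℝ) ^ m * (2 * y)) = (ε / 4 * (q : ℝ) ^ m) * (τ * (N * y)) := by rw [hη₀]; ring
    rw [d5] at d4
    exact le_of_mul_le_mul_right (d2.trans d4) (by positivity)
  have c4 : (Ω.filter fun s => ε * (N * y) < |((sv (Icc 1 N) s).card : ℝ) - N * y|) ⊆ B1 ∪ B2 := by
    intro s hs
    rw [mem_filter] at hs
    obtain ⟨hsΩ, hs⟩ := hs
    by_contra hnot
    rw [mem_union, not_or] at hnot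
    obtain ⟨n1, n2⟩ := hnot
    rw [hB1, mem_filter, not_and, not_lt] at n1
    rw [hB2, mem_filter, not_and, not_lt] at n2
    have n1' := abs_le.1 (n1 hsΩ)
    have n2' := n2 hsΩ
    apply absurd hs
    rw [not_lt]
    have hsm : ∀ j, s j ∈ Ioc (b j) (b j + q) := by rw [hΩ, Fintype.mem_piFinset] at hsΩ; exact hsΩ
    obtain ⟨V, hV⟩ : ∃ V : Finset ℕ, V = sv (Ico (f + 1) (N + 1)) s := ⟨_, rfl⟩
    have f1 : ((sv (Icc 1 N) s).card : ℝ) = (sv (Icc 1 f) s).card + V.card := by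
      have e1 : sv (Icc 1 N) s = sv (Icc 1 f) s ∪ V := by
        rw [hV]
        unfold sv
        rw [← filter_union]
        congr 1
        ext x
        simp only [mem_Icc, mem_union, mem_Ico]
        omega
      rw [e1, card_union_of_disjoint]
      · push_cast
        rfl
      · rw [disjoint_left, hV]
        intro x hx hx'
        unfold sv at hx hx'
        rw [mem_filter, mem_Icc] at hx
        rw [mem_filter, mem_Ico] at hx'
        omega
    obtain ⟨Φ, hΦ⟩ : ∃ Φ : ℕ → ℝ, Φ = fun n => ∏ j, wt (cop (Wd 0) (b j) q) (hit (b j) q n) (s j) := ⟨_, rfl⟩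
    have f2 : Zs 0 q b n R s = ∑ x ∈ V, Φ x := by
      have e1 : Zs 0 q b n R s = ∑ x ∈ Ico (f + 1) (N + 1), Φ x := by
        rw [sum_Ico_eq_sum_range, hΦ]
        unfold Zs
        rw [Nat.add_sub_add_right, ← hR, hn]
      rw [e1, hV]
      unfold sv
      rw [sum_filter]
      apply sum_congr rfl
      intro x _
      split_ifs with hx
      · rfl
      · push Not at hx
        obtain ⟨j, hj⟩ := hx
        rw [hΦ]
        apply prod_eq_zero (mem_univ j)
        unfold wt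
        rw [if_pos]
        unfold hit
        rw [mem_filter]
        exact ⟨hsm j, hj⟩
    have f3 : ∀ x ∈ V, y⁻¹ ≤ (1 + τ) * Φ x ∧ Φ x ≤ y⁻¹ * (1 + τ) := by
      intro x hx
      rw [hV] at hx
      unfold sv at hx
      rw [mem_filter, mem_Ico] at hx
      have hxk : n (x - (f + 1)) = x := by rw [hn]; simp only; omega
      have hyinv : y⁻¹ = Real.exp (m / L) := by rw [hy, Real.exp_neg, inv_inv]
      have e0 : ∀ j, Real.exp (1 / L - K / L ^ 2) ≤ wt (cop (Wd 0) (b j) q) (hit (b j) q x) (s j) ∧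
          wt (cop (Wd 0) (b j) q) (hit (b j) q x) (s j) ≤ Real.exp (1 / L + (K + 8) / L ^ 2) := by
        intro j
        have := hcd (x - (f + 1)) (by omega) j
        rw [hxk] at this
        exact this.wt_zero (s j) (hsm j) (hx.2 j)
      constructor
      · have e1 : Real.exp (1 / L - K / L ^ 2) ^ m ≤ Φ x := by
          rw [hΦ]
          simp only
          calc Real.exp (1 / L - K / L ^ 2) ^ m = ∏ _j : Fin m, Real.exp (1 / L - K / L ^ 2) := by
                rw [prod_const, card_univ, Fintype.card_fin]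
            _ ≤ _ := Finset.prod_le_prod (fun j _ => (Real.exp_pos _).le) fun j _ => (e0 j).1
        have e2 : Real.exp (m / L) = Real.exp (K * (m / L ^ 2)) * Real.exp (1 / L - K / L ^ 2) ^ m := by
          rw [← Real.exp_nat_mul, ← Real.exp_add]
          congr 1
          ring
        rw [hyinv, e2]
        exact mul_le_mul hKe2 e1 (by positivity) (by linarith)
      · have e1 : Φ x ≤ Real.exp (1 / L + (K + 8) / L ^ 2) ^ m := by
          rw [hΦ]
          simp only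
          calc _ ≤ ∏ _j : Fin m, Real.exp (1 / L + (K + 8) / L ^ 2) :=
                Finset.prod_le_prod (fun j _ => (Real.exp_pos _).le.trans (e0 j).1) fun j _ => (e0 j).2
            _ = _ := by rw [prod_const, card_univ, Fintype.card_fin]
        have e2 : Real.exp (1 / L + (K + 8) / L ^ 2) ^ m = Real.exp (m / L) * Real.exp ((K + 8) * (m / L ^ 2)) := by
          rw [← Real.exp_nat_mul, ← Real.exp_add]
          congr 1
          ring
        rw [hyinv]
        refine e1.trans ?_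
        rw [e2]
        exact mul_le_mul_of_nonneg_left hKe3 (Real.exp_pos _).le
    have f4 : y⁻¹ * V.card ≤ (1 + τ) * Zs 0 q b n R s := by
      rw [f2, mul_sum]
      calc y⁻¹ * V.card = ∑ _x ∈ V, y⁻¹ := by rw [sum_const, nsmul_eq_mul, mul_comm]
        _ ≤ _ := sum_le_sum fun x hx => (f3 x hx).1
    have f5 : Zs 0 q b n R s ≤ (y⁻¹ * (1 + τ)) * V.card := by
      rw [f2]
      calc ∑ x ∈ V, Φ x ≤ ∑ _x ∈ V, y⁻¹ * (1 + τ) := sum_le_sum fun x hx => (f3 x hx).2
        _ = _ := by rw [sum_const, nsmul_eq_mul, mul_comm]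
    have f6 : (V.card : ℝ) ≤ y * ((1 + τ) * ((1 + τ) * R)) := by
      have e1 : (V.card : ℝ) = y * (y⁻¹ * V.card) := by rw [← mul_assoc, mul_inv_cancel₀ hy0.ne', one_mul]
      rw [e1]
      apply mul_le_mul_of_nonneg_left _ hy0.le
      refine f4.trans ?_
      apply mul_le_mul_of_nonneg_left _ (by linarith)
      linarith [n1'.2]
    have f7 : y * ((1 - τ) * R) ≤ (1 + τ) * V.card := by
      have e1 : (1 + τ) * (V.card : ℝ) = y * ((y⁻¹ * (1 + τ)) * V.card) := by
        rw [← mul_assoc, ← mul_assoc, mul_inv_cancel₀ hy0.ne', one_mul]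
      rw [e1]
      apply mul_le_mul_of_nonneg_left _ hy0.le
      linarith [n1'.1]
    have hNy : 0 < N * y := by positivity
    have f8 : (V.card : ℝ) ≤ (1 + 3 * τ) * (N * y) := by
      refine f6.trans ?_
      have e1 : y * ((1 + τ) * ((1 + τ) * R)) = ((1 + τ) ^ 2 * y) * R := by ring
      have e2 : ((1 + τ) ^ 2 * y) * R ≤ ((1 + τ) ^ 2 * y) * N := mul_le_mul_of_nonneg_left hRN2 (by positivity)
      have e3 : ((1 + τ) ^ 2 * y) * N = (1 + τ) ^ 2 * (N * y) := by ring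
      have e4 : (1 + τ) ^ 2 ≤ 1 + 3 * τ := by nlinarith
      have e5 := mul_le_mul_of_nonneg_right e4 hNy.le
      linarith
    have f9 : (1 - 4 * τ) * (N * y) ≤ V.card := by
      have e1 : y * ((1 - τ) * ((1 - η₀) * N)) ≤ (1 + τ) * V.card := by
        refine le_trans (mul_le_mul_of_nonneg_left (mul_le_mul_of_nonneg_left hRN (by linarith)) hy0.le) f7
      have e2 : y * ((1 - τ) * ((1 - η₀) * N)) = ((1 - τ) * (1 - η₀)) * (N * y) := by ring
      have e3 : (1 + τ) * (1 - 4 * τ) ≤ (1 - τ) * (1 - η₀) := by nlinarith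
      have e4 := mul_le_mul_of_nonneg_right e3 hNy.le
      have e5 : (1 + τ) * ((1 - 4 * τ) * (N * y)) ≤ (1 + τ) * V.card := by
        rw [← mul_assoc]
        linarith
      exact le_of_mul_le_mul_left e5 (by linarith)
    have f10 : (0 : ℝ) ≤ (sv (Icc 1 f) s).card := Nat.cast_nonneg _
    rw [f1, abs_le]
    have hετ : ε = 8 * τ := by rw [hτ]; ring
    rw [hετ]
    constructor <;> nlinarith
  have c5 : (((Ω.filter fun s => ε * (N * y) < |((sv (Icc 1 N) s).card : ℝ) - N * y|)).card : ℝ) ≤ B1.card + B2.card := by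
    exact_mod_cast (card_le_card c4).trans (card_union_le B1 B2)
  refine c5.trans ?_
  have : 0 ≤ ε / 4 * (q : ℝ) ^ m := by positivity
  linarith

theorem part_three (T a : ℕ) (ε : ℝ) (hε : 0 < ε) : ∃ δ : ℝ, 0 < δ ∧ ∀ᶠ N : ℕ in atTop, ∀ q : ℕ,
    (N : ℝ) ≤ q * Real.log N ^ a → q ≤ N → ∀ (m : ℕ) (b : Fin m → ℕ), (∀ j, b j ≤ T * N) → (m : ℝ) ≤ δ * Real.log N ^ 2 →
      (((Fintype.piFinset fun j => Ioc (b j) (b j + q)).filter fun s =>
        ε * (N * Real.exp (-(m / Real.log N))) < |((sv (Icc 1 N) s).card : ℝ) - N * Real.exp (-(m / Real.log N))|).card : ℝ) ≤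
          ε * (q : ℝ) ^ m := by
  obtain ⟨δ, hδ, h⟩ := part_three' T a (min ε 1) (lt_min hε one_pos) (min_le_right _ _)
  refine ⟨δ, hδ, ?_⟩
  filter_upwards [h] with N g q hq hqN m b hb hm
  have k := g q hq hqN m b hb hm
  have hqm : 0 ≤ (q : ℝ) ^ m := by positivity
  refine le_trans ?_ (k.trans (mul_le_mul_of_nonneg_right (min_le_left _ _) hqm))
  apply Nat.cast_le.2
  apply card_le_card
  intro s hs
  rw [mem_filter] at hs ⊢
  refine ⟨hs.1, lt_of_le_of_lt ?_ hs.2⟩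
  exact mul_le_mul_of_nonneg_right (min_le_left _ _) (by positivity)

end Pool.Agent.Run7.h931.RS
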