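import Pool.Agent.Run7.h931.RS.Mom

/-!
# Random shifts, part 9: the second moment up to the threshold
-/

set_option autoImplicit false

namespace Pool.Agent.Run7.h931.RS

open Finset Filter

/-- the windows carry the data of one coordinate -/
theorem cd_ev (T a w : ℕ) (δ η₀ : ℝ) (hδ : 0 < δ) (hδ1 : δ ≤ 1 / 4) (hη₀ : 0 < η₀) (hη₁ : η₀ ≤ 1) : ∃ K : ℝ, 0 ≤ K ∧ ∀ᶠ N : ℕ in atTop, ∀ q : ℕ,
    (N : ℝ) ≤ q * Real.log N ^ a → q ≤ N → ∀ b n : ℕ, b ≤ T * N → n ≤ N → η₀ * N ≤ n → Wd w ∣ n →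
      Cd w (Real.log N) δ K q b n := by
  obtain ⟨K1, hK1, h1⟩ := pnt_lo T a
  obtain ⟨K2, hK2, h2⟩ := pnt_hi T a η₀ hη₀ hη₁
  refine ⟨K1 + K2, by positivity, ?_⟩
  have hP := one_le_Pw w
  have hlog : Tendsto (fun N : ℕ => Real.log (N : ℝ)) atTop atTop := Real.tendsto_log_atTop.comp tendsto_natCast_atTop_atTop
  have e3 : ∀ᶠ N : ℕ in atTop, (4 * (K1 + K2) + 8 * Pw w) / δ + 1 ≤ Real.log N := hlog.eventually_ge_atTop _
  have e4 : ∀ᶠ N : ℕ in atTop, (4 * (Pw w * Wd w)) / δ * Real.log N ^ a ≤ N := by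
    have h := isLittleO_log_rpow_rpow_atTop (a : ℝ) (zero_lt_one)
    have h' := (h.comp_tendsto tendsto_natCast_atTop_atTop).bound (c := 1 / ((4 * (Pw w * Wd w)) / δ + 1)) (by
      have : (0 : ℝ) ≤ Wd w := Nat.cast_nonneg _
      positivity)
    filter_upwards [h', eventually_ge_atTop 3] with N hN hN3
    simp only [Function.comp, Real.rpow_natCast, Real.rpow_one] at hN
    have hN3r : (3 : ℝ) ≤ N := by exact_mod_cast hN3
    have hl : 0 ≤ Real.log (N : ℝ) := Real.log_nonneg (by linarith)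
    rw [Real.norm_of_nonneg (by positivity), Real.norm_of_nonneg (by positivity)] at hN
    have hW0 : (0 : ℝ) ≤ Wd w := Nat.cast_nonneg _
    have hc0 : 0 ≤ (4 * (Pw w * Wd w)) / δ := by positivity
    rw [div_mul_eq_mul_div, one_mul, le_div_iff₀ (by positivity)] at hN
    have : 0 ≤ Real.log (N : ℝ) ^ a := by positivity
    nlinarith
  have e5 : ∀ᶠ N : ℕ in atTop, ((w : ℝ) + 1) / η₀ ≤ N := tendsto_natCast_atTop_atTop.eventually_ge_atTop _
  filter_upwards [h1, h2, e3, e4, e5, eventually_ge_atTop 3] with N g1 g2 g3 g4 g5 g6 q hq hqN b n hb hnN hn hWn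
  obtain ⟨L, hL⟩ : ∃ L, L = Real.log (N : ℝ) := ⟨_, rfl⟩
  have hx : n + b ≤ (T + 1) * N := by nlinarith
  have k1 := g1 (n + b) q hx hq hqN
  have k2 := g2 (n + b) q hx (by push_cast; have : (0 : ℝ) ≤ b := Nat.cast_nonneg b; linarith) hq hqN
  rw [← hL] at g3 g4 hq k1 k2 ⊢
  have hL1 : 1 ≤ L := by
    have : 0 ≤ (4 * (K1 + K2) + 8 * Pw w) / δ := by positivity
    linarith
  have hL0 : 0 < L := by linarith
  have hN3r : (3 : ℝ) ≤ N := by exact_mod_cast g6
  have hq0 : 0 < q := by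
    rcases Nat.eq_zero_or_pos q with h0 | h0
    · rw [h0, Nat.cast_zero, zero_mul] at hq
      linarith
    · exact h0
  have hqr : (0 : ℝ) < q := by exact_mod_cast hq0
  have g3' : 4 * (K1 + K2) + 8 * Pw w ≤ δ * L := by
    have : (4 * (K1 + K2) + 8 * Pw w) / δ ≤ L := by linarith
    rw [div_le_iff₀ hδ] at this
    linarith
  refine ⟨hL0, hq0, hδ, hδ1, by linarith, by linarith, ?_, ?_, hWn, ?_, ?_⟩
  · have h3 : (4 * (Pw w * Wd w)) / δ * L ^ a ≤ q * L ^ a := g4.trans hq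
    have h4 := le_of_mul_le_mul_right h3 (by positivity)
    rw [div_le_iff₀ hδ] at h4
    linarith
  · have h3 : ((w : ℝ) + 1) ≤ η₀ * N := by
      rw [div_le_iff₀ hη₀] at g5
      linarith
    have h4 : (w : ℝ) < n := by linarith
    exact_mod_cast h4
  · have : 0 ≤ K2 * (q / L ^ 2) := by positivity
    linarith
  · have : 0 ≤ K1 * (q / L ^ 2) := by positivity
    linarith

/-- the second moment for fewer than `(1 - ε) log² N` shifts -/
theorem two_Z (T a w : ℕ) (ε δ η : ℝ) (hε1 : ε ≤ 1) (hδ : 0 < δ) (hδ1 : δ ≤ 1 / 4) (hδε : 6 * δ ≤ ε)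
    (hη : 0 < η) (hη1 : η ≤ 1)
    (hsh : ∀ H : ℕ, ∑ h ∈ Icc 1 H, (Real.exp (2 * Pw w * (Fw w h - 1)) - 1) ≤ η * H) (hδη : Real.exp (4 * δ * Pw w) ≤ 1 + η) :
    ∃ K : ℝ, 0 ≤ K ∧ ∀ᶠ N : ℕ in atTop, ∀ q : ℕ, (N : ℝ) ≤ q * Real.log N ^ a → q ≤ N → ∀ (m : ℕ) (b : Fin m → ℕ),
      (∀ j, b j ≤ T * N) → (m : ℝ) ≤ (1 - ε) * Real.log N ^ 2 → ∃ (n : ℕ → ℕ) (R : ℕ), (N : ℝ) / (8 * Wd w) ≤ R ∧
        (∀ k < R, 1 ≤ n k ∧ n k ≤ N) ∧ (∀ k k', n k = n k' → k = k') ∧
        (∀ k < R, ∀ j, Cd w (Real.log N) δ K q (b j) (n k)) ∧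
        (((Fintype.piFinset fun j => Ioc (b j) (b j + q)).filter fun s => 1 / 2 * R < |Zs w q b n R s - R|).card : ℝ) *
          (1 / 2) ^ 2 ≤ 7 * η * (q : ℝ) ^ m := by
  classical
  obtain ⟨K, hK, h1⟩ := cd_ev T a w δ (1 / 2) hδ hδ1 (by norm_num) (by norm_num)
  obtain ⟨C₀, hC₀, h2⟩ := sieve a
  obtain ⟨Km, hKm, h3⟩ := moments (2 * (2 * C₀)) (by positivity) C₀
  have hWpos := Wd_pos w
  have hP := one_le_Pw w
  refine ⟨K, hK, ?_⟩
  have hlog : Tendsto (fun N : ℕ => Real.log (N : ℝ)) atTop atTop := Real.tendsto_log_atTop.comp tendsto_natCast_atTop_atTop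
  have e4 : ∀ᶠ N : ℕ in atTop, 8 * Wd w * (1 + Km) / η + 1 ≤ Real.log N := hlog.eventually_ge_atTop _
  have e5 : ∀ᶠ N : ℕ in atTop, Real.log (8 * Wd w / η) / (ε / 2) ≤ Real.log N := hlog.eventually_ge_atTop _
  filter_upwards [h1, h2, hl_up T a 4 δ hδ, e4, e5, eventually_ge_atTop 3, eventually_ge_atTop (8 * Wd w)] with
    N g1 g2 g3 g4 g5 g6 g7 q hq hqN m b hb hm
  obtain ⟨L, hL⟩ : ∃ L, L = Real.log (N : ℝ) := ⟨_, rfl⟩
  obtain ⟨W, hW⟩ : ∃ W, W = Wd w := ⟨_, rfl⟩
  have hWr : (0 : ℝ) < W := by rw [hW]; exact_mod_cast hWpos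
  have hN0 : (0 : ℝ) < N := by exact_mod_cast (by omega : 0 < N)
  have hL1 : 1 ≤ L := by
    rw [hL]
    have : 0 ≤ 8 * Wd w * (1 + Km) / η := by positivity
    linarith
  have hL0 : 0 < L := by linarith
  obtain ⟨n, hn⟩ : ∃ n : ℕ → ℕ, n = fun k => W * (N / (2 * W) + 1 + k) := ⟨_, rfl⟩
  obtain ⟨R, hR⟩ : ∃ R : ℕ, R = N / (4 * W) := ⟨_, rfl⟩
  have hWp : 0 < W := by rw [hW]; exact hWpos
  have hRr : (N : ℝ) / (8 * W) ≤ R := by
    have a1 : (N : ℝ) < (4 * W : ℕ) * ((R : ℝ) + 1) := by rw [hR]; exact_mod_cast Nat.lt_mul_div_succ N (by omega)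
    have a2 : (8 * W : ℝ) ≤ N := by rw [← hW] at g7; exact_mod_cast g7
    rw [div_le_iff₀ (by positivity)]
    push_cast at a1
    nlinarith
  have hR0 : 0 < R := by
    have : (0 : ℝ) < R := lt_of_lt_of_le (by positivity) hRr
    exact_mod_cast this
  have hnk : ∀ k < R, N ≤ 2 * n k ∧ n k ≤ N := by
    intro k hk
    rw [hn]
    simp only
    constructor
    · have := (Nat.lt_mul_div_succ N (by omega : 0 < 2 * W)).le
      calc N ≤ 2 * W * (N / (2 * W) + 1) := this
        _ ≤ 2 * (W * (N / (2 * W) + 1 + k)) := by nlinarith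
    · have a1 : W * (N / (2 * W)) * 2 ≤ N := by
        have := Nat.mul_div_le N (2 * W)
        nlinarith
      have a2 : W * (N / (4 * W)) * 4 ≤ N := by
        have := Nat.mul_div_le N (4 * W)
        nlinarith
      have a3 : 1 + k ≤ N / (4 * W) := by omega
      have a4 : W * (N / (2 * W) + 1 + k) ≤ W * (N / (2 * W)) + W * (N / (4 * W)) := by
        rw [← mul_add]
        exact Nat.mul_le_mul_left _ (by omega)
      omega
  have hcd : ∀ k < R, ∀ j, Cd w L δ K q (b j) (n k) := by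
    intro k hk j
    obtain ⟨a1, a2⟩ := hnk k hk
    rw [hL]
    apply g1 q hq hqN (b j) (n k) (hb j) a2
    · have : (N : ℝ) ≤ 2 * n k := by exact_mod_cast a1
      linarith
    · rw [hn, ← hW]
      exact dvd_mul_right _ _
  have hqa := hq
  rw [← hL] at g4 g5 hm
  have hε0 : 0 < ε := by linarith
  have hm2 : (m : ℝ) ≤ L ^ 2 := by
    have : 0 ≤ ε * L ^ 2 := by positivity
    linarith
  refine ⟨n, R, by rw [← hW]; exact hRr, fun k hk => ⟨by have := hnk k hk; omega, (hnk k hk).2⟩, ?_, by rw [← hL]; exact hcd, ?_⟩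
  · intro k k' hkk
    rw [hn] at hkk
    simp only at hkk
    have := Nat.eq_of_mul_eq_mul_left hWp hkk
    omega
  -- the exceptional differences
  have hE : ∀ (k : ℕ) (j : Fin m), ∃ E : Finset ℕ, k < R → ((E.card : ℝ) ≤ N / L ^ 4 ∧ ∀ h : ℕ, 1 ≤ h → h ≤ N → h ∉ E →
      (Cc (n k + b j) q h : ℝ) ≤ (1 + δ) * Fw 0 h * (q / L ^ 2)) := by
    intro k j
    by_cases hk : k < R
    · obtain ⟨a1, a2⟩ := hnk k hk
      obtain ⟨E, hE1, hE2⟩ := g3 (n k + b j) q (by omega) (by nlinarith [hb j]) hqa hqN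
      rw [← hL] at hE1 hE2
      exact ⟨E, fun _ => ⟨hE1, hE2⟩⟩
    · exact ⟨∅, fun h => absurd h hk⟩
  choose E hE using hE
  obtain ⟨F, hF⟩ : ∃ F : ℕ → Finset ℕ, F = fun k => univ.biUnion (E k) := ⟨_, rfl⟩
  have hFc : ∀ k < R, ((F k).card : ℝ) ≤ N / L ^ 2 := by
    intro k hk
    have a1 : ((F k).card : ℝ) ≤ ∑ j : Fin m, ((E k j).card : ℝ) := by
      rw [hF]
      exact_mod_cast card_biUnion_le
    refine a1.trans ((sum_le_sum fun j _ => (hE k j hk).1).trans ?_)
    rw [sum_const, card_univ, Fintype.card_fin, nsmul_eq_mul]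
    calc (m : ℝ) * (N / L ^ 4) ≤ L ^ 2 * (N / L ^ 4) := mul_le_mul_of_nonneg_right hm2 (by positivity)
      _ = _ := by field_simp
  obtain ⟨g, hg⟩ : ∃ g : ℕ → ℕ → ℝ, g = fun k h => if W * h ∈ F k then 2 * (C₀ * Fw 0 (W * h) ^ C₀) else
    2 * Pw w * (Fw w h - 1) + 4 * δ * Pw w := ⟨_, rfl⟩
  have hFw1 : ∀ h, 0 ≤ 2 * Pw w * (Fw w h - 1) := fun h => by
    have := one_le_Fw w h
    apply mul_nonneg (by linarith) (by linarith)
  have hg0 : ∀ k h, 0 ≤ g k h := by
    intro k h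
    rw [hg]
    simp only
    have a1 := one_le_Fw 0 (W * h)
    have a2 := hFw1 h
    split_ifs
    · positivity
    · have : 0 ≤ 4 * δ * Pw w := by positivity
      linarith
  have hWh : ∀ k h, k + h < R → W * h ≤ N := by
    intro k h hkh
    have a2 : W * (N / (4 * W)) * 4 ≤ N := by
      have := Nat.mul_div_le N (4 * W)
      nlinarith
    have a3 : W * h ≤ W * (N / (4 * W)) := Nat.mul_le_mul_left _ (by omega)
    omega
  apply secmom w q b n (fun k h => by rw [hn, ← hW]; ring) R hR0 L δ K hcd g _ (7 * η) (1 / 2) (by norm_num) _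
  · -- the coordinates
    intro k h hh hkh j
    have hk : k < R := by omega
    have hcd2 : Cd w L δ K q (b j) (n k + Wd w * h) := by
      have := hcd (k + h) hkh j
      rw [hn] at this ⊢
      rw [← hW]
      have e : W * (N / (2 * W) + 1 + (k + h)) = W * (N / (2 * W) + 1 + k) + W * h := by ring
      rw [← e]
      exact this
    by_cases hmem : W * h ∈ F k
    · have e : g k h = 2 * (C₀ * Fw 0 (W * h) ^ C₀) := by rw [hg]; simp only; rw [if_pos hmem]
      rw [e]
      have a0 := one_le_Fw 0 (W * h)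
      apply (hcd k hk j).bad hcd2 (C₀ * Fw 0 (W * h) ^ C₀) (by positivity)
      have := g2 (n k + b j) q (W * h) hqa hqN (Nat.succ_le_of_lt (Nat.mul_pos hWp (by omega)))
      rw [← hL, hW] at this
      rw [hW]
      exact this
    · have e : g k h = 2 * Pw w * (Fw w h - 1) + 4 * δ * Pw w := by rw [hg]; simp only; rw [if_neg hmem]
      rw [e]
      apply (hcd k hk j).good hcd2 (Fw w h) (one_le_Fw w h)
      have hnE : W * h ∉ E k j := by
        intro hmE
        apply hmem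
        rw [hF]
        exact mem_biUnion.2 ⟨j, mem_univ j, hmE⟩
      have := (hE k j hk).2 (W * h) (Nat.succ_le_of_lt (Nat.mul_pos hWp (by omega))) (hWh k h hkh) hnE
      rw [hW] at this
      refine this.trans ?_
      apply mul_le_mul_of_nonneg_right _ (by positivity)
      exact mul_le_mul_of_nonneg_left (Fw_mulW w h hh) (by linarith)
  · -- the sums
    have hRr0 : (0 : ℝ) < R := by exact_mod_cast hR0
    have b1 : (R : ℝ) * Real.exp (m * ((1 + 3 * δ) / L)) ≤ η * (R : ℝ) ^ 2 := by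
      have c1 : (m : ℝ) * ((1 + 3 * δ) / L) ≤ L - ε / 2 * L := by
        have d1 : (m : ℝ) * ((1 + 3 * δ) / L) ≤ ((1 - ε) * L ^ 2) * ((1 + 3 * δ) / L) :=
          mul_le_mul_of_nonneg_right hm (by positivity)
        have d2 : ((1 - ε) * L ^ 2) * ((1 + 3 * δ) / L) = ((1 - ε) * (1 + 3 * δ)) * L := by field_simp
        have d3 : (1 - ε) * (1 + 3 * δ) ≤ 1 - ε / 2 := by nlinarith
        have d4 := mul_le_mul_of_nonneg_right d3 hL0.le
        linarith
      have c2 : Real.exp (m * ((1 + 3 * δ) / L)) ≤ η * R := by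
        refine (Real.exp_le_exp.2 c1).trans ?_
        rw [Real.exp_sub, hL, Real.exp_log hN0, ← hL]
        have d1 : 8 * W / η ≤ Real.exp (ε / 2 * L) := by
          rw [div_le_iff₀ (by positivity), ← hW] at g5
          have := Real.exp_le_exp.2 g5
          rw [Real.exp_log (by positivity)] at this
          rwa [mul_comm L] at this
        rw [div_le_iff₀ (Real.exp_pos _)]
        have d2 : (N : ℝ) = (η * (N / (8 * W))) * (8 * W / η) := by field_simp
        calc (N : ℝ) = (η * (N / (8 * W))) * (8 * W / η) := d2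
          _ ≤ (η * R) * Real.exp (ε / 2 * L) := mul_le_mul (mul_le_mul_of_nonneg_left hRr hη.le) d1 (by positivity) (by positivity)
      calc (R : ℝ) * Real.exp (m * ((1 + 3 * δ) / L)) ≤ R * (η * R) := mul_le_mul_of_nonneg_left c2 hRr0.le
        _ = _ := by ring
    have b2 : ∀ k ∈ range R, ∑ h ∈ Icc 1 (R - 1 - k), Real.exp (m * (g k h / L ^ 2)) ≤
        (1 + η) * (((R - 1 - k : ℕ) : ℝ) + η * R) + η * R / 2 := by
      intro k hk
      rw [mem_range] at hk
      have c1 : ∀ h, Real.exp (m * (g k h / L ^ 2)) ≤ Real.exp (g k h) := by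
        intro h
        apply Real.exp_le_exp.2
        have : (m : ℝ) * (g k h / L ^ 2) ≤ L ^ 2 * (g k h / L ^ 2) := mul_le_mul_of_nonneg_right hm2 (div_nonneg (hg0 k h) (by positivity))
        refine this.trans (le_of_eq ?_)
        field_simp
      have c2 : ∀ h ∈ Icc 1 (R - 1 - k), Real.exp (m * (g k h / L ^ 2)) ≤
          (if W * h ∈ F k then Real.exp (2 * C₀ * Fw 0 (W * h) ^ C₀) else 0) +
            (1 + η) * (1 + (Real.exp (2 * Pw w * (Fw w h - 1)) - 1)) := by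
        intro h _
        refine (c1 h).trans ?_
        have d1 : 0 ≤ (1 + η) * (1 + (Real.exp (2 * Pw w * (Fw w h - 1)) - 1)) := by
          have := Real.exp_pos (2 * Pw w * (Fw w h - 1))
          rw [add_sub_cancel]
          positivity
        by_cases hmem : W * h ∈ F k
        · have e : g k h = 2 * C₀ * Fw 0 (W * h) ^ C₀ := by rw [hg]; simp only; rw [if_pos hmem]; ring
          rw [if_pos hmem, e]
          linarith
        · have e : g k h = 4 * δ * Pw w + 2 * Pw w * (Fw w h - 1) := by rw [hg]; simp only; rw [if_neg hmem]; ring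
          rw [if_neg hmem, e, zero_add, Real.exp_add, add_sub_cancel]
          exact mul_le_mul_of_nonneg_right hδη (Real.exp_pos _).le
      refine (sum_le_sum c2).trans ?_
      rw [sum_add_distrib, ← mul_sum, sum_add_distrib, sum_const, Nat.card_Icc, nsmul_eq_mul, mul_one, Nat.add_sub_cancel, ← sum_filter]
      have c3 := hsh (R - 1 - k)
      have c4 : (((R - 1 - k : ℕ)) : ℝ) ≤ R := by exact_mod_cast (by omega : R - 1 - k ≤ R)
      have c5 : η * (((R - 1 - k : ℕ)) : ℝ) ≤ η * R := mul_le_mul_of_nonneg_left c4 hη.le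
      have c6 := bad_sum W N hWp (2 * C₀) C₀ Km (h3 N) (F k) (R - 1 - k) (by
        rcases Nat.eq_zero_or_pos (R - 1 - k) with h0 | h0
        · rw [h0]; omega
        · exact hWh k (R - 1 - k) (by omega)) L hL0
      have c7 := hFc k hk
      have c8 : L * (F k).card / 2 + Km * N / (2 * L) ≤ η * R / 2 := by
        have d1 : L * (F k).card ≤ N / L := by
          calc L * (F k).card ≤ L * (N / L ^ 2) := mul_le_mul_of_nonneg_left c7 hL0.le
            _ = N / L := by field_simp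
        have d2 : (1 + Km) * N / L ≤ η * R := by
          have f1 : 8 * W * (1 + Km) ≤ η * L := by
            rw [← hW] at g4
            have : 8 * W * (1 + Km) / η ≤ L := by linarith
            rw [div_le_iff₀ hη] at this
            linarith
          rw [div_le_iff₀ hL0]
          have f2 : (1 + Km) * N = (8 * W * (1 + Km)) * (N / (8 * W)) := by field_simp
          rw [f2]
          calc (8 * W * (1 + Km)) * (N / (8 * W)) ≤ (η * L) * R := mul_le_mul f1 hRr (by positivity) (by positivity)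
            _ = _ := by ring
        have d3 : (1 + Km) * N / L = N / L + Km * N / L := by ring
        have d4 : Km * N / (2 * L) = (Km * N / L) / 2 := by ring
        rw [d4]
        linarith
      have c9 : (1 + η) * ((((R - 1 - k : ℕ)) : ℝ) + ∑ h ∈ Icc 1 (R - 1 - k), (Real.exp (2 * Pw w * (Fw w h - 1)) - 1)) ≤
          (1 + η) * ((((R - 1 - k : ℕ)) : ℝ) + η * R) := mul_le_mul_of_nonneg_left (by linarith) (by linarith)
      linarith
    have b3 := sum_le_sum b2
    rw [sum_add_distrib, ← mul_sum, sum_add_distrib, sum_const, sum_const, card_range, nsmul_eq_mul, nsmul_eq_mul] at b3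
    have b4 := tri R
    have b5 : (1 + η) * (∑ k ∈ range R, (((R - 1 - k : ℕ) : ℝ)) + R * (η * R)) ≤ (1 + η) * ((R : ℝ) ^ 2 / 2 + R * (η * R)) :=
      mul_le_mul_of_nonneg_left (by linarith) (by linarith)
    have b6 : η ^ 2 ≤ η := by nlinarith
    nlinarith [mul_nonneg (sub_nonneg.2 b6) (sq_nonneg (R : ℝ)), mul_nonneg hη.le (sq_nonneg (R : ℝ))]

end Pool.Agent.Run7.h931.RS
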